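import Pool.Agent.Helper87.Camp.Full

/-!
# Weighted sums over `k`-full numbers
-/

set_option autoImplicit false

namespace Pool.Agent.Helper87.Camp

open Finset Pool.Agent.Helper10

/-- The divisor bound in real form. -/
lemma tau_rpow (δ : ℝ) (hδ : 0 < δ) :
    ∃ C : ℝ, 1 ≤ C ∧ ∀ n : ℕ, n ≠ 0 → (tau n : ℝ) ≤ C * (n : ℝ) ^ δ := by
  obtain ⟨q, hq⟩ := exists_nat_gt (1 / δ)
  have hq0' : (0 : ℝ) < q := lt_trans (by positivity) hq
  have hq0 : 0 < q := by exact_mod_cast hq0'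
  obtain ⟨C, hC1, hC⟩ := divisor_bound q
  have hC1' : (1 : ℝ) ≤ C := by exact_mod_cast hC1
  refine ⟨C, hC1', fun n hn => ?_⟩
  have hn1 : (1 : ℝ) ≤ n := by exact_mod_cast Nat.one_le_iff_ne_zero.mpr hn
  have h1 : (tau n : ℝ) ^ q ≤ C * n := by exact_mod_cast hC n hn
  have hq1 : (1 : ℝ) ≤ q := by exact_mod_cast hq0
  calc (tau n : ℝ) = ((tau n : ℝ) ^ q) ^ ((q : ℝ)⁻¹) :=
        (Real.pow_rpow_inv_natCast (by positivity) hq0.ne').symm
    _ ≤ (C * n) ^ ((q : ℝ)⁻¹) := Real.rpow_le_rpow (by positivity) h1 (by positivity)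
    _ = (C : ℝ) ^ ((q : ℝ)⁻¹) * (n : ℝ) ^ ((q : ℝ)⁻¹) :=
        Real.mul_rpow (by positivity) (by positivity)
    _ ≤ C * (n : ℝ) ^ δ := by
        apply mul_le_mul
        · calc (C : ℝ) ^ ((q : ℝ)⁻¹) ≤ (C : ℝ) ^ (1 : ℝ) :=
                Real.rpow_le_rpow_of_exponent_le hC1' (inv_le_one_of_one_le₀ hq1)
            _ = C := Real.rpow_one _
        · apply Real.rpow_le_rpow_of_exponent_le hn1
          rw [inv_le_comm₀ hq0' hδ, ← one_div]
          exact hq.le
        · positivity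
        · positivity

open Classical in
/-- `∑ w ^ (-1 / k)` over the `k`-full numbers up to `N` is `O(N ^ ε)`. -/
lemma sum_full (S : Finset ℕ) (k : ℕ) (hk : 1 ≤ k) (ε : ℝ) (hε : 0 < ε) :
    ∃ C : ℝ, 1 ≤ C ∧ ∀ N : ℕ, 1 ≤ N →
      ∑ w ∈ (Icc 1 N).filter (NFull S k), (w : ℝ) ^ (-(1 / (k : ℝ))) ≤ C * (N : ℝ) ^ ε := by
  set R := rad S with hR
  set D : ℕ := 2 * k + R with hD
  have hDpos : (0 : ℝ) < D := by
    have : 0 < D := by omega
    exact_mod_cast this
  obtain ⟨C1, hC1, hC⟩ := tau_rpow (ε / (2 * D)) (by positivity)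
  set K : ℝ := C1 * (2 : ℝ) ^ (ε / 2) * (1 + 2 / ε) with hK
  refine ⟨K, ?_, ?_⟩
  · have h2 : (1 : ℝ) ≤ (2 : ℝ) ^ (ε / 2) := Real.one_le_rpow (by norm_num) (by positivity)
    have h3 : (1 : ℝ) ≤ 1 + 2 / ε := by
      have : 0 < 2 / ε := by positivity
      linarith
    exact one_le_mul_of_one_le_of_one_le (one_le_mul_of_one_le_of_one_le hC1 h2) h3
  · intro N hN
    have hN1 : (1 : ℝ) ≤ N := by exact_mod_cast hN
    set L := Nat.log 2 N + 1 with hL
    have hNL : N < 2 ^ L := Nat.lt_pow_succ_log_self (by norm_num) N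
    have hLN : 2 ^ L ≤ 2 * N := by
      rw [hL, pow_succ, mul_comm]
      exact Nat.mul_le_mul_left 2 (Nat.pow_log_le_self 2 (by omega))
    have hz : ∀ w ∈ (Icc 1 N).filter (NFull S k),
        ∃ z : ℕ, z ∈ Icc 1 N ∧ z ^ k ∣ w ∧ w ∣ z ^ (2 * k) * R ^ L := by
      intro w hw
      rw [Finset.mem_filter, Finset.mem_Icc] at hw
      obtain ⟨z, hz, hz1, hz2⟩ := root_exists S hk L w (by omega) hw.2 (by omega)
      refine ⟨z, ?_, hz1, hz2⟩
      rw [Finset.mem_Icc]
      refine ⟨hz, ?_⟩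
      calc z ≤ z ^ k := Nat.le_self_pow (by omega) z
        _ ≤ w := Nat.le_of_dvd (by omega) hz1
        _ ≤ N := hw.1.2
    choose! z hz using hz
    have hstep1 : ∑ w ∈ (Icc 1 N).filter (NFull S k), (w : ℝ) ^ (-(1 / (k : ℝ))) ≤
        ∑ w ∈ (Icc 1 N).filter (NFull S k), (1 : ℝ) / z w := by
      apply Finset.sum_le_sum
      intro w hw
      obtain ⟨hz0, hz1, -⟩ := hz w hw
      rw [Finset.mem_filter, Finset.mem_Icc] at hw
      rw [Finset.mem_Icc] at hz0
      have hzpos : (0 : ℝ) < z w := by exact_mod_cast hz0.1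
      have hle : ((z w : ℝ)) ^ k ≤ w := by
        exact_mod_cast Nat.le_of_dvd (by omega) hz1
      have hk0 : (k : ℝ) ≠ 0 := by
        have : k ≠ 0 := by omega
        exact_mod_cast this
      rw [Real.rpow_neg (by positivity), one_div ((z w : ℝ))]
      apply inv_anti₀ hzpos
      calc (z w : ℝ) = ((z w : ℝ) ^ k) ^ (1 / (k : ℝ)) := by
            rw [one_div]
            exact (Real.pow_rpow_inv_natCast hzpos.le (by omega)).symm
        _ ≤ (w : ℝ) ^ (1 / (k : ℝ)) := Real.rpow_le_rpow (by positivity) hle (by positivity)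
    have hstep2 : ∑ w ∈ (Icc 1 N).filter (NFull S k), (1 : ℝ) / z w =
        ∑ y ∈ Icc 1 N, ∑ w ∈ ((Icc 1 N).filter (NFull S k)).filter (fun w => z w = y),
          (1 : ℝ) / z w :=
      (Finset.sum_fiberwise_of_maps_to (fun w hw => (hz w hw).1) _).symm
    have hstep3 : ∀ y ∈ Icc 1 N,
        ∑ w ∈ ((Icc 1 N).filter (NFull S k)).filter (fun w => z w = y), (1 : ℝ) / z w ≤
          (C1 * (2 : ℝ) ^ (ε / 2) * (N : ℝ) ^ (ε / 2)) * (1 / (y : ℝ)) := by
      intro y hy
      rw [Finset.mem_Icc] at hy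
      have hypos : (0 : ℝ) < y := by exact_mod_cast hy.1
      have h1 : ∑ w ∈ ((Icc 1 N).filter (NFull S k)).filter (fun w => z w = y), (1 : ℝ) / z w =
          ((((Icc 1 N).filter (NFull S k)).filter (fun w => z w = y)).card : ℝ) * (1 / y) := by
        rw [← nsmul_eq_mul, ← Finset.sum_const]
        apply Finset.sum_congr rfl
        intro w hw
        rw [Finset.mem_filter] at hw
        rw [hw.2]
      rw [h1]
      apply mul_le_mul_of_nonneg_right _ (by positivity)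
      have hR0 : 0 < R := rad_pos S
      have hne : y ^ (2 * k) * R ^ L ≠ 0 := by
        have : 0 < y ^ (2 * k) * R ^ L := Nat.mul_pos (pow_pos (by omega) _) (pow_pos hR0 _)
        omega
      have h2 : (((Icc 1 N).filter (NFull S k)).filter (fun w => z w = y)).card ≤
          tau (y ^ (2 * k) * R ^ L) := by
        unfold tau
        apply Finset.card_le_card
        intro w hw
        rw [Finset.mem_filter] at hw
        obtain ⟨-, -, h3⟩ := hz w hw.1
        rw [hw.2] at h3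
        exact Nat.mem_divisors.mpr ⟨h3, hne⟩
      have h3 : y ^ (2 * k) * R ^ L ≤ (2 * N) ^ D := by
        have hpa : (2 * N) ^ D = (2 * N) ^ (2 * k) * (2 * N) ^ R := by rw [hD, pow_add]
        rw [hpa]
        apply Nat.mul_le_mul
        · exact Nat.pow_le_pow_left (by omega) _
        · calc R ^ L ≤ (2 ^ R) ^ L := Nat.pow_le_pow_left (Nat.lt_two_pow_self).le _
            _ = (2 ^ L) ^ R := by rw [← pow_mul, ← pow_mul, mul_comm]
            _ ≤ (2 * N) ^ R := Nat.pow_le_pow_left hLN _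
      calc ((((Icc 1 N).filter (NFull S k)).filter (fun w => z w = y)).card : ℝ)
          ≤ (tau (y ^ (2 * k) * R ^ L) : ℝ) := by exact_mod_cast h2
        _ ≤ C1 * ((y ^ (2 * k) * R ^ L : ℕ) : ℝ) ^ (ε / (2 * D)) := hC _ hne
        _ ≤ C1 * (((2 * N) ^ D : ℕ) : ℝ) ^ (ε / (2 * D)) := by
            apply mul_le_mul_of_nonneg_left _ (by linarith)
            exact Real.rpow_le_rpow (by positivity) (by exact_mod_cast h3) (by positivity)
        _ = C1 * (2 : ℝ) ^ (ε / 2) * (N : ℝ) ^ (ε / 2) := by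
            rw [mul_assoc, ← Real.mul_rpow (by norm_num) (by positivity)]
            congr 1
            push_cast
            rw [← Real.rpow_natCast, ← Real.rpow_mul (by positivity)]
            congr 1
            field_simp
    have hlog : 1 + Real.log N ≤ (1 + 2 / ε) * (N : ℝ) ^ (ε / 2) := by
      have h1 := Real.log_le_rpow_div (x := (N : ℝ)) (by positivity) (show 0 < ε / 2 by positivity)
      have h2 : (1 : ℝ) ≤ (N : ℝ) ^ (ε / 2) := Real.one_le_rpow hN1 (by positivity)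
      have h3 : (N : ℝ) ^ (ε / 2) / (ε / 2) = 2 / ε * (N : ℝ) ^ (ε / 2) := by
        field_simp
      rw [h3] at h1
      linarith
    calc ∑ w ∈ (Icc 1 N).filter (NFull S k), (w : ℝ) ^ (-(1 / (k : ℝ)))
        ≤ ∑ y ∈ Icc 1 N, (C1 * (2 : ℝ) ^ (ε / 2) * (N : ℝ) ^ (ε / 2)) * (1 / (y : ℝ)) := by
          rw [hstep2] at hstep1
          exact hstep1.trans (Finset.sum_le_sum hstep3)
      _ = (C1 * (2 : ℝ) ^ (ε / 2) * (N : ℝ) ^ (ε / 2)) * ∑ y ∈ Icc 1 N, (1 / (y : ℝ)) := by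
          rw [Finset.mul_sum]
      _ ≤ (C1 * (2 : ℝ) ^ (ε / 2) * (N : ℝ) ^ (ε / 2)) * ((1 + 2 / ε) * (N : ℝ) ^ (ε / 2)) := by
          apply mul_le_mul_of_nonneg_left ((harmonic_Icc_le N hN).trans hlog)
          positivity
      _ = K * (N : ℝ) ^ ε := by
          have : (N : ℝ) ^ ε = (N : ℝ) ^ (ε / 2) * (N : ℝ) ^ (ε / 2) := by
            rw [← Real.rpow_add (by positivity)]
            congr 1
            ring
          rw [this, hK]
          ring

end Pool.Agent.Helper87.Camp
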