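import Pool.Agent.Helper87.Camp.Sum

/-!
# Counting `k`-full integers with weights
-/

set_option autoImplicit false

namespace Pool.Agent.Helper87.Camp

open Finset Pool.Agent.Helper10

open Classical in
/-- The nonzero `k`-full integers (away from `S`) of absolute value at most `N`. -/
noncomputable def Aset (S : Finset ℕ) (k N : ℕ) : Finset ℤ :=
  (Finset.Icc (-(N : ℤ)) N).filter (fun a => a ≠ 0 ∧ NFull S k a.natAbs)

lemma mem_Aset {S : Finset ℕ} {k N : ℕ} {a : ℤ} :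
    a ∈ Aset S k N ↔ a ≠ 0 ∧ a.natAbs ≤ N ∧ NFull S k a.natAbs := by
  classical
  unfold Aset
  rw [Finset.mem_filter, Finset.mem_Icc]
  constructor
  · rintro ⟨⟨h1, h2⟩, h3, h4⟩
    exact ⟨h3, by omega, h4⟩
  · rintro ⟨h1, h2, h3⟩
    exact ⟨⟨by omega, by omega⟩, h1, h3⟩

/-- The weighted sum `∑ |w| ^ (-1 / k)` over the `k`-full integers. -/
noncomputable def sig (S : Finset ℕ) (k N : ℕ) : ℝ :=
  ∑ w ∈ Aset S k N, (w.natAbs : ℝ) ^ (-(1 / (k : ℝ)))

lemma sig_nonneg (S : Finset ℕ) (k N : ℕ) : 0 ≤ sig S k N :=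
  Finset.sum_nonneg fun _ _ => Real.rpow_nonneg (Nat.cast_nonneg _) _

lemma sig_le (S : Finset ℕ) (k : ℕ) (hk : 1 ≤ k) (ε : ℝ) (hε : 0 < ε) :
    ∃ C : ℝ, 1 ≤ C ∧ ∀ N : ℕ, 1 ≤ N → sig S k N ≤ C * (N : ℝ) ^ ε := by
  classical
  obtain ⟨C, hC1, hC⟩ := sum_full S k hk ε hε
  refine ⟨2 * C, by linarith, fun N hN => ?_⟩
  have h1 : sig S k N ≤ 2 * ∑ w ∈ (Icc 1 N).filter (NFull S k), (w : ℝ) ^ (-(1 / (k : ℝ))) := by
    unfold sig
    have hmap : ∀ a ∈ Aset S k N, a.natAbs ∈ (Icc 1 N).filter (NFull S k) := by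
      intro a ha
      rw [mem_Aset] at ha
      rw [Finset.mem_filter, Finset.mem_Icc]
      exact ⟨⟨by omega, ha.2.1⟩, ha.2.2⟩
    rw [← Finset.sum_fiberwise_of_maps_to hmap, Finset.mul_sum]
    apply Finset.sum_le_sum
    intro w _
    have h2 : ∑ a ∈ (Aset S k N).filter (fun a => a.natAbs = w),
        (a.natAbs : ℝ) ^ (-(1 / (k : ℝ))) =
        (((Aset S k N).filter (fun a => a.natAbs = w)).card : ℝ) *
          (w : ℝ) ^ (-(1 / (k : ℝ))) := by
      rw [← nsmul_eq_mul, ← Finset.sum_const]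
      apply Finset.sum_congr rfl
      intro a ha
      rw [Finset.mem_filter] at ha
      rw [ha.2]
    rw [h2]
    apply mul_le_mul_of_nonneg_right _ (Real.rpow_nonneg (Nat.cast_nonneg _) _)
    have h3 : ((Aset S k N).filter (fun a => a.natAbs = w)).card ≤ 2 := by
      calc ((Aset S k N).filter (fun a => a.natAbs = w)).card
          ≤ ({(w : ℤ), -(w : ℤ)} : Finset ℤ).card := by
            apply Finset.card_le_card
            intro a ha
            rw [Finset.mem_filter] at ha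
            rw [Finset.mem_insert, Finset.mem_singleton]
            omega
        _ ≤ 2 := Finset.card_le_two
    exact_mod_cast h3
  have h2 := hC N hN
  linarith

lemma natAbs_pos_of_mem {S : Finset ℕ} {k N : ℕ} {a : ℤ} (h : a ∈ Aset S k N) :
    (1 : ℝ) ≤ (a.natAbs : ℝ) := by
  rw [mem_Aset] at h
  have : 1 ≤ a.natAbs := by omega
  exact_mod_cast this

/-- A bounded number of `k`-full integers. -/
lemma card_le_sig (S : Finset ℕ) (k N : ℕ) (Y : ℝ) (hY0 : 0 ≤ Y) (F : Finset ℤ)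
    (hF : F ⊆ Aset S k N)
    (hY : ∀ w ∈ F, (w.natAbs : ℝ) ≤ Y) : (F.card : ℝ) ≤ Y ^ (1 / (k : ℝ)) * sig S k N := by
  calc (F.card : ℝ) = ∑ w ∈ F, (1 : ℝ) := by rw [Finset.sum_const, nsmul_eq_mul, mul_one]
    _ ≤ ∑ w ∈ F, Y ^ (1 / (k : ℝ)) * (w.natAbs : ℝ) ^ (-(1 / (k : ℝ))) := by
        apply Finset.sum_le_sum
        intro w hw
        have h1 := natAbs_pos_of_mem (hF hw)
        have h2 : (w.natAbs : ℝ) ^ (1 / (k : ℝ)) ≤ Y ^ (1 / (k : ℝ)) :=
          Real.rpow_le_rpow (by positivity) (hY w hw) (by positivity)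
        calc (1 : ℝ) = (w.natAbs : ℝ) ^ (1 / (k : ℝ)) * (w.natAbs : ℝ) ^ (-(1 / (k : ℝ))) := by
              rw [← Real.rpow_add (by linarith), add_neg_cancel, Real.rpow_zero]
          _ ≤ Y ^ (1 / (k : ℝ)) * (w.natAbs : ℝ) ^ (-(1 / (k : ℝ))) :=
              mul_le_mul_of_nonneg_right h2 (Real.rpow_nonneg (by linarith) _)
    _ = Y ^ (1 / (k : ℝ)) * ∑ w ∈ F, (w.natAbs : ℝ) ^ (-(1 / (k : ℝ))) := by
        rw [Finset.mul_sum]
    _ ≤ Y ^ (1 / (k : ℝ)) * sig S k N := by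
        apply mul_le_mul_of_nonneg_left _ (Real.rpow_nonneg hY0 _)
        exact Finset.sum_le_sum_of_subset_of_nonneg hF
          (fun _ _ _ => Real.rpow_nonneg (Nat.cast_nonneg _) _)

/-- The decomposition `a = w x ^ m` of `m`-full integers. -/
structure IsDec (S : Finset ℕ) (m : ℕ) (W : ℤ → ℤ) (X : ℤ → ℕ) : Prop where
  ne : ∀ a : ℤ, a ≠ 0 → NFull S m a.natAbs → W a ≠ 0
  pos : ∀ a : ℤ, a ≠ 0 → NFull S m a.natAbs → 0 < X a
  eq : ∀ a : ℤ, a ≠ 0 → NFull S m a.natAbs → W a * (X a : ℤ) ^ m = a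
  full : ∀ a : ℤ, a ≠ 0 → NFull S m a.natAbs → NFull S (m + 1) (W a).natAbs

lemma exists_dec (S : Finset ℕ) {m : ℕ} (hm : 1 ≤ m) :
    ∃ (W : ℤ → ℤ) (X : ℤ → ℕ), IsDec S m W X := by
  classical
  have h : ∀ a : ℤ, a ≠ 0 ∧ NFull S m a.natAbs → ∃ (w : ℤ) (x : ℕ), w ≠ 0 ∧ 0 < x ∧
      w * (x : ℤ) ^ m = a ∧ NFull S (m + 1) w.natAbs := by
    rintro a ⟨ha, hf⟩
    obtain ⟨w, x, hw, hx, he, hwf⟩ := decomp S hm a.natAbs (by omega) hf
    rcases Int.natAbs_eq a with e | e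
    · refine ⟨w, x, by omega, hx, ?_, by simpa using hwf⟩
      rw [e, he]
      push_cast
      ring
    · refine ⟨-w, x, by omega, hx, ?_, by simpa using hwf⟩
      rw [e, he]
      push_cast
      ring
  choose! W X hWX using h
  exact ⟨W, X, fun a ha hf => (hWX a ⟨ha, hf⟩).1, fun a ha hf => (hWX a ⟨ha, hf⟩).2.1,
    fun a ha hf => (hWX a ⟨ha, hf⟩).2.2.1, fun a ha hf => (hWX a ⟨ha, hf⟩).2.2.2⟩

lemma IsDec.natAbs_eq {S : Finset ℕ} {m : ℕ} {W : ℤ → ℤ} {X : ℤ → ℕ} (h : IsDec S m W X)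
    {a : ℤ} (ha : a ≠ 0) (hf : NFull S m a.natAbs) : (W a).natAbs * (X a) ^ m = a.natAbs := by
  have h1 := congrArg Int.natAbs (h.eq a ha hf)
  rw [Int.natAbs_mul, Int.natAbs_pow, Int.natAbs_natCast] at h1
  exact h1

lemma IsDec.mem {S : Finset ℕ} {m N : ℕ} {W : ℤ → ℤ} {X : ℤ → ℕ} (h : IsDec S m W X)
    {a : ℤ} (ha : a ∈ Aset S m N) : W a ∈ Aset S (m + 1) N := by
  rw [mem_Aset] at ha ⊢
  refine ⟨h.ne a ha.1 ha.2.2, ?_, h.full a ha.1 ha.2.2⟩
  have h1 := h.natAbs_eq ha.1 ha.2.2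
  have h2 : 0 < X a ^ m := pow_pos (h.pos a ha.1 ha.2.2) m
  calc (W a).natAbs ≤ (W a).natAbs * X a ^ m := Nat.le_mul_of_pos_right _ h2
    _ ≤ N := by rw [h1]; exact ha.2.1

/-- The second weighted sum. -/
lemma dec_sum {S : Finset ℕ} {m : ℕ} (hm : 1 ≤ m) {W : ℤ → ℤ} {X : ℤ → ℕ}
    (h : IsDec S m W X) (N : ℕ) :
    ∑ a ∈ Aset S m N, ((W a).natAbs : ℝ) ^ (1 / (m : ℝ) - 1 / ((m + 1 : ℕ) : ℝ)) ≤
      (N : ℝ) ^ (1 / (m : ℝ)) * sig S (m + 1) N := by
  classical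
  have hm0 : (m : ℝ) ≠ 0 := by
    have : m ≠ 0 := by omega
    exact_mod_cast this
  rw [← Finset.sum_fiberwise_of_maps_to (fun a ha => h.mem ha)]
  unfold sig
  rw [Finset.mul_sum]
  apply Finset.sum_le_sum
  intro w hw
  have hw1 := natAbs_pos_of_mem hw
  have hwpos : (0 : ℝ) < (w.natAbs : ℝ) := by linarith
  have h2 : ∑ a ∈ (Aset S m N).filter (fun a => W a = w),
      ((W a).natAbs : ℝ) ^ (1 / (m : ℝ) - 1 / ((m + 1 : ℕ) : ℝ)) =
      (((Aset S m N).filter (fun a => W a = w)).card : ℝ) *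
        (w.natAbs : ℝ) ^ (1 / (m : ℝ) - 1 / ((m + 1 : ℕ) : ℝ)) := by
    rw [← nsmul_eq_mul, ← Finset.sum_const]
    apply Finset.sum_congr rfl
    intro a ha
    rw [Finset.mem_filter] at ha
    rw [ha.2]
  rw [h2]
  have h3 : (((Aset S m N).filter (fun a => W a = w)).card : ℝ) ≤
      ((N : ℝ) / w.natAbs) ^ (1 / (m : ℝ)) := by
    have hr0 : 0 ≤ ((N : ℝ) / w.natAbs) ^ (1 / (m : ℝ)) := by positivity
    have h4 : ((Aset S m N).filter (fun a => W a = w)).card ≤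
        ⌊((N : ℝ) / w.natAbs) ^ (1 / (m : ℝ))⌋₊ := by
      calc ((Aset S m N).filter (fun a => W a = w)).card
          ≤ (Finset.Icc 1 ⌊((N : ℝ) / w.natAbs) ^ (1 / (m : ℝ))⌋₊).card := by
            apply Finset.card_le_card_of_injOn (f := X)
            · intro a ha
              rw [Finset.mem_coe, Finset.mem_filter] at ha
              have ha' := mem_Aset.mp ha.1
              rw [Finset.mem_coe, Finset.mem_Icc]
              refine ⟨h.pos a ha'.1 ha'.2.2, ?_⟩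
              apply Nat.le_floor
              have h5 : (w.natAbs * X a ^ m : ℕ) ≤ N := by
                rw [← ha.2, h.natAbs_eq ha'.1 ha'.2.2]
                exact ha'.2.1
              have h6 : (X a : ℝ) ^ m ≤ (N : ℝ) / w.natAbs := by
                rw [le_div_iff₀ hwpos, mul_comm]
                exact_mod_cast h5
              calc (X a : ℝ) = ((X a : ℝ) ^ m) ^ (1 / (m : ℝ)) := by
                    rw [one_div]
                    exact (Real.pow_rpow_inv_natCast (Nat.cast_nonneg _) (by omega)).symm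
                _ ≤ ((N : ℝ) / w.natAbs) ^ (1 / (m : ℝ)) :=
                    Real.rpow_le_rpow (by positivity) h6 (by positivity)
            · intro a ha b hb hab
              rw [Finset.mem_coe, Finset.mem_filter] at ha hb
              have ha' := mem_Aset.mp ha.1
              have hb' := mem_Aset.mp hb.1
              rw [← h.eq a ha'.1 ha'.2.2, ← h.eq b hb'.1 hb'.2.2, ha.2, hb.2, hab]
        _ = ⌊((N : ℝ) / w.natAbs) ^ (1 / (m : ℝ))⌋₊ := by
            rw [Nat.card_Icc, Nat.add_sub_cancel]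
    exact (Nat.cast_le.mpr h4).trans (Nat.floor_le hr0)
  calc (((Aset S m N).filter (fun a => W a = w)).card : ℝ) *
        (w.natAbs : ℝ) ^ (1 / (m : ℝ) - 1 / ((m + 1 : ℕ) : ℝ))
      ≤ ((N : ℝ) / w.natAbs) ^ (1 / (m : ℝ)) *
        (w.natAbs : ℝ) ^ (1 / (m : ℝ) - 1 / ((m + 1 : ℕ) : ℝ)) :=
        mul_le_mul_of_nonneg_right h3 (Real.rpow_nonneg hwpos.le _)
    _ = (N : ℝ) ^ (1 / (m : ℝ)) * (w.natAbs : ℝ) ^ (-(1 / ((m + 1 : ℕ) : ℝ))) := by
        rw [Real.div_rpow (Nat.cast_nonneg _) hwpos.le, div_mul_eq_mul_div, mul_div_assoc,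
          ← Real.rpow_sub hwpos]
        congr 2
        ring

end Pool.Agent.Helper87.Camp
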