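import Mathlib

/-!
# Campana points on `(ℙⁿ, ∑ (1 - 1/μᵢ) Hᵢ)` with `n + 2` hyperplanes: definitions

A rational point of `ℙⁿ` is represented by a primitive integer vector `x`, unique up to sign.
If `ℓ` is an integer linear form whose coefficients have greatest common divisor one, the closure
in `ℙⁿ` over `ℤ` of the hyperplane `ℓ = 0` has intersection number `ord_p ℓ(x)` at `p` with the
section given by `x`.
-/

set_option autoImplicit false

namespace Pool.Agent.Helper87.Camp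

/-- `1 / r`, with `1 / ∞ = 0`. -/
noncomputable def recip (r : ℕ∞) : ℝ := if r = ⊤ then 0 else 1 / (r.toNat : ℝ)

variable {n : ℕ}

/-- The value at `x` of the `i`-th linear form `ℓᵢ = ∑ⱼ L i j xⱼ`. -/
def form (L : Matrix (Fin (n + 2)) (Fin (n + 1)) ℤ) (i : Fin (n + 2)) (x : Fin (n + 1) → ℤ) : ℤ :=
  ∑ j, L i j * x j

/-- The determinant of the `n + 1` forms other than `ℓᵢ`. -/
def minor (L : Matrix (Fin (n + 2)) (Fin (n + 1)) ℤ) (i : Fin (n + 2)) : ℤ :=
  (L.submatrix i.succAbove id).det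

/-- The coefficients of the linear relation `∑ᵢ (rel i) ℓᵢ = 0`. -/
def rel (L : Matrix (Fin (n + 2)) (Fin (n + 1)) ℤ) (i : Fin (n + 2)) : ℤ :=
  (-1) ^ (i : ℕ) * minor L i

/-- The integer vector `x` is primitive, and the point it represents is a Campana point over
`ℤ[1/S]` for the hyperplanes `ℓᵢ = 0` with multiplicities `μ i`. -/
structure IsCampana (S : Finset ℕ) (L : Matrix (Fin (n + 2)) (Fin (n + 1)) ℤ)
    (μ : Fin (n + 2) → ℕ∞) (x : Fin (n + 1) → ℤ) : Prop where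
  primitive : ∀ d : ℤ, (∀ j, d ∣ x j) → IsUnit d
  ne_zero : ∀ i, form L i x ≠ 0
  full : ∀ i, ∀ p : ℕ, p.Prime → p ∉ S → (p : ℤ) ∣ form L i x →
    μ i ≤ emultiplicity (p : ℤ) (form L i x)

/-- `x` is outside the hyperplanes `(rel i) ℓᵢ + (rel j) ℓⱼ = 0` for `i ≠ j` in `I`. -/
def OffDegenerate (L : Matrix (Fin (n + 2)) (Fin (n + 1)) ℤ) (I : Finset (Fin (n + 2)))
    (x : Fin (n + 1) → ℤ) : Prop :=
  ∀ i ∈ I, ∀ j ∈ I, i ≠ j → rel L i * form L i x + rel L j * form L j x ≠ 0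

end Pool.Agent.Helper87.Camp
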