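import Pool.Agent.Helper10.DivBound

/-!
# `k`-full numbers away from a finite set of primes
-/

set_option autoImplicit false

namespace Pool.Agent.Helper87.Camp

open Finset Pool.Agent.Helper10

/-- Every prime `p ∉ S` dividing `n` divides it at least `k` times. -/
def NFull (S : Finset ℕ) (k n : ℕ) : Prop :=
  ∀ p : ℕ, p.Prime → p ∉ S → p ∣ n → p ^ k ∣ n

lemma NFull.mono {S : Finset ℕ} {k l n : ℕ} (h : NFull S k n) (hl : l ≤ k) : NFull S l n :=
  fun p hp hS hd => (pow_dvd_pow p hl).trans (h p hp hS hd)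

lemma nfull_one (S : Finset ℕ) (k : ℕ) : NFull S k 1 := by
  intro p hp _ hd
  exact absurd (Nat.dvd_one.mp hd) hp.one_lt.ne'

lemma NFull.left {S : Finset ℕ} {k a b : ℕ} (h : NFull S k (a * b)) (hab : Nat.Coprime a b) :
    NFull S k a := by
  intro p hp hS hd
  have h1 := h p hp hS (hd.mul_right b)
  have h2 : Nat.Coprime (p ^ k) b := (Nat.Coprime.coprime_dvd_left hd hab).pow_left k
  exact h2.dvd_of_dvd_mul_right h1

lemma NFull.right {S : Finset ℕ} {k a b : ℕ} (h : NFull S k (a * b)) (hab : Nat.Coprime a b) :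
    NFull S k b := by
  rw [mul_comm] at h
  exact h.left hab.symm

/-- Decomposition of an `m`-full number: `n = w x ^ m` with `w` being `(m + 1)`-full. -/
lemma decomp (S : Finset ℕ) {m : ℕ} (hm : 1 ≤ m) (n : ℕ) (hn : 0 < n) (h : NFull S m n) :
    ∃ w x : ℕ, 0 < w ∧ 0 < x ∧ n = w * x ^ m ∧ NFull S (m + 1) w := by
  induction n using Nat.strong_induction_on with
  | _ n ih =>
    by_cases h1 : NFull S (m + 1) n
    · exact ⟨n, 1, hn, one_pos, by simp, h1⟩
    · unfold NFull at h1
      push Not at h1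
      obtain ⟨p, hp, hS, hd, hnd⟩ := h1
      obtain ⟨n', hn'⟩ := h p hp hS hd
      have hp' : ¬ p ∣ n' := by
        intro hdv
        apply hnd
        rw [hn', pow_succ]
        exact Nat.mul_dvd_mul_left _ hdv
      have hcop : Nat.Coprime (p ^ m) n' := ((Nat.Prime.coprime_iff_not_dvd hp).mpr hp').pow_left m
      have hn'0 : 0 < n' := by
        rcases Nat.eq_zero_or_pos n' with h0 | h0
        · rw [h0] at hn'; omega
        · exact h0
      have hlt : n' < n := by
        rw [hn']
        have : 2 ≤ p ^ m := hp.two_le.trans (Nat.le_self_pow (by omega) p)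
        nlinarith
      have hfull : NFull S m n' := by
        rw [hn'] at h
        exact h.right hcop
      obtain ⟨w, x, hw, hx, hwx, hwf⟩ := ih n' hlt hn'0 hfull
      refine ⟨w, p * x, hw, Nat.mul_pos hp.pos hx, ?_, hwf⟩
      rw [hn', hwx, mul_pow]
      ring

/-- The product of the primes in `S`. -/
def rad (S : Finset ℕ) : ℕ := ∏ p ∈ S.filter Nat.Prime, p

lemma rad_pos (S : Finset ℕ) : 0 < rad S :=
  Finset.prod_pos fun p hp => (Finset.mem_filter.mp hp).2.pos

/-- An approximate `k`-th root of a `k`-full number. -/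
lemma root_exists (S : Finset ℕ) {k : ℕ} (hk : 1 ≤ k) (L : ℕ) (w : ℕ) (hw : 0 < w)
    (h : NFull S k w) (hL : w ≤ 2 ^ L) :
    ∃ z : ℕ, 0 < z ∧ z ^ k ∣ w ∧ w ∣ z ^ (2 * k) * rad S ^ L := by
  induction w using Nat.recOnPosPrimePosCoprime with
  | zero => omega
  | one => exact ⟨1, one_pos, by simp, one_dvd _⟩
  | prime_pow p n hp hn =>
    by_cases hS : p ∈ S
    · refine ⟨1, one_pos, by simp, ?_⟩
      have h1 : p ∣ rad S := Finset.dvd_prod_of_mem _ (Finset.mem_filter.mpr ⟨hS, hp⟩)
      have h2 : n ≤ L := by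
        have h3 : 2 ^ n ≤ 2 ^ L := (Nat.pow_le_pow_left hp.two_le n).trans hL
        exact (Nat.pow_le_pow_iff_right (by norm_num)).mp h3
      rw [one_pow, one_mul]
      exact (pow_dvd_pow p h2).trans (pow_dvd_pow_of_dvd h1 L)
    · have h1 : p ^ k ∣ p ^ n := h p hp hS (dvd_pow_self p hn.ne')
      have h2 : k ≤ n := (Nat.pow_dvd_pow_iff_le_right hp.one_lt).mp h1
      have h3 : 1 ≤ n / k := (Nat.one_le_div_iff (by omega)).mpr h2
      have h4 : n / k * k ≤ n := Nat.div_mul_le_self n k
      have h5 : n < n / k * k + k := by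
        have := Nat.lt_div_mul_add (a := n) (b := k) (by omega)
        omega
      refine ⟨p ^ (n / k), pow_pos hp.pos _, ?_, ?_⟩
      · rw [← pow_mul]
        exact pow_dvd_pow p h4
      · rw [← pow_mul]
        refine (pow_dvd_pow p ?_).mul_right _
        nlinarith
  | coprime a b ha hb hab iha ihb =>
    have ha0 : 0 < a := by omega
    have hb0 : 0 < b := by omega
    obtain ⟨z, hz, hz1, hz2⟩ := iha ha0 (h.left hab) (le_trans (by nlinarith) hL)
    obtain ⟨y, hy, hy1, hy2⟩ := ihb hb0 (h.right hab) (le_trans (by nlinarith) hL)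
    refine ⟨z * y, Nat.mul_pos hz hy, ?_, ?_⟩
    · rw [mul_pow]; exact mul_dvd_mul hz1 hy1
    · apply Nat.Coprime.mul_dvd_of_dvd_of_dvd hab
      · refine hz2.trans (mul_dvd_mul ?_ dvd_rfl)
        rw [mul_pow]; exact dvd_mul_right _ _
      · refine hy2.trans (mul_dvd_mul ?_ dvd_rfl)
        rw [mul_pow]; exact dvd_mul_left _ _

end Pool.Agent.Helper87.Camp
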