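import Pool.Agent.Helper87.Camp.Power

/-!
# Power saving for `(m, m, m)`
-/

set_option autoImplicit false

namespace Pool.Agent.Helper87.Camp

open Finset Pool.Agent.Helper10

lemma alpha_sub {m : ℕ} (hm : 3 ≤ m) :
    1 / (m : ℝ) - 1 / ((m + 1 : ℕ) : ℝ) = 1 / ((m : ℝ) * (m + 1)) := by
  have hmpos : (0 : ℝ) < m := by
    have : 0 < m := by omega
    exact_mod_cast this
  push_cast
  field_simp
  ring

/-- Region I: both larger parts are large. -/
lemma region_one {S : Finset ℕ} {m : ℕ} (hm : 3 ≤ m) {W : ℤ → ℤ} {X : ℤ → ℕ}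
    (h : IsDec S m W X) (N : ℕ) (Z : ℝ) (hZ : 0 < Z) (T : Finset (Fin 3 → ℤ))
    (hT : ∀ a ∈ T, (∀ i, a i ∈ Aset S m N) ∧ a 0 + a 1 + a 2 = 0 ∧
      Z ≤ ((W (a 1)).natAbs : ℝ) * ((W (a 2)).natAbs : ℝ)) :
    (T.card : ℝ) ≤ Z ^ (-(1 / (m : ℝ) - 1 / ((m + 1 : ℕ) : ℝ))) *
      ((N : ℝ) ^ (1 / (m : ℝ)) * sig S (m + 1) N) ^ 2 := by
  classical
  have hγ : 0 ≤ 1 / (m : ℝ) - 1 / ((m + 1 : ℕ) : ℝ) := by
    rw [alpha_sub hm]
    positivity
  set γ := 1 / (m : ℝ) - 1 / ((m + 1 : ℕ) : ℝ) with hγdef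
  set f : (Fin 3 → ℤ) → ℤ × ℤ := fun a => (a 1, a 2) with hf
  have hinj : Set.InjOn f (T : Set (Fin 3 → ℤ)) := by
    intro a ha b hb hab
    have e1 := (hT a (Finset.mem_coe.mp ha)).2.1
    have e2 := (hT b (Finset.mem_coe.mp hb)).2.1
    have e3 : a 1 = b 1 := congrArg Prod.fst hab
    have e4 : a 2 = b 2 := congrArg Prod.snd hab
    funext i
    fin_cases i
    · change a 0 = b 0
      linarith
    · exact e3
    · exact e4
  have hE := dec_sum (by omega) h N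
  rw [← hγdef] at hE
  have hE0 : 0 ≤ ∑ a ∈ Aset S m N, ((W a).natAbs : ℝ) ^ γ :=
    Finset.sum_nonneg fun _ _ => Real.rpow_nonneg (Nat.cast_nonneg _) _
  calc (T.card : ℝ) = ((T.image f).card : ℝ) := by rw [Finset.card_image_of_injOn hinj]
    _ = ∑ p ∈ T.image f, (1 : ℝ) := by rw [Finset.sum_const, nsmul_eq_mul, mul_one]
    _ ≤ ∑ p ∈ T.image f, Z ^ (-γ) * (((W p.1).natAbs : ℝ) ^ γ * ((W p.2).natAbs : ℝ) ^ γ) := by
        apply Finset.sum_le_sum
        intro p hp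
        rw [Finset.mem_image] at hp
        obtain ⟨a, ha, rfl⟩ := hp
        have h1 := (hT a ha).2.2
        calc (1 : ℝ) = Z ^ (-γ) * Z ^ γ := by
              rw [← Real.rpow_add hZ, neg_add_cancel, Real.rpow_zero]
          _ ≤ Z ^ (-γ) * (((W (a 1)).natAbs : ℝ) * ((W (a 2)).natAbs : ℝ)) ^ γ :=
              mul_le_mul_of_nonneg_left (Real.rpow_le_rpow hZ.le h1 hγ) (Real.rpow_nonneg hZ.le _)
          _ = Z ^ (-γ) * (((W (a 1)).natAbs : ℝ) ^ γ * ((W (a 2)).natAbs : ℝ) ^ γ) := by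
              rw [Real.mul_rpow (Nat.cast_nonneg _) (Nat.cast_nonneg _)]
    _ ≤ ∑ p ∈ Aset S m N ×ˢ Aset S m N,
        Z ^ (-γ) * (((W p.1).natAbs : ℝ) ^ γ * ((W p.2).natAbs : ℝ) ^ γ) := by
        apply Finset.sum_le_sum_of_subset_of_nonneg
        · intro p hp
          rw [Finset.mem_image] at hp
          obtain ⟨a, ha, rfl⟩ := hp
          rw [Finset.mem_product]
          exact ⟨(hT a ha).1 1, (hT a ha).1 2⟩
        · intro p _ _
          positivity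
    _ = Z ^ (-γ) * (∑ a ∈ Aset S m N, ((W a).natAbs : ℝ) ^ γ) ^ 2 := by
        rw [← Finset.mul_sum, sq, Finset.sum_mul_sum, ← Finset.sum_product']
    _ ≤ Z ^ (-γ) * ((N : ℝ) ^ (1 / (m : ℝ)) * sig S (m + 1) N) ^ 2 := by
        apply mul_le_mul_of_nonneg_left _ (Real.rpow_nonneg hZ.le _)
        exact pow_le_pow_left₀ hE0 hE 2

/-- The number of ordered triples of `(m + 1)`-full integers with bounded product. -/
lemma card_triples (S : Finset ℕ) (m N : ℕ) (Z : ℝ) (hZ : 0 < Z) (U : Finset (ℤ × ℤ × ℤ))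
    (hU : ∀ u ∈ U, u.1 ∈ Aset S (m + 1) N ∧ u.2.1 ∈ Aset S (m + 1) N ∧
      u.2.2 ∈ Aset S (m + 1) N ∧ u.1.natAbs ≤ u.2.1.natAbs ∧ u.2.1.natAbs ≤ u.2.2.natAbs ∧
      (u.2.1.natAbs : ℝ) * (u.2.2.natAbs : ℝ) ≤ Z) :
    (U.card : ℝ) ≤ Z ^ (3 / 2 * (1 / ((m + 1 : ℕ) : ℝ))) * sig S (m + 1) N ^ 3 := by
  classical
  set α : ℝ := 1 / ((m + 1 : ℕ) : ℝ) with hα
  have hα0 : 0 < α := by positivity
  set A := Aset S (m + 1) N with hA
  have hsig : sig S (m + 1) N = ∑ w ∈ A, (w.natAbs : ℝ) ^ (-α) := rfl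
  calc (U.card : ℝ) = ∑ p ∈ U, (1 : ℝ) := by rw [Finset.sum_const, nsmul_eq_mul, mul_one]
    _ ≤ ∑ u ∈ U, Z ^ (3 / 2 * α) * ((u.1.natAbs : ℝ) ^ (-α) *
        ((u.2.1.natAbs : ℝ) ^ (-α) * (u.2.2.natAbs : ℝ) ^ (-α))) := by
        apply Finset.sum_le_sum
        intro u hu
        obtain ⟨h1, h2, h3, h4, h5, h6⟩ := hU u hu
        have k1 := natAbs_pos_of_mem h1
        have k2 := natAbs_pos_of_mem h2
        have k3 := natAbs_pos_of_mem h3
        have h4' : (u.1.natAbs : ℝ) ≤ u.2.1.natAbs := by exact_mod_cast h4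
        have h5' : (u.2.1.natAbs : ℝ) ≤ u.2.2.natAbs := by exact_mod_cast h5
        set x : ℝ := (u.1.natAbs : ℝ)
        set y : ℝ := (u.2.1.natAbs : ℝ)
        set z : ℝ := (u.2.2.natAbs : ℝ)
        have hx0 : 0 < x := by linarith
        have hy0 : 0 < y := by linarith
        have hz0 : 0 < z := by linarith
        rw [Real.rpow_def_of_pos hZ, Real.rpow_def_of_pos hx0, Real.rpow_def_of_pos hy0,
          Real.rpow_def_of_pos hz0, ← Real.exp_add, ← Real.exp_add, ← Real.exp_add]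
        apply Real.one_le_exp
        have l1 : Real.log x ≤ Real.log y := Real.log_le_log hx0 h4'
        have l2 : Real.log y ≤ Real.log z := Real.log_le_log hy0 h5'
        have l3 : Real.log y + Real.log z ≤ Real.log Z := by
          rw [← Real.log_mul hy0.ne' hz0.ne']
          exact Real.log_le_log (by positivity) h6
        have l4 : Real.log x + Real.log y + Real.log z ≤ 3 / 2 * Real.log Z := by linarith
        have l5 := mul_le_mul_of_nonneg_left l4 hα0.le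
        nlinarith
    _ ≤ ∑ u ∈ A ×ˢ A ×ˢ A, Z ^ (3 / 2 * α) * ((u.1.natAbs : ℝ) ^ (-α) *
        ((u.2.1.natAbs : ℝ) ^ (-α) * (u.2.2.natAbs : ℝ) ^ (-α))) := by
        apply Finset.sum_le_sum_of_subset_of_nonneg
        · intro u hu
          obtain ⟨h1, h2, h3, h4, h5, h6⟩ := hU u hu
          rw [Finset.mem_product, Finset.mem_product]
          exact ⟨h1, h2, h3⟩
        · intro u _ _
          positivity
    _ = Z ^ (3 / 2 * α) * sig S (m + 1) N ^ 3 := by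
        rw [← Finset.mul_sum, hsig, Finset.sum_product]
        congr 1
        have e1 : ∀ x ∈ A, ∑ y ∈ A ×ˢ A, (x.natAbs : ℝ) ^ (-α) *
            ((y.1.natAbs : ℝ) ^ (-α) * (y.2.natAbs : ℝ) ^ (-α)) =
            (x.natAbs : ℝ) ^ (-α) * (∑ w ∈ A, (w.natAbs : ℝ) ^ (-α)) ^ 2 := by
          intro x _
          rw [← Finset.mul_sum, sq, Finset.sum_mul_sum, ← Finset.sum_product']
        rw [Finset.sum_congr rfl e1, ← Finset.sum_mul]
        ring

/-- Region II: large modulus. -/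
lemma region_two {S : Finset ℕ} {m : ℕ} (hm : 3 ≤ m) {W : ℤ → ℤ} {X : ℤ → ℕ}
    (h : IsDec S m W X) (N : ℕ) (Z : ℝ) (hZ : 0 < Z) (K : ℝ) (hK : 0 ≤ K)
    (hKt : ∀ c : ℕ, c ≠ 0 → c ≤ 2 * N → ((tau c ^ m * (Nat.log 2 N + 1) : ℕ) : ℝ) ≤ K)
    (T : Finset (Fin 3 → ℤ))
    (hT : ∀ a ∈ T, (∀ i, a i ∈ Aset S m N) ∧ a 0 + a 1 + a 2 = 0 ∧ IsCoprime (a 0) (a 1) ∧
      (W (a 0)).natAbs ≤ (W (a 1)).natAbs ∧ (W (a 1)).natAbs ≤ (W (a 2)).natAbs ∧
      ((W (a 1)).natAbs : ℝ) * ((W (a 2)).natAbs : ℝ) ≤ Z ∧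
      N ^ 2 < (W (a 2)).natAbs ^ m * ((W (a 0)).natAbs * (W (a 1)).natAbs)) :
    (T.card : ℝ) ≤ K * (Z ^ (3 / 2 * (1 / ((m + 1 : ℕ) : ℝ))) * sig S (m + 1) N ^ 3) := by
  classical
  set f : (Fin 3 → ℤ) → ℤ × ℤ × ℤ := fun a => (W (a 0), W (a 1), W (a 2)) with hf
  have h1 : (T.card : ℝ) ≤ K * (T.image f).card := by
    apply card_le_real f (fun a ha => Finset.mem_image_of_mem _ ha)
    rintro ⟨w1, w2, w3⟩ hw
    rw [Finset.mem_image] at hw
    obtain ⟨a0, ha0, hfa0⟩ := hw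
    obtain ⟨k1, k2, k3, k4, k5, k6, k7⟩ := hT a0 ha0
    have e1 : W (a0 0) = w1 := congrArg Prod.fst hfa0
    have e2 : W (a0 1) = w2 := congrArg (fun x => x.2.1) hfa0
    have e3 : W (a0 2) = w3 := congrArg (fun x => x.2.2) hfa0
    have g0 := mem_Aset.mp (k1 0)
    have g1 := mem_Aset.mp (k1 1)
    have g2 := mem_Aset.mp (k1 2)
    have hw1 : w1 ≠ 0 := by rw [← e1]; exact h.ne _ g0.1 g0.2.2
    have hw2 : w2 ≠ 0 := by rw [← e2]; exact h.ne _ g1.1 g1.2.2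
    have hw3 : w3 ≠ 0 := by rw [← e3]; exact h.ne _ g2.1 g2.2.2
    have hw3N : w3.natAbs ≤ N := by
      rw [← e3]
      exact (mem_Aset.mp (h.mem (k1 2))).2.1
    rw [e1, e2, e3] at k7
    have h2 := hKt w3.natAbs (by omega) (by omega)
    have hinj : Set.InjOn (fun a : Fin 3 → ℤ => (X (a 0), X (a 1)))
        (T.filter (fun a => f a = (w1, w2, w3)) : Set (Fin 3 → ℤ)) := by
      intro a ha b hb hab
      rw [Finset.mem_coe, Finset.mem_filter] at ha hb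
      obtain ⟨a1, a2, -⟩ := hT a ha.1
      obtain ⟨b1, b2, -⟩ := hT b hb.1
      have ga0 := mem_Aset.mp (a1 0)
      have ga1 := mem_Aset.mp (a1 1)
      have gb0 := mem_Aset.mp (b1 0)
      have gb1 := mem_Aset.mp (b1 1)
      have i1 : X (a 0) = X (b 0) := congrArg Prod.fst hab
      have i2 : X (a 1) = X (b 1) := congrArg Prod.snd hab
      have j1 : W (a 0) = W (b 0) := by
        have u1 : W (a 0) = w1 := congrArg Prod.fst ha.2
        have u2 : W (b 0) = w1 := congrArg Prod.fst hb.2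
        rw [u1, u2]
      have j2 : W (a 1) = W (b 1) := by
        have u1 : W (a 1) = w2 := congrArg (fun x => x.2.1) ha.2
        have u2 : W (b 1) = w2 := congrArg (fun x => x.2.1) hb.2
        rw [u1, u2]
      have t0 : a 0 = b 0 := by
        rw [← h.eq _ ga0.1 ga0.2.2, ← h.eq _ gb0.1 gb0.2.2, i1, j1]
      have t1 : a 1 = b 1 := by
        rw [← h.eq _ ga1.1 ga1.2.2, ← h.eq _ gb1.1 gb1.2.2, i2, j2]
      funext i
      fin_cases i
      · exact t0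
      · exact t1
      · change a 2 = b 2
        linarith
    have h3 : (T.filter (fun a => f a = (w1, w2, w3))).card ≤ tau w3.natAbs ^ m := by
      rw [← Finset.card_image_of_injOn hinj]
      apply large_modulus m (by omega) w1 w2 w3 hw1 hw2 hw3 N k7
      intro x hx
      rw [Finset.mem_image] at hx
      obtain ⟨a, ha, rfl⟩ := hx
      rw [Finset.mem_filter] at ha
      obtain ⟨a1, a2, a3, -⟩ := hT a ha.1
      have ga0 := mem_Aset.mp (a1 0)
      have ga1 := mem_Aset.mp (a1 1)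
      have ga2 := mem_Aset.mp (a1 2)
      have u1 : W (a 0) = w1 := congrArg Prod.fst ha.2
      have u2 : W (a 1) = w2 := congrArg (fun x => x.2.1) ha.2
      have u3 : W (a 2) = w3 := congrArg (fun x => x.2.2) ha.2
      have q0 := h.eq _ ga0.1 ga0.2.2
      have q1 := h.eq _ ga1.1 ga1.2.2
      have q2 := h.eq _ ga2.1 ga2.2.2
      have r0 := h.natAbs_eq ga0.1 ga0.2.2
      have r1 := h.natAbs_eq ga1.1 ga1.2.2
      rw [u1] at q0 r0
      rw [u2] at q1 r1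
      rw [u3] at q2
      refine ⟨h.pos _ ga0.1 ga0.2.2, h.pos _ ga1.1 ga1.2.2, ?_, ?_, ?_, ?_⟩
      · change w3 ∣ w1 * (X (a 0) : ℤ) ^ m + w2 * (X (a 1) : ℤ) ^ m
        rw [q0, q1]
        have : a 0 + a 1 = -(a 2) := by linarith
        rw [this, ← q2]
        exact (dvd_mul_right _ _).neg_right
      · change IsCoprime (w1 * (X (a 0) : ℤ) ^ m) (w2 * (X (a 1) : ℤ) ^ m)
        rw [q0, q1]
        exact a3
      · change w1.natAbs * (X (a 0)) ^ m ≤ N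
        rw [r0]; exact ga0.2.1
      · change w2.natAbs * (X (a 1)) ^ m ≤ N
        rw [r1]; exact ga1.2.1
    have h4 : tau w3.natAbs ^ m ≤ tau w3.natAbs ^ m * (Nat.log 2 N + 1) :=
      Nat.le_mul_of_pos_right _ (Nat.succ_pos _)
    calc ((T.filter (fun a => f a = (w1, w2, w3))).card : ℝ)
        ≤ ((tau w3.natAbs ^ m * (Nat.log 2 N + 1) : ℕ) : ℝ) := by exact_mod_cast h3.trans h4
      _ ≤ K := h2
  have h2 : ((T.image f).card : ℝ) ≤
      Z ^ (3 / 2 * (1 / ((m + 1 : ℕ) : ℝ))) * sig S (m + 1) N ^ 3 := by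
    apply card_triples S m N Z hZ
    intro u hu
    rw [Finset.mem_image] at hu
    obtain ⟨a, ha, rfl⟩ := hu
    obtain ⟨k1, k2, k3, k4, k5, k6, k7⟩ := hT a ha
    exact ⟨h.mem (k1 0), h.mem (k1 1), h.mem (k1 2), k4, k5, k6⟩
  calc (T.card : ℝ) ≤ K * (T.image f).card := h1
    _ ≤ K * (Z ^ (3 / 2 * (1 / ((m + 1 : ℕ) : ℝ))) * sig S (m + 1) N ^ 3) :=
        mul_le_mul_of_nonneg_left h2 hK

end Pool.Agent.Helper87.Camp
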