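import Pool.Agent.Helper87.Camp.Thue3
import Pool.Agent.Helper87.Camp.Triple

/-!
# Sums of several full integers equal to zero
-/

set_option autoImplicit false

namespace Pool.Agent.Helper87.Camp

open Finset Pool.Agent.Helper10

/-- The solutions attached to given `(m + 1)`-full parts. -/
lemma card_fixed_gen {S : Finset ℕ} {m : ℕ} (hm : 3 ≤ m) {W : ℤ → ℤ} {X : ℤ → ℕ}
    (h : IsDec S m W X) (N : ℕ) (w1 w2 c : ℤ) (hc : c ≠ 0) (T : Finset (ℤ × ℤ))
    (hT : ∀ p ∈ T, p.1 ∈ Aset S m N ∧ p.2 ∈ Aset S m N ∧ p.1 + p.2 = c ∧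
      W p.1 = w1 ∧ W p.2 = w2) :
    T.card ≤ tau c.natAbs ^ (m + 1) * (Nat.log 2 N + 1) := by
  classical
  rcases T.eq_empty_or_nonempty with he | ⟨p0, hp0⟩
  · rw [he, Finset.card_empty]; exact Nat.zero_le _
  have hinj : Set.InjOn (fun p : ℤ × ℤ => (X p.1, X p.2)) (T : Set (ℤ × ℤ)) := by
    intro p hp q hq hpq
    obtain ⟨h1, h2, h3, h5, h6⟩ := hT p (Finset.mem_coe.mp hp)
    obtain ⟨k1, k2, k3, k5, k6⟩ := hT q (Finset.mem_coe.mp hq)
    rw [mem_Aset] at h1 h2 k1 k2
    have e1 : X p.1 = X q.1 := congrArg Prod.fst hpq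
    have e2 : X p.2 = X q.2 := congrArg Prod.snd hpq
    apply Prod.ext
    · rw [← h.eq p.1 h1.1 h1.2.2, ← h.eq q.1 k1.1 k1.2.2, h5, k5, e1]
    · rw [← h.eq p.2 h2.1 h2.2.2, ← h.eq q.2 k2.1 k2.2.2, h6, k6, e2]
  rw [← Finset.card_image_of_injOn hinj]
  obtain ⟨h1, h2, h3, h5, h6⟩ := hT p0 hp0
  rw [mem_Aset] at h1 h2
  have hw1 : w1 ≠ 0 := by rw [← h5]; exact h.ne _ h1.1 h1.2.2
  have hw2 : w2 ≠ 0 := by rw [← h6]; exact h.ne _ h2.1 h2.2.2
  apply thue_gen m hm w1 w2 c hw1 hw2 hc N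
  intro x hx
  rw [Finset.mem_image] at hx
  obtain ⟨p, hp, rfl⟩ := hx
  obtain ⟨k1, k2, k3, k5, k6⟩ := hT p hp
  rw [mem_Aset] at k1 k2
  have e1 := h.eq p.1 k1.1 k1.2.2
  have e2 := h.eq p.2 k2.1 k2.2.2
  have e3 := h.natAbs_eq k1.1 k1.2.2
  have e4 := h.natAbs_eq k2.1 k2.2.2
  rw [k5] at e1 e3
  rw [k6] at e2 e4
  refine ⟨h.pos _ k1.1 k1.2.2, h.pos _ k2.1 k2.2.2, ?_, ?_, ?_⟩
  · change w1 * (X p.1 : ℤ) ^ m + w2 * (X p.2 : ℤ) ^ m = c
    rw [e1, e2, k3]
  · change w1.natAbs * (X p.1) ^ m ≤ N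
    rw [e3]; exact k1.2.1
  · change w2.natAbs * (X p.2) ^ m ≤ N
    rw [e4]; exact k2.2.1

open Classical in
/-- The nonzero `r`-full integers of absolute value at most `N`, `r = ∞` allowed. -/
noncomputable def Eset (S : Finset ℕ) (r : ℕ∞) (N : ℕ) : Finset ℤ :=
  (Finset.Icc (-(N : ℤ)) N).filter (fun a => a ≠ 0 ∧ EFull S r a.natAbs)

lemma mem_Eset {S : Finset ℕ} {r : ℕ∞} {N : ℕ} {a : ℤ} :
    a ∈ Eset S r N ↔ a ≠ 0 ∧ a.natAbs ≤ N ∧ EFull S r a.natAbs := by
  classical
  unfold Eset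
  rw [Finset.mem_filter, Finset.mem_Icc]
  constructor
  · rintro ⟨⟨h1, h2⟩, h3, h4⟩
    exact ⟨h3, by omega, h4⟩
  · rintro ⟨h1, h2, h3⟩
    exact ⟨⟨by omega, by omega⟩, h1, h3⟩

section

variable {ι : Type*} [Fintype ι] [DecidableEq ι]

lemma card_le_weights {T : Finset (ι → ℤ)} (t : ι → Finset ℤ) (wt : ι → ℤ → ℝ)
    (hw : ∀ i x, 0 ≤ wt i x) (D : ℝ) (hD : 0 ≤ D)
    (hT : ∀ b ∈ T, (∀ i, b i ∈ t i) ∧ 1 ≤ D * ∏ i, wt i (b i)) :
    (T.card : ℝ) ≤ D * ∏ i, ∑ x ∈ t i, wt i x := by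
  rw [Finset.prod_univ_sum, Finset.mul_sum]
  calc (T.card : ℝ) = ∑ b ∈ T, (1 : ℝ) := by rw [Finset.sum_const, nsmul_eq_mul, mul_one]
    _ ≤ ∑ b ∈ T, D * ∏ i, wt i (b i) := Finset.sum_le_sum fun b hb => (hT b hb).2
    _ ≤ ∑ b ∈ Fintype.piFinset t, D * ∏ i, wt i (b i) := by
        apply Finset.sum_le_sum_of_subset_of_nonneg
        · intro b hb
          rw [Fintype.mem_piFinset]
          exact (hT b hb).1
        · intro b _ _
          exact mul_nonneg hD (Finset.prod_nonneg fun i _ => hw i _)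

lemma prod_split_one (I : Finset ι) (p : ι) (hp : p ∈ I) (F : ι → ℝ) :
    ∏ i, F i = F p * (∏ i ∈ I.erase p, F i) * ∏ i ∈ Iᶜ, F i := by
  rw [← Finset.prod_mul_prod_compl I F, ← Finset.mul_prod_erase I F hp]

lemma prod_split_two (I : Finset ι) (p q : ι) (hp : p ∈ I) (hq : q ∈ I) (hpq : q ≠ p)
    (F : ι → ℝ) :
    ∏ i, F i = F p * (F q * ∏ i ∈ (I.erase p).erase q, F i) * ∏ i ∈ Iᶜ, F i := by
  rw [prod_split_one I p hp F,
    ← Finset.mul_prod_erase (I.erase p) F (Finset.mem_erase.mpr ⟨hpq, hq⟩)]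

/-- First case: the second smallest part is large. -/
lemma case_one {S : Finset ℕ} {m : ℕ} (hm : 3 ≤ m) {W : ℤ → ℤ} {X : ℤ → ℕ}
    (h : IsDec S m W X) (N : ℕ) (Y : ℝ) (hY : 0 < Y) (I : Finset ι) (μ : ι → ℕ∞)
    (p : ι) (hp : p ∈ I) (T : Finset (ι → ℤ))
    (hT : ∀ a ∈ T, (∀ i ∈ I, a i ∈ Aset S m N) ∧ (∀ i ∉ I, a i ∈ Eset S (μ i) N) ∧
      ∑ i, a i = 0 ∧ ∀ j ∈ I, j ≠ p → Y ≤ ((W (a j)).natAbs : ℝ)) :
    (T.card : ℝ) ≤ (Y ^ (-(1 / (m : ℝ) - 1 / ((m + 1 : ℕ) : ℝ))) *
      ((N : ℝ) ^ (1 / (m : ℝ)) * sig S (m + 1) N)) ^ (I.card - 1) *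
      ∏ i ∈ Iᶜ, ((Eset S (μ i) N).card : ℝ) := by
  classical
  have hγ : 0 ≤ 1 / (m : ℝ) - 1 / ((m + 1 : ℕ) : ℝ) := by
    rw [alpha_sub hm]
    positivity
  set γ := 1 / (m : ℝ) - 1 / ((m + 1 : ℕ) : ℝ) with hγdef
  set f : (ι → ℤ) → (ι → ℤ) := fun a => Function.update a p 0 with hf
  have hinj : Set.InjOn f (T : Set (ι → ℤ)) := by
    intro a ha b hb hab
    have e1 := (hT a (Finset.mem_coe.mp ha)).2.2.1
    have e2 := (hT b (Finset.mem_coe.mp hb)).2.2.1
    have e3 : ∀ i, i ≠ p → a i = b i := by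
      intro i hi
      have := congrFun hab i
      rw [hf] at this
      simp only [Function.update_of_ne hi] at this
      exact this
    have e4 : a p = b p := by
      rw [← Finset.add_sum_erase Finset.univ _ (Finset.mem_univ p)] at e1 e2
      have e5 : ∑ i ∈ Finset.univ.erase p, a i = ∑ i ∈ Finset.univ.erase p, b i := by
        apply Finset.sum_congr rfl
        intro i hi
        exact e3 i (Finset.ne_of_mem_erase hi)
      rw [e5] at e1
      linarith
    funext i
    by_cases hi : i = p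
    · rw [hi]; exact e4
    · exact e3 i hi
  set t : ι → Finset ℤ := fun i => if i = p then {0} else if i ∈ I then Aset S m N
    else Eset S (μ i) N with ht
  set wt : ι → ℤ → ℝ := fun i x => if i = p then 1 else if i ∈ I then
    Y ^ (-γ) * ((W x).natAbs : ℝ) ^ γ else 1 with hwt
  have hw0 : ∀ i x, 0 ≤ wt i x := by
    intro i x
    rw [hwt]
    dsimp only
    split_ifs
    · exact zero_le_one
    · positivity
    · exact zero_le_one
  have hmain : ((T.image f).card : ℝ) ≤ 1 * ∏ i, ∑ x ∈ t i, wt i x := by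
    apply card_le_weights t wt hw0 1 zero_le_one
    intro b hb
    rw [Finset.mem_image] at hb
    obtain ⟨a, ha, rfl⟩ := hb
    obtain ⟨a1, a2, a3, a4⟩ := hT a ha
    constructor
    · intro i
      rw [ht, hf]
      dsimp only
      by_cases hi : i = p
      · rw [if_pos hi, hi, Function.update_self, Finset.mem_singleton]
      · rw [if_neg hi, Function.update_of_ne hi]
        by_cases hiI : i ∈ I
        · rw [if_pos hiI]; exact a1 i hiI
        · rw [if_neg hiI]; exact a2 i hiI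
    · rw [one_mul]
      rw [← Finset.prod_const_one (s := (Finset.univ : Finset ι))]
      apply Finset.prod_le_prod
      · intro i _; exact zero_le_one
      · intro i _
        rw [hwt, hf]
        dsimp only
        by_cases hi : i = p
        · rw [if_pos hi]
        · rw [if_neg hi, Function.update_of_ne hi]
          by_cases hiI : i ∈ I
          · rw [if_pos hiI]
            have h1 : Y ^ γ ≤ ((W (a i)).natAbs : ℝ) ^ γ :=
              Real.rpow_le_rpow hY.le (a4 i hiI hi) hγ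
            calc (1 : ℝ) = Y ^ (-γ) * Y ^ γ := by
                  rw [← Real.rpow_add hY, neg_add_cancel, Real.rpow_zero]
              _ ≤ Y ^ (-γ) * ((W (a i)).natAbs : ℝ) ^ γ :=
                  mul_le_mul_of_nonneg_left h1 (Real.rpow_nonneg hY.le _)
          · rw [if_neg hiI]
  rw [one_mul, prod_split_one I p hp] at hmain
  have f1 : ∑ x ∈ t p, wt p x = 1 := by
    rw [ht, hwt]
    simp
  have f2 : ∏ i ∈ I.erase p, ∑ x ∈ t i, wt i x ≤
      (Y ^ (-γ) * ((N : ℝ) ^ (1 / (m : ℝ)) * sig S (m + 1) N)) ^ (I.card - 1) := by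
    rw [← Finset.card_erase_of_mem hp]
    rw [← Finset.prod_const]
    apply Finset.prod_le_prod
    · intro i _
      exact Finset.sum_nonneg fun x _ => hw0 i x
    · intro i hi
      have hi1 := Finset.ne_of_mem_erase hi
      have hi2 := Finset.mem_of_mem_erase hi
      rw [ht, hwt]
      dsimp only
      simp only [if_neg hi1, if_pos hi2]
      rw [← Finset.mul_sum]
      exact mul_le_mul_of_nonneg_left (dec_sum (by omega) h N) (Real.rpow_nonneg hY.le _)
  have f3 : ∏ i ∈ Iᶜ, ∑ x ∈ t i, wt i x = ∏ i ∈ Iᶜ, ((Eset S (μ i) N).card : ℝ) := by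
    apply Finset.prod_congr rfl
    intro i hi
    rw [Finset.mem_compl] at hi
    have hip : i ≠ p := fun h0 => hi (h0 ▸ hp)
    rw [ht, hwt]
    dsimp only
    simp only [if_neg hip, if_neg hi]
    rw [Finset.sum_const, nsmul_eq_mul, mul_one]
  rw [f1, one_mul, f3] at hmain
  rw [← Finset.card_image_of_injOn hinj]
  refine hmain.trans (mul_le_mul_of_nonneg_right f2 ?_)
  exact Finset.prod_nonneg fun _ _ => Nat.cast_nonneg _

/-- Second case: the two smallest parts are small. -/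
lemma case_two {S : Finset ℕ} {m : ℕ} (hm : 3 ≤ m) {W : ℤ → ℤ} {X : ℤ → ℕ}
    (h : IsDec S m W X) (N : ℕ) (Y : ℝ) (hY : 0 < Y) (K : ℝ) (hK : 0 ≤ K)
    (I : Finset ι) (hI : I.card ≤ 2 * m + 2) (μ : ι → ℕ∞)
    (hKt : ∀ c : ℕ, c ≠ 0 → c ≤ 2 * N →
      ((tau c ^ (m + 1) * (Nat.log 2 N + 1) : ℕ) : ℝ) ≤ K)
    (p q : ι) (hp : p ∈ I) (hq : q ∈ I) (hpq : q ≠ p) (T : Finset (ι → ℤ))
    (hT : ∀ a ∈ T, (∀ i ∈ I, a i ∈ Aset S m N) ∧ (∀ i ∉ I, a i ∈ Eset S (μ i) N) ∧
      ∑ i, a i = 0 ∧ a p + a q ≠ 0 ∧ (W (a p)).natAbs ≤ (W (a q)).natAbs ∧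
      (∀ j ∈ I, j ≠ p → (W (a q)).natAbs ≤ (W (a j)).natAbs) ∧
      ((W (a q)).natAbs : ℝ) ≤ Y) :
    (T.card : ℝ) ≤ K * (Y ^ (2 * (1 / ((m + 1 : ℕ) : ℝ)) -
        ((I.card - 2 : ℕ) : ℝ) * (1 / (m : ℝ) - 1 / ((m + 1 : ℕ) : ℝ))) *
      (sig S (m + 1) N * (sig S (m + 1) N *
        ((N : ℝ) ^ (1 / (m : ℝ)) * sig S (m + 1) N) ^ (I.card - 2)) *
        ∏ i ∈ Iᶜ, ((Eset S (μ i) N).card : ℝ))) := by
  classical
  have hmpos : (0 : ℝ) < m := by
    have : 0 < m := by omega
    exact_mod_cast this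
  have hγ' := alpha_sub hm
  have hγ : 0 ≤ 1 / (m : ℝ) - 1 / ((m + 1 : ℕ) : ℝ) := by
    rw [hγ']
    positivity
  set γ := 1 / (m : ℝ) - 1 / ((m + 1 : ℕ) : ℝ) with hγdef
  set α : ℝ := 1 / ((m + 1 : ℕ) : ℝ) with hα
  have hα0 : 0 < α := by positivity
  set δ : ℝ := 2 * α - ((I.card - 2 : ℕ) : ℝ) * γ with hδ
  have hδ0 : 0 ≤ δ := by
    have h1 : ((I.card - 2 : ℕ) : ℝ) ≤ 2 * m := by
      have : I.card - 2 ≤ 2 * m := by omega
      exact_mod_cast this
    have h2 : ((I.card - 2 : ℕ) : ℝ) * γ ≤ 2 * m * γ := mul_le_mul_of_nonneg_right h1 hγ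
    have h3 : 2 * m * γ = 2 * α := by
      rw [hγ', hα]
      push_cast
      field_simp
    rw [hδ]
    linarith
  set f : (ι → ℤ) → (ι → ℤ) := fun a =>
    Function.update (Function.update a p (W (a p))) q (W (a q)) with hf
  have hfp : ∀ a, f a p = W (a p) := by
    intro a
    rw [hf]
    dsimp only
    rw [Function.update_of_ne hpq.symm, Function.update_self]
  have hfq : ∀ a, f a q = W (a q) := by
    intro a
    rw [hf]
    dsimp only
    rw [Function.update_self]
  have hfi : ∀ a i, i ≠ p → i ≠ q → f a i = a i := by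
    intro a i hi1 hi2
    rw [hf]
    dsimp only
    rw [Function.update_of_ne hi2, Function.update_of_ne hi1]
  have hfiber : (T.card : ℝ) ≤ K * (T.image f).card := by
    apply card_le_real f (fun a ha => Finset.mem_image_of_mem _ ha)
    intro u hu
    rw [Finset.mem_image] at hu
    obtain ⟨a0, ha0, rfl⟩ := hu
    obtain ⟨b1, b2, b3, b4, -⟩ := hT a0 ha0
    have hsum : ∀ a ∈ T.filter (fun a => f a = f a0), a p + a q = a0 p + a0 q := by
      intro a ha
      rw [Finset.mem_filter] at ha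
      obtain ⟨a1, a2, a3, -⟩ := hT a ha.1
      have e : ∑ i ∈ (Finset.univ.erase p).erase q, a i =
          ∑ i ∈ (Finset.univ.erase p).erase q, a0 i := by
        apply Finset.sum_congr rfl
        intro i hi
        have hi1 := Finset.ne_of_mem_erase hi
        have hi2 := Finset.ne_of_mem_erase (Finset.mem_of_mem_erase hi)
        have := congrFun ha.2 i
        rw [hfi _ _ hi2 hi1, hfi _ _ hi2 hi1] at this
        exact this
      have hqe : q ∈ Finset.univ.erase p := Finset.mem_erase.mpr ⟨hpq, Finset.mem_univ _⟩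
      rw [← Finset.add_sum_erase Finset.univ _ (Finset.mem_univ p),
        ← Finset.add_sum_erase _ _ hqe] at a3 b3
      rw [e] at a3
      linarith
    have hinj : Set.InjOn (fun a : ι → ℤ => (a p, a q))
        (T.filter (fun a => f a = f a0) : Set (ι → ℤ)) := by
      intro a ha b hb hab
      rw [Finset.mem_coe, Finset.mem_filter] at ha hb
      have i1 : a p = b p := congrArg Prod.fst hab
      have i2 : a q = b q := congrArg Prod.snd hab
      funext i
      by_cases hi1 : i = p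
      · rw [hi1]; exact i1
      · by_cases hi2 : i = q
        · rw [hi2]; exact i2
        · have := congrFun (ha.2.trans hb.2.symm) i
          rw [hfi _ _ hi1 hi2, hfi _ _ hi1 hi2] at this
          exact this
    have hcN : (a0 p + a0 q).natAbs ≤ 2 * N := by
      have g1 := (mem_Aset.mp (b1 p hp)).2.1
      have g2 := (mem_Aset.mp (b1 q hq)).2.1
      omega
    have h3 : (T.filter (fun a => f a = f a0)).card ≤
        tau (a0 p + a0 q).natAbs ^ (m + 1) * (Nat.log 2 N + 1) := by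
      rw [← Finset.card_image_of_injOn hinj]
      apply card_fixed_gen hm h N (W (a0 p)) (W (a0 q)) (a0 p + a0 q) b4
      intro x hx
      rw [Finset.mem_image] at hx
      obtain ⟨a, ha, rfl⟩ := hx
      have hs := hsum a ha
      rw [Finset.mem_filter] at ha
      obtain ⟨a1, a2, a3, -⟩ := hT a ha.1
      refine ⟨a1 p hp, a1 q hq, hs, ?_, ?_⟩
      · have := congrFun ha.2 p
        rw [hfp, hfp] at this
        exact this
      · have := congrFun ha.2 q
        rw [hfq, hfq] at this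
        exact this
    calc ((T.filter (fun a => f a = f a0)).card : ℝ)
        ≤ ((tau (a0 p + a0 q).natAbs ^ (m + 1) * (Nat.log 2 N + 1) : ℕ) : ℝ) := by
          exact_mod_cast h3
      _ ≤ K := hKt _ (by omega) hcN
  set A' := Aset S (m + 1) N with hA'
  set t : ι → Finset ℤ := fun i => if i = p then A' else if i = q then A' else
    if i ∈ I then Aset S m N else Eset S (μ i) N with ht
  set wt : ι → ℤ → ℝ := fun i x => if i = p then (x.natAbs : ℝ) ^ (-α) else if i = q then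
    (x.natAbs : ℝ) ^ (-α) else if i ∈ I then ((W x).natAbs : ℝ) ^ γ else 1 with hwt
  have hw0 : ∀ i x, 0 ≤ wt i x := by
    intro i x
    rw [hwt]
    dsimp only
    split_ifs
    · positivity
    · positivity
    · positivity
    · exact zero_le_one
  have hmain : ((T.image f).card : ℝ) ≤ Y ^ δ * ∏ i, ∑ x ∈ t i, wt i x := by
    apply card_le_weights t wt hw0 (Y ^ δ) (Real.rpow_nonneg hY.le _)
    intro b hb
    rw [Finset.mem_image] at hb
    obtain ⟨a, ha, rfl⟩ := hb
    obtain ⟨a1, a2, a3, a4, a5, a6, a7⟩ := hT a ha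
    constructor
    · intro i
      rw [ht]
      dsimp only
      by_cases hi1 : i = p
      · rw [if_pos hi1, hi1, hfp]
        exact h.mem (a1 p hp)
      · rw [if_neg hi1]
        by_cases hi2 : i = q
        · rw [if_pos hi2, hi2, hfq]
          exact h.mem (a1 q hq)
        · rw [if_neg hi2, hfi _ _ hi1 hi2]
          by_cases hiI : i ∈ I
          · rw [if_pos hiI]; exact a1 i hiI
          · rw [if_neg hiI]; exact a2 i hiI
    · rw [prod_split_two I p q hp hq hpq]
      have k1 := natAbs_pos_of_mem (h.mem (a1 p hp))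
      have k2 := natAbs_pos_of_mem (h.mem (a1 q hq))
      have k3 : ((W (a p)).natAbs : ℝ) ≤ (W (a q)).natAbs := by exact_mod_cast a5
      have g1 : wt p (f a p) = ((W (a p)).natAbs : ℝ) ^ (-α) := by
        rw [hfp, hwt]; dsimp only; rw [if_pos rfl]
      have g2 : wt q (f a q) = ((W (a q)).natAbs : ℝ) ^ (-α) := by
        rw [hfq, hwt]; dsimp only; rw [if_neg hpq, if_pos rfl]
      have g3 : ∏ i ∈ Iᶜ, wt i (f a i) = 1 := by
        apply Finset.prod_eq_one
        intro i hi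
        rw [Finset.mem_compl] at hi
        have hip : i ≠ p := fun h0 => hi (h0 ▸ hp)
        have hiq : i ≠ q := fun h0 => hi (h0 ▸ hq)
        rw [hwt]; dsimp only
        rw [if_neg hip, if_neg hiq, if_neg hi]
      set v : ℝ := ((W (a q)).natAbs : ℝ) with hv
      have hv0 : 0 < v := by linarith
      have g4 : (v ^ γ) ^ (I.card - 2) ≤ ∏ i ∈ (I.erase p).erase q, wt i (f a i) := by
        have hc : ((I.erase p).erase q).card = I.card - 2 := by
          rw [Finset.card_erase_of_mem (Finset.mem_erase.mpr ⟨hpq, hq⟩),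
            Finset.card_erase_of_mem hp]
          omega
        rw [← hc, ← Finset.prod_const]
        apply Finset.prod_le_prod
        · intro i _; positivity
        · intro i hi
          have hi2 := Finset.ne_of_mem_erase hi
          have hi1 := Finset.ne_of_mem_erase (Finset.mem_of_mem_erase hi)
          have hiI := Finset.mem_of_mem_erase (Finset.mem_of_mem_erase hi)
          rw [hfi _ _ hi1 hi2, hwt]
          dsimp only
          rw [if_neg hi1, if_neg hi2, if_pos hiI]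
          apply Real.rpow_le_rpow hv0.le _ hγ
          rw [hv]
          exact_mod_cast a6 i hiI hi1
      rw [g1, g2, g3, mul_one]
      have g5 : v ^ (-α) ≤ ((W (a p)).natAbs : ℝ) ^ (-α) :=
        Real.rpow_le_rpow_of_nonpos (by linarith) k3 (by linarith)
      have g6 : v ^ (-δ) = v ^ (-α) * (v ^ (-α) * (v ^ γ) ^ (I.card - 2)) := by
        rw [← Real.rpow_natCast, ← Real.rpow_mul hv0.le, ← Real.rpow_add hv0,
          ← Real.rpow_add hv0]
        congr 1
        rw [hδ]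
        ring
      have g7 : v ^ (-δ) ≤ ((W (a p)).natAbs : ℝ) ^ (-α) * (v ^ (-α) *
          ∏ i ∈ (I.erase p).erase q, wt i (f a i)) := by
        rw [g6]
        apply mul_le_mul g5 _ (by positivity) (by positivity)
        exact mul_le_mul_of_nonneg_left g4 (by positivity)
      have g8 : Y ^ (-δ) ≤ v ^ (-δ) :=
        Real.rpow_le_rpow_of_nonpos hv0 a7 (by linarith)
      calc (1 : ℝ) = Y ^ δ * Y ^ (-δ) := by
            rw [← Real.rpow_add hY, add_neg_cancel, Real.rpow_zero]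
        _ ≤ _ := mul_le_mul_of_nonneg_left (g8.trans g7) (Real.rpow_nonneg hY.le _)
  have hs := sig_nonneg S (m + 1) N
  rw [prod_split_two I p q hp hq hpq] at hmain
  have f1 : ∑ x ∈ t p, wt p x = sig S (m + 1) N := by
    rw [ht, hwt]
    dsimp only
    simp only [if_true]
    rfl
  have f1' : ∑ x ∈ t q, wt q x = sig S (m + 1) N := by
    rw [ht, hwt]
    dsimp only
    simp only [if_neg hpq, if_true]
    rfl
  have f2 : ∏ i ∈ (I.erase p).erase q, ∑ x ∈ t i, wt i x ≤
      ((N : ℝ) ^ (1 / (m : ℝ)) * sig S (m + 1) N) ^ (I.card - 2) := by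
    have hc : ((I.erase p).erase q).card = I.card - 2 := by
      rw [Finset.card_erase_of_mem (Finset.mem_erase.mpr ⟨hpq, hq⟩),
        Finset.card_erase_of_mem hp]
      omega
    rw [← hc, ← Finset.prod_const]
    apply Finset.prod_le_prod
    · intro i _
      exact Finset.sum_nonneg fun x _ => hw0 i x
    · intro i hi
      have hi2 := Finset.ne_of_mem_erase hi
      have hi1 := Finset.ne_of_mem_erase (Finset.mem_of_mem_erase hi)
      have hiI := Finset.mem_of_mem_erase (Finset.mem_of_mem_erase hi)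
      rw [ht, hwt]
      dsimp only
      simp only [if_neg hi1, if_neg hi2, if_pos hiI]
      exact dec_sum (by omega) h N
  have f3 : ∏ i ∈ Iᶜ, ∑ x ∈ t i, wt i x = ∏ i ∈ Iᶜ, ((Eset S (μ i) N).card : ℝ) := by
    apply Finset.prod_congr rfl
    intro i hi
    rw [Finset.mem_compl] at hi
    have hip : i ≠ p := fun h0 => hi (h0 ▸ hp)
    have hiq : i ≠ q := fun h0 => hi (h0 ▸ hq)
    rw [ht, hwt]
    dsimp only
    simp only [if_neg hip, if_neg hiq, if_neg hi]
    rw [Finset.sum_const, nsmul_eq_mul, mul_one]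
  rw [f1, f1', f3] at hmain
  refine hfiber.trans (mul_le_mul_of_nonneg_left ?_ hK)
  refine hmain.trans (mul_le_mul_of_nonneg_left ?_ (Real.rpow_nonneg hY.le _))
  apply mul_le_mul_of_nonneg_right _ (Finset.prod_nonneg fun _ _ => Nat.cast_nonneg _)
  apply mul_le_mul_of_nonneg_left _ hs
  exact mul_le_mul_of_nonneg_left f2 hs

end

end Pool.Agent.Helper87.Camp
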