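import Pool.Agent.Helper87.Camp.Multi

/-!
# Power saving for sums of several full integers
-/

set_option autoImplicit false

namespace Pool.Agent.Helper87.Camp

open Finset Pool.Agent.Helper10

section

variable {ι : Type*} [Fintype ι] [DecidableEq ι]

/-- The bound for a given pair of indices carrying the two smallest parts. -/
lemma pair_bound {S : Finset ℕ} {m : ℕ} (hm : 3 ≤ m) {W : ℤ → ℤ} {X : ℤ → ℕ}
    (h : IsDec S m W X) (N : ℕ) (hN : 1 ≤ N) (K : ℝ) (hK : 0 ≤ K)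
    (I : Finset ι) (hI2 : 2 ≤ I.card) (hI : I.card ≤ 2 * m + 2) (μ : ι → ℕ∞)
    (hKt : ∀ c : ℕ, c ≠ 0 → c ≤ 2 * N →
      ((tau c ^ (m + 1) * (Nat.log 2 N + 1) : ℕ) : ℝ) ≤ K)
    (p q : ι) (hp : p ∈ I) (hq : q ∈ I) (hpq : q ≠ p) (T : Finset (ι → ℤ))
    (hT : ∀ a ∈ T, (∀ i ∈ I, a i ∈ Aset S m N) ∧ (∀ i ∉ I, a i ∈ Eset S (μ i) N) ∧
      ∑ i, a i = 0 ∧ a p + a q ≠ 0 ∧ (W (a p)).natAbs ≤ (W (a q)).natAbs ∧
      (∀ j ∈ I, j ≠ p → (W (a q)).natAbs ≤ (W (a j)).natAbs)) :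
    (T.card : ℝ) ≤ ((N : ℝ) ^ (2 / (2 * (m : ℝ) + 1))) ^ (I.card - 1) *
      (sig S (m + 1) N ^ (I.card - 1) + K * sig S (m + 1) N ^ I.card) *
      ∏ i ∈ Iᶜ, ((Eset S (μ i) N).card : ℝ) := by
  classical
  have hN1 : (1 : ℝ) ≤ N := by exact_mod_cast hN
  have hN0 : (0 : ℝ) < N := by linarith
  have hmpos : (0 : ℝ) < m := by
    have : 0 < m := by omega
    exact_mod_cast this
  set Y : ℝ := (N : ℝ) ^ (((m : ℝ) + 1) / (2 * m + 1)) with hY
  have hY0 : 0 < Y := Real.rpow_pos_of_pos hN0 _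
  set P : ℝ := (N : ℝ) ^ (2 / (2 * (m : ℝ) + 1)) with hP
  set σ := sig S (m + 1) N with hσ
  set G : ℝ := ∏ i ∈ Iᶜ, ((Eset S (μ i) N).card : ℝ) with hG
  set T1 := T.filter (fun a => Y ≤ ((W (a q)).natAbs : ℝ)) with hT1
  set T2 := T.filter (fun a => ((W (a q)).natAbs : ℝ) ≤ Y) with hT2
  have hsub : T ⊆ T1 ∪ T2 := by
    intro a ha
    rw [Finset.mem_union, hT1, hT2, Finset.mem_filter, Finset.mem_filter]
    rcases le_total Y ((W (a q)).natAbs : ℝ) with h1 | h1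
    · exact Or.inl ⟨ha, h1⟩
    · exact Or.inr ⟨ha, h1⟩
  have hcard : T.card ≤ T1.card + T2.card :=
    (Finset.card_le_card hsub).trans (Finset.card_union_le _ _)
  have hcard' : (T.card : ℝ) ≤ T1.card + T2.card := by exact_mod_cast hcard
  have b1 := case_one hm h N Y hY0 I μ p hp T1 (by
    intro a ha
    rw [hT1, Finset.mem_filter] at ha
    obtain ⟨a1, a2, a3, a4, a5, a6⟩ := hT a ha.1
    refine ⟨a1, a2, a3, fun j hj hjp => ?_⟩
    have h1 : ((W (a q)).natAbs : ℝ) ≤ ((W (a j)).natAbs : ℝ) := by exact_mod_cast a6 j hj hjp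
    linarith [ha.2])
  have b2 := case_two hm h N Y hY0 K hK I hI μ hKt p q hp hq hpq T2 (by
    intro a ha
    rw [hT2, Finset.mem_filter] at ha
    obtain ⟨a1, a2, a3, a4, a5, a6⟩ := hT a ha.1
    exact ⟨a1, a2, a3, a4, a5, a6, ha.2⟩)
  have e1 : Y ^ (-(1 / (m : ℝ) - 1 / ((m + 1 : ℕ) : ℝ))) * ((N : ℝ) ^ (1 / (m : ℝ)) * σ) =
      P * σ := by
    rw [← mul_assoc]
    congr 1
    rw [hY, ← Real.rpow_mul hN0.le, ← Real.rpow_add hN0, hP]
    congr 1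
    push_cast
    field_simp
    ring
  have e2 : Y ^ (2 * (1 / ((m + 1 : ℕ) : ℝ)) -
        ((I.card - 2 : ℕ) : ℝ) * (1 / (m : ℝ) - 1 / ((m + 1 : ℕ) : ℝ))) *
        ((N : ℝ) ^ (1 / (m : ℝ))) ^ (I.card - 2) = P ^ (I.card - 1) := by
    have hk : I.card - 1 = (I.card - 2) + 1 := by omega
    rw [hk]
    set k := I.card - 2
    rw [hY, hP, ← Real.rpow_mul hN0.le, ← Real.rpow_natCast ((N : ℝ) ^ (1 / (m : ℝ))),
      ← Real.rpow_mul hN0.le, ← Real.rpow_add hN0, ← Real.rpow_natCast, ← Real.rpow_mul hN0.le]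
    congr 1
    push_cast
    field_simp
    ring
  rw [e1] at b1
  have hσk : σ * (σ * σ ^ (I.card - 2)) = σ ^ I.card := by
    have hk : I.card = (I.card - 2) + 1 + 1 := by omega
    conv_rhs => rw [hk]
    rw [pow_succ, pow_succ]
    ring
  calc (T.card : ℝ) ≤ T1.card + T2.card := hcard'
    _ ≤ (P * σ) ^ (I.card - 1) * G + K * (Y ^ (2 * (1 / ((m + 1 : ℕ) : ℝ)) -
        ((I.card - 2 : ℕ) : ℝ) * (1 / (m : ℝ) - 1 / ((m + 1 : ℕ) : ℝ))) *
        (σ * (σ * ((N : ℝ) ^ (1 / (m : ℝ)) * σ) ^ (I.card - 2)) * G)) := add_le_add b1 b2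
    _ = (P * σ) ^ (I.card - 1) * G + K * ((Y ^ (2 * (1 / ((m + 1 : ℕ) : ℝ)) -
        ((I.card - 2 : ℕ) : ℝ) * (1 / (m : ℝ) - 1 / ((m + 1 : ℕ) : ℝ))) *
        ((N : ℝ) ^ (1 / (m : ℝ))) ^ (I.card - 2)) * (σ * (σ * σ ^ (I.card - 2))) * G) := by
          rw [mul_pow ((N : ℝ) ^ (1 / (m : ℝ)))]
          ring
    _ = P ^ (I.card - 1) * (σ ^ (I.card - 1) + K * σ ^ I.card) * G := by
          rw [e2, hσk, mul_pow]
          ring

/-- The number of solutions of `∑ aᵢ = 0` in full integers, outside the locus where a subsum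
`aᵢ + aⱼ` over two indices of `I` vanishes. -/
theorem multi (S : Finset ℕ) (m : ℕ) (hm : 3 ≤ m) (I : Finset ι) (hI2 : 2 ≤ I.card)
    (hI : I.card ≤ 2 * m + 2) (μ : ι → ℕ∞) (hμ : ∀ i, 1 ≤ μ i) (ε : ℝ) (hε : 0 < ε) :
    ∃ C : ℝ, 1 ≤ C ∧ ∀ N : ℕ, 1 ≤ N → ∀ T : Finset (ι → ℤ),
      (∀ a ∈ T, (∀ i ∈ I, a i ∈ Aset S m N) ∧ (∀ i ∉ I, a i ∈ Eset S (μ i) N) ∧
        ∑ i, a i = 0 ∧ ∀ i ∈ I, ∀ j ∈ I, i ≠ j → a i + a j ≠ 0) →
      (T.card : ℝ) ≤ C * (N : ℝ) ^ ((∑ i ∈ Iᶜ, recip (μ i)) +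
        2 * ((I.card : ℝ) - 1) / (2 * (m : ℝ) + 1) + ε) := by
  classical
  obtain ⟨W, X, h⟩ := exists_dec S (m := m) (by omega)
  set k := I.card with hk
  have hk1 : (0 : ℝ) < (k : ℝ) + 1 := by positivity
  set ε1 : ℝ := ε / (2 * ((k : ℝ) + 1)) with hε1
  have hε10 : 0 < ε1 := by positivity
  obtain ⟨C1, hC1, hs⟩ := sig_le S (m + 1) (by omega) ε1 hε10
  obtain ⟨C2, hC2, ht⟩ := tau_log_le (m + 1) ε1 hε10
  set c0 : ℕ := (Iᶜ : Finset ι).card with hc0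
  set ε2 : ℝ := ε / (2 * ((c0 : ℝ) + 1)) with hε2
  have hε20 : 0 < ε2 := by positivity
  have hE : ∀ i : ι, ∃ C : ℝ, 1 ≤ C ∧ ∀ N : ℕ, 1 ≤ N →
      ((Eset S (μ i) N).card : ℝ) ≤ C * (N : ℝ) ^ (recip (μ i) + ε2) := by
    intro i
    obtain ⟨C, hC, hb⟩ := card_EFull S (μ i) (hμ i) ε2 hε20
    refine ⟨C, hC, fun N hN => hb N hN _ ?_⟩
    intro c hc
    exact mem_Eset.mp hc
  choose D hD1 hD using hE
  set D0 : ℝ := ∏ i ∈ Iᶜ, D i with hD0
  have hD01 : 1 ≤ D0 := by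
    rw [hD0, ← Finset.prod_const_one (s := (Iᶜ : Finset ι))]
    exact Finset.prod_le_prod (fun _ _ => zero_le_one) fun i _ => hD1 i
  set L : ℝ := (Fintype.card (ι × ι) : ℝ) with hL
  have hL0 : 0 ≤ L := Nat.cast_nonneg _
  refine ⟨(2 * C1 ^ k * C2 * D0) * (L + 1), ?_, ?_⟩
  · have h1 : 1 ≤ C1 ^ k := one_le_pow₀ hC1
    have h2 : 1 ≤ C1 ^ k * C2 := one_le_mul_of_one_le_of_one_le h1 hC2
    have h3 : 1 ≤ C1 ^ k * C2 * D0 := one_le_mul_of_one_le_of_one_le h2 hD01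
    have h4 : 1 ≤ 2 * C1 ^ k * C2 * D0 := by nlinarith
    exact one_le_mul_of_one_le_of_one_le h4 (by linarith)
  · intro N hN T hT
    have hN1 : (1 : ℝ) ≤ N := by exact_mod_cast hN
    have hN0 : (0 : ℝ) < N := by linarith
    set n : ℝ := (N : ℝ) ^ ε1 with hn
    have hn1 : 1 ≤ n := Real.one_le_rpow hN1 hε10.le
    have hn0 : 0 < n := by linarith
    set K : ℝ := C2 * n with hK
    have hK0 : 0 ≤ K := by positivity
    have hK1 : 1 ≤ K := one_le_mul_of_one_le_of_one_le hC2 hn1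
    have hKt := ht N hN
    set P : ℝ := (N : ℝ) ^ (2 / (2 * (m : ℝ) + 1)) with hP
    have hP0 : 0 ≤ P := Real.rpow_nonneg hN0.le _
    set σ := sig S (m + 1) N with hσ
    have hσ0 : 0 ≤ σ := sig_nonneg _ _ _
    have hσ1 : σ ≤ C1 * n := hs N hN
    set G : ℝ := ∏ i ∈ Iᶜ, ((Eset S (μ i) N).card : ℝ) with hG
    have hG0 : 0 ≤ G := Finset.prod_nonneg fun _ _ => Nat.cast_nonneg _
    set Q : ℝ := P ^ (k - 1) * (σ ^ (k - 1) + K * σ ^ k) * G with hQ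
    have hQ0 : 0 ≤ Q := mul_nonneg (mul_nonneg (pow_nonneg hP0 _)
      (add_nonneg (pow_nonneg hσ0 _) (mul_nonneg hK0 (pow_nonneg hσ0 _)))) hG0
    have hne : I.Nonempty := Finset.card_pos.mp (by omega)
    have hpick : ∀ a : ι → ℤ, ∃ pq : ι × ι, pq.1 ∈ I ∧ pq.2 ∈ I ∧ pq.2 ≠ pq.1 ∧
        (W (a pq.1)).natAbs ≤ (W (a pq.2)).natAbs ∧
        (∀ j ∈ I, j ≠ pq.1 → (W (a pq.2)).natAbs ≤ (W (a j)).natAbs) := by
      intro a
      obtain ⟨p, hp, hpm⟩ := Finset.exists_min_image I (fun i => (W (a i)).natAbs) hne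
      have hne2 : (I.erase p).Nonempty := by
        apply Finset.card_pos.mp
        rw [Finset.card_erase_of_mem hp]
        omega
      obtain ⟨q, hq, hqm⟩ := Finset.exists_min_image (I.erase p) (fun i => (W (a i)).natAbs) hne2
      refine ⟨(p, q), hp, Finset.mem_of_mem_erase hq, Finset.ne_of_mem_erase hq,
        hpm q (Finset.mem_of_mem_erase hq), fun j hj hjp => ?_⟩
      exact hqm j (Finset.mem_erase.mpr ⟨hjp, hj⟩)
    choose f hf using hpick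
    have h1 : (T.card : ℝ) ≤ Q * ((Finset.univ : Finset (ι × ι)).card : ℝ) := by
      apply card_le_real f (fun _ _ => Finset.mem_univ _)
      rintro ⟨p, q⟩ _
      rcases (T.filter (fun a => f a = (p, q))).eq_empty_or_nonempty with he | ⟨a0, ha0⟩
      · rw [he, Finset.card_empty, Nat.cast_zero]
        exact hQ0
      · rw [Finset.mem_filter] at ha0
        obtain ⟨g1, g2, g3, -⟩ := hf a0
        rw [ha0.2] at g1 g2 g3
        apply pair_bound hm h N hN K hK0 I hI2 hI μ hKt p q g1 g2 g3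
        intro a ha
        rw [Finset.mem_filter] at ha
        obtain ⟨a1, a2, a3, a4⟩ := hT a ha.1
        obtain ⟨-, -, -, f4, f5⟩ := hf a
        rw [ha.2] at f4 f5
        exact ⟨a1, a2, a3, a4 p g1 q g2 g3.symm, f4, f5⟩
    rw [Finset.card_univ] at h1
    have h3 : σ ^ (k - 1) + K * σ ^ k ≤ 2 * C1 ^ k * C2 * n ^ (k + 1) := by
      have hCn : 1 ≤ C1 * n := one_le_mul_of_one_le_of_one_le hC1 hn1
      have q1 : σ ^ (k - 1) ≤ (C1 * n) ^ k :=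
        (pow_le_pow_left₀ hσ0 hσ1 (k - 1)).trans (pow_le_pow_right₀ hCn (by omega))
      have q2 : σ ^ k ≤ (C1 * n) ^ k := pow_le_pow_left₀ hσ0 hσ1 k
      have q3 : K * σ ^ k ≤ K * (C1 * n) ^ k := mul_le_mul_of_nonneg_left q2 hK0
      have q4 : (C1 * n) ^ k ≤ K * (C1 * n) ^ k := by
        have : 0 ≤ (C1 * n) ^ k := by positivity
        nlinarith
      calc σ ^ (k - 1) + K * σ ^ k ≤ 2 * (K * (C1 * n) ^ k) := by linarith
        _ = 2 * C1 ^ k * C2 * n ^ (k + 1) := by rw [hK, mul_pow, pow_succ]; ring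
    have h4 : n ^ (k + 1) = (N : ℝ) ^ (ε / 2) := by
      rw [hn, ← Real.rpow_natCast, ← Real.rpow_mul hN0.le]
      congr 1
      rw [hε1]
      push_cast
      field_simp
    have h5 : G ≤ D0 * (N : ℝ) ^ ((∑ i ∈ Iᶜ, recip (μ i)) + ε / 2) := by
      calc G ≤ ∏ i ∈ Iᶜ, (D i * (N : ℝ) ^ (recip (μ i) + ε2)) :=
            Finset.prod_le_prod (fun _ _ => Nat.cast_nonneg _) fun i _ => hD i N hN
        _ = D0 * (N : ℝ) ^ (∑ i ∈ Iᶜ, (recip (μ i) + ε2)) := by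
            rw [Finset.prod_mul_distrib, ← Real.rpow_sum_of_pos hN0]
        _ ≤ D0 * (N : ℝ) ^ ((∑ i ∈ Iᶜ, recip (μ i)) + ε / 2) := by
            apply mul_le_mul_of_nonneg_left _ (by linarith)
            apply Real.rpow_le_rpow_of_exponent_le hN1
            rw [Finset.sum_add_distrib, Finset.sum_const, nsmul_eq_mul]
            have : (c0 : ℝ) * ε2 ≤ ε / 2 := by
              rw [hε2]
              have hc : (0 : ℝ) ≤ c0 := Nat.cast_nonneg _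
              rw [mul_div_assoc', div_le_div_iff₀ (by positivity) (by norm_num)]
              nlinarith
            linarith
    have h6 : P ^ (k - 1) = (N : ℝ) ^ (2 * ((k : ℝ) - 1) / (2 * (m : ℝ) + 1)) := by
      rw [hP, ← Real.rpow_natCast, ← Real.rpow_mul hN0.le]
      congr 1
      rw [Nat.cast_sub (by omega : 1 ≤ k)]
      push_cast
      ring
    have h7 : Q ≤ (2 * C1 ^ k * C2 * D0) * (N : ℝ) ^ ((∑ i ∈ Iᶜ, recip (μ i)) +
        2 * ((k : ℝ) - 1) / (2 * (m : ℝ) + 1) + ε) := by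
      calc Q ≤ P ^ (k - 1) * (2 * C1 ^ k * C2 * n ^ (k + 1)) *
            (D0 * (N : ℝ) ^ ((∑ i ∈ Iᶜ, recip (μ i)) + ε / 2)) := by
            have hg : (0 : ℝ) ≤ 2 * C1 ^ k * C2 * n ^ (k + 1) := by
              have z1 : (0 : ℝ) ≤ C1 := by linarith
              have z2 : (0 : ℝ) ≤ C2 := by linarith
              positivity
            exact mul_le_mul (mul_le_mul_of_nonneg_left h3 (pow_nonneg hP0 _)) h5 hG0
              (mul_nonneg (pow_nonneg hP0 _) hg)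
        _ = (2 * C1 ^ k * C2 * D0) * ((N : ℝ) ^ (2 * ((k : ℝ) - 1) / (2 * (m : ℝ) + 1)) *
            (N : ℝ) ^ (ε / 2) * (N : ℝ) ^ ((∑ i ∈ Iᶜ, recip (μ i)) + ε / 2)) := by
            rw [h4, h6]; ring
        _ = _ := by
            rw [← Real.rpow_add hN0, ← Real.rpow_add hN0]
            congr 2
            ring
    set V : ℝ := (N : ℝ) ^ ((∑ i ∈ Iᶜ, recip (μ i)) +
        2 * ((k : ℝ) - 1) / (2 * (m : ℝ) + 1) + ε) with hV
    have hV0 : 0 ≤ V := Real.rpow_nonneg hN0.le _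
    have hCC : 0 ≤ 2 * C1 ^ k * C2 * D0 := by
      have z1 : (0 : ℝ) ≤ C1 := by linarith
      have z2 : (0 : ℝ) ≤ C2 := by linarith
      have z3 : (0 : ℝ) ≤ D0 := by linarith
      positivity
    calc (T.card : ℝ) ≤ Q * L := h1
      _ ≤ (2 * C1 ^ k * C2 * D0) * V * L := mul_le_mul_of_nonneg_right h7 hL0
      _ ≤ (2 * C1 ^ k * C2 * D0) * V * (L + 1) :=
          mul_le_mul_of_nonneg_left (by linarith) (mul_nonneg hCC hV0)
      _ = (2 * C1 ^ k * C2 * D0) * (L + 1) * V := by ring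

end

end Pool.Agent.Helper87.Camp
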