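import Pool.Agent.Helper87.Camp.Multi2

/-!
# Degenerate solutions
-/

set_option autoImplicit false

namespace Pool.Agent.Helper87.Camp

open Finset Pool.Agent.Helper10

section

variable {ι : Type*} [Fintype ι] [DecidableEq ι]

lemma deg_bound (S : Finset ℕ) (m N : ℕ) (I : Finset ι) (μ : ι → ℕ∞)
    (i j l : ι) (hi : i ∈ I) (hl : l ∈ I) (hij : i ≠ j) (hil : l ≠ i) (hjl : l ≠ j)
    (T : Finset (ι → ℤ))
    (hT : ∀ a ∈ T, (∀ i ∈ I, a i ∈ Aset S m N) ∧ (∀ i ∉ I, a i ∈ Eset S (μ i) N) ∧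
      ∑ i, a i = 0 ∧ a i + a j = 0) :
    (T.card : ℝ) ≤ ((Aset S m N).card : ℝ) ^ (I.card - 2) *
      ∏ i ∈ Iᶜ, ((Eset S (μ i) N).card : ℝ) := by
  classical
  set f : (ι → ℤ) → (ι → ℤ) := fun a => Function.update (Function.update a i 0) l 0 with hf
  have hfi : f = fun a => Function.update (Function.update a i 0) l 0 := hf
  have hfne : ∀ a t, t ≠ i → t ≠ l → f a t = a t := by
    intro a t h1 h2
    rw [hf]
    dsimp only
    rw [Function.update_of_ne h2, Function.update_of_ne h1]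
  have hinj : Set.InjOn f (T : Set (ι → ℤ)) := by
    intro a ha b hb hab
    obtain ⟨a1, a2, a3, a4⟩ := hT a (Finset.mem_coe.mp ha)
    obtain ⟨b1, b2, b3, b4⟩ := hT b (Finset.mem_coe.mp hb)
    have e3 : ∀ t, t ≠ i → t ≠ l → a t = b t := by
      intro t h1 h2
      have := congrFun hab t
      rw [hfne a t h1 h2, hfne b t h1 h2] at this
      exact this
    have ej : a j = b j := e3 j hij.symm hjl.symm
    have ei : a i = b i := by linarith
    have el : a l = b l := by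
      rw [← Finset.add_sum_erase Finset.univ _ (Finset.mem_univ l)] at a3 b3
      have e5 : ∑ t ∈ Finset.univ.erase l, a t = ∑ t ∈ Finset.univ.erase l, b t := by
        apply Finset.sum_congr rfl
        intro t ht
        have ht1 := Finset.ne_of_mem_erase ht
        by_cases hti : t = i
        · rw [hti]; exact ei
        · exact e3 t hti ht1
      rw [e5] at a3
      linarith
    funext t
    by_cases h1 : t = i
    · rw [h1]; exact ei
    · by_cases h2 : t = l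
      · rw [h2]; exact el
      · exact e3 t h1 h2
  set t : ι → Finset ℤ := fun s => if s = i then {0} else if s = l then {0} else
    if s ∈ I then Aset S m N else Eset S (μ s) N with ht
  have hmain : ((T.image f).card : ℝ) ≤ 1 * ∏ s, ∑ x ∈ t s, (fun (_ : ι) (_ : ℤ) => (1 : ℝ)) s x := by
    apply card_le_weights t (fun _ _ => (1 : ℝ)) (fun _ _ => zero_le_one) 1 zero_le_one
    intro b hb
    rw [Finset.mem_image] at hb
    obtain ⟨a, ha, rfl⟩ := hb
    obtain ⟨a1, a2, a3, a4⟩ := hT a ha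
    constructor
    · intro s
      rw [ht]
      dsimp only
      by_cases h1 : s = i
      · rw [if_pos h1, h1, hf, Finset.mem_singleton]
        dsimp only
        rw [Function.update_of_ne hil.symm, Function.update_self]
      · rw [if_neg h1]
        by_cases h2 : s = l
        · rw [if_pos h2, h2, hf, Finset.mem_singleton]
          dsimp only
          rw [Function.update_self]
        · rw [if_neg h2, hfne a s h1 h2]
          by_cases hsI : s ∈ I
          · rw [if_pos hsI]; exact a1 s hsI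
          · rw [if_neg hsI]; exact a2 s hsI
    · rw [Finset.prod_const_one, one_mul]
  rw [one_mul, prod_split_two I i l hi hl hil] at hmain
  have f1 : ∑ x ∈ t i, (fun (_ : ι) (_ : ℤ) => (1 : ℝ)) i x = 1 := by
    rw [ht]; simp
  have f2 : ∑ x ∈ t l, (fun (_ : ι) (_ : ℤ) => (1 : ℝ)) l x = 1 := by
    rw [ht]; simp
  have f3 : ∏ s ∈ (I.erase i).erase l, ∑ x ∈ t s, (fun (_ : ι) (_ : ℤ) => (1 : ℝ)) s x =
      ((Aset S m N).card : ℝ) ^ (I.card - 2) := by
    have hc : ((I.erase i).erase l).card = I.card - 2 := by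
      rw [Finset.card_erase_of_mem (Finset.mem_erase.mpr ⟨hil, hl⟩),
        Finset.card_erase_of_mem hi]
      omega
    rw [← hc, ← Finset.prod_const]
    apply Finset.prod_congr rfl
    intro s hs
    have h2 := Finset.ne_of_mem_erase hs
    have h1 := Finset.ne_of_mem_erase (Finset.mem_of_mem_erase hs)
    have hsI := Finset.mem_of_mem_erase (Finset.mem_of_mem_erase hs)
    rw [ht]
    dsimp only
    rw [if_neg h1, if_neg h2, if_pos hsI, Finset.sum_const, nsmul_eq_mul, mul_one]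
  have f4 : ∏ s ∈ Iᶜ, ∑ x ∈ t s, (fun (_ : ι) (_ : ℤ) => (1 : ℝ)) s x =
      ∏ s ∈ Iᶜ, ((Eset S (μ s) N).card : ℝ) := by
    apply Finset.prod_congr rfl
    intro s hs
    rw [Finset.mem_compl] at hs
    have h1 : s ≠ i := fun h0 => hs (h0 ▸ hi)
    have h2 : s ≠ l := fun h0 => hs (h0 ▸ hl)
    rw [ht]
    dsimp only
    rw [if_neg h1, if_neg h2, if_neg hs, Finset.sum_const, nsmul_eq_mul, mul_one]
  rw [f1, f2, f3, f4, one_mul, one_mul] at hmain
  rw [← Finset.card_image_of_injOn hinj]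
  exact hmain

/-- The number of degenerate solutions, when at least three indices lie in `I`. -/
theorem degen (S : Finset ℕ) (m : ℕ) (hm : 3 ≤ m) (I : Finset ι) (hI3 : 3 ≤ I.card)
    (hI : I.card ≤ 2 * m + 2) (μ : ι → ℕ∞) (hμ : ∀ i, 1 ≤ μ i) (ε : ℝ) (hε : 0 < ε) :
    ∃ C : ℝ, 1 ≤ C ∧ ∀ N : ℕ, 1 ≤ N → ∀ T : Finset (ι → ℤ),
      (∀ a ∈ T, (∀ i ∈ I, a i ∈ Aset S m N) ∧ (∀ i ∉ I, a i ∈ Eset S (μ i) N) ∧
        ∑ i, a i = 0 ∧ ∃ i ∈ I, ∃ j ∈ I, i ≠ j ∧ a i + a j = 0) →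
      (T.card : ℝ) ≤ C * (N : ℝ) ^ ((∑ i ∈ Iᶜ, recip (μ i)) +
        2 * ((I.card : ℝ) - 1) / (2 * (m : ℝ) + 1) + ε) := by
  classical
  set k := I.card with hk
  set ε1 : ℝ := ε / (2 * ((k : ℝ) + 1)) with hε1
  have hε10 : 0 < ε1 := by positivity
  obtain ⟨C1, hC1, hs⟩ := sig_le S m (by omega) ε1 hε10
  set c0 : ℕ := (Iᶜ : Finset ι).card with hc0
  set ε2 : ℝ := ε / (2 * ((c0 : ℝ) + 1)) with hε2
  have hε20 : 0 < ε2 := by positivity
  have hE : ∀ i : ι, ∃ C : ℝ, 1 ≤ C ∧ ∀ N : ℕ, 1 ≤ N →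
      ((Eset S (μ i) N).card : ℝ) ≤ C * (N : ℝ) ^ (recip (μ i) + ε2) := by
    intro i
    obtain ⟨C, hC, hb⟩ := card_EFull S (μ i) (hμ i) ε2 hε20
    refine ⟨C, hC, fun N hN => hb N hN _ ?_⟩
    intro c hc
    exact mem_Eset.mp hc
  choose D hD1 hD using hE
  set D0 : ℝ := ∏ i ∈ Iᶜ, D i with hD0
  have hD01 : 1 ≤ D0 := by
    rw [hD0, ← Finset.prod_const_one (s := (Iᶜ : Finset ι))]
    exact Finset.prod_le_prod (fun _ _ => zero_le_one) fun i _ => hD1 i
  set L : ℝ := (Fintype.card (ι × ι × ι) : ℝ) with hL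
  have hL0 : 0 ≤ L := Nat.cast_nonneg _
  refine ⟨(C1 ^ (k - 2) * D0) * (L + 1), ?_, ?_⟩
  · have h1 : 1 ≤ C1 ^ (k - 2) := one_le_pow₀ hC1
    exact one_le_mul_of_one_le_of_one_le (one_le_mul_of_one_le_of_one_le h1 hD01) (by linarith)
  · intro N hN T hT
    have hN1 : (1 : ℝ) ≤ N := by exact_mod_cast hN
    have hN0 : (0 : ℝ) < N := by linarith
    have hmpos : (0 : ℝ) < m := by
      have : 0 < m := by omega
      exact_mod_cast this
    set n : ℝ := (N : ℝ) ^ ε1 with hn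
    have hn1 : 1 ≤ n := Real.one_le_rpow hN1 hε10.le
    have hn0 : 0 < n := by linarith
    have hA : ((Aset S m N).card : ℝ) ≤ (N : ℝ) ^ (1 / (m : ℝ)) * (C1 * n) := by
      have h1 := card_le_sig S m N N hN0.le (Aset S m N) (Finset.Subset.refl _) (by
        intro w hw
        exact_mod_cast (mem_Aset.mp hw).2.1)
      exact h1.trans (mul_le_mul_of_nonneg_left (hs N hN) (Real.rpow_nonneg hN0.le _))
    set G : ℝ := ∏ i ∈ Iᶜ, ((Eset S (μ i) N).card : ℝ) with hG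
    have hG0 : 0 ≤ G := Finset.prod_nonneg fun _ _ => Nat.cast_nonneg _
    set Q : ℝ := ((Aset S m N).card : ℝ) ^ (k - 2) * G with hQ
    have hQ0 : 0 ≤ Q := mul_nonneg (pow_nonneg (Nat.cast_nonneg _) _) hG0
    have hpick : ∀ a : ι → ℤ, a ∈ T → ∃ x : ι × ι × ι, x.1 ∈ I ∧ x.2.2 ∈ I ∧ x.1 ≠ x.2.1 ∧
        x.2.2 ≠ x.1 ∧ x.2.2 ≠ x.2.1 ∧ a x.1 + a x.2.1 = 0 := by
      intro a ha
      obtain ⟨-, -, -, i, hi, j, hj, hij, hs⟩ := hT a ha
      have hne : ((I.erase i).erase j).Nonempty := by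
        apply Finset.card_pos.mp
        rw [Finset.card_erase_of_mem (Finset.mem_erase.mpr ⟨hij.symm, hj⟩),
          Finset.card_erase_of_mem hi]
        omega
      obtain ⟨l, hl⟩ := hne
      exact ⟨(i, j, l), hi, Finset.mem_of_mem_erase (Finset.mem_of_mem_erase hl), hij,
        Finset.ne_of_mem_erase (Finset.mem_of_mem_erase hl), Finset.ne_of_mem_erase hl, hs⟩
    have hneI : I.Nonempty := Finset.card_pos.mp (by omega)
    obtain ⟨i0, -⟩ := hneI
    have : Nonempty (ι × ι × ι) := ⟨(i0, i0, i0)⟩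
    choose! f hf using hpick
    have h1 : (T.card : ℝ) ≤ Q * ((Finset.univ : Finset (ι × ι × ι)).card : ℝ) := by
      apply card_le_real f (fun _ _ => Finset.mem_univ _)
      rintro ⟨i, j, l⟩ _
      rcases (T.filter (fun a => f a = (i, j, l))).eq_empty_or_nonempty with he | ⟨a0, ha0⟩
      · rw [he, Finset.card_empty, Nat.cast_zero]
        exact hQ0
      · rw [Finset.mem_filter] at ha0
        obtain ⟨g1, g2, g3, g4, g5, g6⟩ := hf a0 ha0.1
        rw [ha0.2] at g1 g2 g3 g4 g5 g6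
        apply deg_bound S m N I μ i j l g1 g2 g3 g4 g5
        intro a ha
        rw [Finset.mem_filter] at ha
        obtain ⟨a1, a2, a3, -⟩ := hT a ha.1
        obtain ⟨-, -, -, -, -, f6⟩ := hf a ha.1
        rw [ha.2] at f6
        exact ⟨a1, a2, a3, f6⟩
    rw [Finset.card_univ] at h1
    have h5 : G ≤ D0 * (N : ℝ) ^ ((∑ i ∈ Iᶜ, recip (μ i)) + ε / 2) := by
      calc G ≤ ∏ i ∈ Iᶜ, (D i * (N : ℝ) ^ (recip (μ i) + ε2)) :=
            Finset.prod_le_prod (fun _ _ => Nat.cast_nonneg _) fun i _ => hD i N hN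
        _ = D0 * (N : ℝ) ^ (∑ i ∈ Iᶜ, (recip (μ i) + ε2)) := by
            rw [Finset.prod_mul_distrib, ← Real.rpow_sum_of_pos hN0]
        _ ≤ D0 * (N : ℝ) ^ ((∑ i ∈ Iᶜ, recip (μ i)) + ε / 2) := by
            apply mul_le_mul_of_nonneg_left _ (by linarith)
            apply Real.rpow_le_rpow_of_exponent_le hN1
            rw [Finset.sum_add_distrib, Finset.sum_const, nsmul_eq_mul]
            have : (c0 : ℝ) * ε2 ≤ ε / 2 := by
              rw [hε2]
              have hc : (0 : ℝ) ≤ c0 := Nat.cast_nonneg _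
              rw [mul_div_assoc', div_le_div_iff₀ (by positivity) (by norm_num)]
              nlinarith
            linarith
    have h6 : ((Aset S m N).card : ℝ) ^ (k - 2) ≤ C1 ^ (k - 2) *
        (N : ℝ) ^ (2 * ((k : ℝ) - 1) / (2 * (m : ℝ) + 1) + ε / 2) := by
      calc ((Aset S m N).card : ℝ) ^ (k - 2)
          ≤ ((N : ℝ) ^ (1 / (m : ℝ)) * (C1 * n)) ^ (k - 2) :=
            pow_le_pow_left₀ (Nat.cast_nonneg _) hA _
        _ = C1 ^ (k - 2) * (((N : ℝ) ^ (1 / (m : ℝ))) ^ (k - 2) * n ^ (k - 2)) := by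
            rw [mul_pow, mul_pow]; ring
        _ ≤ C1 ^ (k - 2) * (N : ℝ) ^ (2 * ((k : ℝ) - 1) / (2 * (m : ℝ) + 1) + ε / 2) := by
            have hC10 : (0 : ℝ) ≤ C1 := by linarith
            apply mul_le_mul_of_nonneg_left _ (pow_nonneg hC10 _)
            rw [hn, ← Real.rpow_natCast, ← Real.rpow_mul hN0.le, ← Real.rpow_natCast,
              ← Real.rpow_mul hN0.le, ← Real.rpow_add hN0]
            apply Real.rpow_le_rpow_of_exponent_le hN1
            have hk2 : ((k - 2 : ℕ) : ℝ) = (k : ℝ) - 2 := by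
              rw [Nat.cast_sub (by omega : 2 ≤ k)]; norm_num
            have hkm : (k : ℝ) ≤ 2 * m + 2 := by exact_mod_cast hI
            have hk3 : (3 : ℝ) ≤ k := by exact_mod_cast hI3
            rw [hk2]
            have q1 : 1 / (m : ℝ) * ((k : ℝ) - 2) ≤ 2 * ((k : ℝ) - 1) / (2 * (m : ℝ) + 1) := by
              rw [one_div_mul_eq_div, div_le_div_iff₀ hmpos (by positivity)]
              nlinarith
            have q2 : ε1 * ((k : ℝ) - 2) ≤ ε / 2 := by
              rw [hε1, div_mul_eq_mul_div, div_le_div_iff₀ (by positivity) (by norm_num)]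
              nlinarith
            linarith
    have h7 : Q ≤ (C1 ^ (k - 2) * D0) * (N : ℝ) ^ ((∑ i ∈ Iᶜ, recip (μ i)) +
        2 * ((k : ℝ) - 1) / (2 * (m : ℝ) + 1) + ε) := by
      have hC10 : (0 : ℝ) ≤ C1 := by linarith
      calc Q ≤ (C1 ^ (k - 2) * (N : ℝ) ^ (2 * ((k : ℝ) - 1) / (2 * (m : ℝ) + 1) + ε / 2)) *
            (D0 * (N : ℝ) ^ ((∑ i ∈ Iᶜ, recip (μ i)) + ε / 2)) :=
            mul_le_mul h6 h5 hG0 (mul_nonneg (pow_nonneg hC10 _) (Real.rpow_nonneg hN0.le _))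
        _ = (C1 ^ (k - 2) * D0) * ((N : ℝ) ^ (2 * ((k : ℝ) - 1) / (2 * (m : ℝ) + 1) + ε / 2) *
            (N : ℝ) ^ ((∑ i ∈ Iᶜ, recip (μ i)) + ε / 2)) := by ring
        _ = _ := by
            rw [← Real.rpow_add hN0]
            congr 2
            ring
    set V : ℝ := (N : ℝ) ^ ((∑ i ∈ Iᶜ, recip (μ i)) +
        2 * ((k : ℝ) - 1) / (2 * (m : ℝ) + 1) + ε) with hV
    have hV0 : 0 ≤ V := Real.rpow_nonneg hN0.le _
    have hCC : 0 ≤ C1 ^ (k - 2) * D0 := by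
      have z1 : (0 : ℝ) ≤ C1 := by linarith
      have z3 : (0 : ℝ) ≤ D0 := by linarith
      exact mul_nonneg (pow_nonneg z1 _) z3
    calc (T.card : ℝ) ≤ Q * L := h1
      _ ≤ (C1 ^ (k - 2) * D0) * V * L := mul_le_mul_of_nonneg_right h7 hL0
      _ ≤ (C1 ^ (k - 2) * D0) * V * (L + 1) :=
          mul_le_mul_of_nonneg_left (by linarith) (mul_nonneg hCC hV0)
      _ = (C1 ^ (k - 2) * D0) * (L + 1) * V := by ring

/-- All solutions if `|I| ≥ 3`, and the non-degenerate ones if `|I| = 2`. -/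
theorem multi_all (S : Finset ℕ) (m : ℕ) (hm : 3 ≤ m) (I : Finset ι) (hI2 : 2 ≤ I.card)
    (hI : I.card ≤ 2 * m + 2) (μ : ι → ℕ∞) (hμ : ∀ i, 1 ≤ μ i) (ε : ℝ) (hε : 0 < ε) :
    ∃ C : ℝ, 1 ≤ C ∧ ∀ N : ℕ, 1 ≤ N → ∀ T : Finset (ι → ℤ),
      (∀ a ∈ T, (∀ i ∈ I, a i ∈ Aset S m N) ∧ (∀ i ∉ I, a i ∈ Eset S (μ i) N) ∧
        ∑ i, a i = 0 ∧ (I.card = 2 → ∀ i ∈ I, ∀ j ∈ I, i ≠ j → a i + a j ≠ 0)) →
      (T.card : ℝ) ≤ C * (N : ℝ) ^ ((∑ i ∈ Iᶜ, recip (μ i)) +
        2 * ((I.card : ℝ) - 1) / (2 * (m : ℝ) + 1) + ε) := by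
  classical
  obtain ⟨C1, hC1, h1⟩ := multi S m hm I hI2 hI μ hμ ε hε
  by_cases h2 : I.card = 2
  · refine ⟨C1, hC1, fun N hN T hT => h1 N hN T ?_⟩
    intro a ha
    obtain ⟨a1, a2, a3, a4⟩ := hT a ha
    exact ⟨a1, a2, a3, a4 h2⟩
  · obtain ⟨C2, hC2, h3⟩ := degen S m hm I (by omega) hI μ hμ ε hε
    refine ⟨C1 + C2, by linarith, fun N hN T hT => ?_⟩
    have hb1 := h1 N hN (T.filter (fun a => ∀ i ∈ I, ∀ j ∈ I, i ≠ j → a i + a j ≠ 0)) (by
      intro a ha
      rw [Finset.mem_filter] at ha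
      obtain ⟨a1, a2, a3, -⟩ := hT a ha.1
      exact ⟨a1, a2, a3, ha.2⟩)
    have hb2 := h3 N hN (T.filter (fun a => ¬ ∀ i ∈ I, ∀ j ∈ I, i ≠ j → a i + a j ≠ 0)) (by
      intro a ha
      rw [Finset.mem_filter] at ha
      obtain ⟨a1, a2, a3, -⟩ := hT a ha.1
      refine ⟨a1, a2, a3, ?_⟩
      have h4 := ha.2
      push Not at h4
      obtain ⟨i, hi, j, hj, hij, hs⟩ := h4
      exact ⟨i, hi, j, hj, hij, hs⟩)
    have hc := Finset.card_filter_add_card_filter_not (s := T)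
      (fun a => ∀ i ∈ I, ∀ j ∈ I, i ≠ j → a i + a j ≠ 0)
    have hc' : (T.card : ℝ) =
        ((T.filter (fun a => ∀ i ∈ I, ∀ j ∈ I, i ≠ j → a i + a j ≠ 0)).card : ℝ) +
        ((T.filter (fun a => ¬ ∀ i ∈ I, ∀ j ∈ I, i ≠ j → a i + a j ≠ 0)).card : ℝ) := by
      exact_mod_cast hc.symm
    rw [hc', add_mul]
    exact add_le_add hb1 hb2

end

end Pool.Agent.Helper87.Camp
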