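import Pool.Agent.Helper87.Camp.Thue

/-!
# The number of solutions of a diagonal Thue equation
-/

set_option autoImplicit false

namespace Pool.Agent.Helper87.Camp

open Finset Pool.Agent.Helper10

lemma isCoprime_natAbs {a b : ℤ} (h : IsCoprime a b) : IsCoprime a (b.natAbs : ℤ) := by
  rcases Int.natAbs_eq b with e | e
  · rw [← e]; exact h
  · have h1 : (b.natAbs : ℤ) = -b := by omega
    rw [h1]
    exact h.neg_right

/-- The three sign patterns. -/
lemma fiber_cases (m : ℕ) (hm : 3 ≤ m) (W1 W2 C B : ℕ) (hW1 : 0 < W1) (hW2 : 0 < W2)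
    (hC : 0 < C) (F : Finset (ℕ × ℕ))
    (hF : ∀ p ∈ F, 0 < p.1 ∧ 0 < p.2 ∧ Nat.Coprime p.1 p.2 ∧ W1 * p.1 ^ m ≤ B ∧
      W2 * p.2 ^ m ≤ B)
    (hT : (∀ p ∈ F, W1 * p.1 ^ m + W2 * p.2 ^ m = C) ∨
      (∀ p ∈ F, W1 * p.1 ^ m = W2 * p.2 ^ m + C) ∨ (∀ p ∈ F, W2 * p.2 ^ m = W1 * p.1 ^ m + C))
    (hd : ∀ p ∈ F, ∀ q ∈ F, (C : ℤ) ∣ (p.1 : ℤ) * q.2 - (q.1 : ℤ) * p.2) :
    F.card ≤ Nat.log 2 B + 1 := by
  classical
  rcases hT with hT | hT | hT
  · have h1 : F.card ≤ 1 := by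
      apply unique_of_small C F (fun p hp => ⟨(hF p hp).1, (hF p hp).2.2.1⟩) _ hd
      intro p hp q hq
      by_contra hcon
      push Not at hcon
      have h2 : C ^ m ≤ (p.1 * q.2) ^ m := Nat.pow_le_pow_left hcon m
      have h3 : (p.1 * q.2) ^ m ≤ (W1 * p.1 ^ m) * (W2 * q.2 ^ m) := by
        calc (p.1 * q.2) ^ m = 1 * 1 * (p.1 ^ m * q.2 ^ m) := by rw [mul_pow]; ring
          _ ≤ W1 * W2 * (p.1 ^ m * q.2 ^ m) :=
              Nat.mul_le_mul_right _ (Nat.mul_le_mul hW1 hW2)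
          _ = (W1 * p.1 ^ m) * (W2 * q.2 ^ m) := by ring
      have h4 : W1 * p.1 ^ m < C := by
        have h5 := hT p hp
        have h6 : 0 < W2 * p.2 ^ m := Nat.mul_pos hW2 (pow_pos (hF p hp).2.1 _)
        omega
      have h5 : W2 * q.2 ^ m < C := by
        have h5 := hT q hq
        have h6 : 0 < W1 * q.1 ^ m := Nat.mul_pos hW1 (pow_pos (hF q hq).1 _)
        omega
      have h6 : (W1 * p.1 ^ m) * (W2 * q.2 ^ m) < C * C := Nat.mul_lt_mul'' h4 h5
      have h7 : C ^ 2 ≤ C ^ m := Nat.pow_le_pow_right hC (by omega)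
      rw [sq] at h7
      omega
    omega
  · apply fiber_diff m hm W1 W2 C B hW1 hW2 hC F _ hd
    intro p hp
    exact ⟨(hF p hp).1, (hF p hp).2.1, hT p hp, (hF p hp).2.2.2.1⟩
  · have h1 : (F.image Prod.swap).card = F.card :=
      Finset.card_image_of_injective _ Prod.swap_injective
    rw [← h1]
    apply fiber_diff m hm W2 W1 C B hW2 hW1 hC
    · intro p hp
      rw [Finset.mem_image] at hp
      obtain ⟨q, hq, rfl⟩ := hp
      exact ⟨(hF q hq).2.1, (hF q hq).1, hT q hq, (hF q hq).2.2.2.2⟩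
    · intro p hp q hq
      rw [Finset.mem_image] at hp hq
      obtain ⟨p', hp', rfl⟩ := hp
      obtain ⟨q', hq', rfl⟩ := hq
      have := hd q' hq' p' hp'
      rw [Prod.fst_swap, Prod.snd_swap, Prod.fst_swap, Prod.snd_swap]
      have e : (p'.2 : ℤ) * (q'.1 : ℤ) - (q'.2 : ℤ) * (p'.1 : ℤ) =
          (q'.1 : ℤ) * p'.2 - (p'.1 : ℤ) * q'.2 := by ring
      rw [e]
      exact this

/-- The number of solutions of `w₁ x₁ ^ m + w₂ x₂ ^ m = c` with coprime terms of size `≤ B` is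
at most `τ(|c|) ^ m (log₂ B + 1)`. -/
theorem thue (m : ℕ) (hm : 3 ≤ m) (w1 w2 c : ℤ) (hw1 : w1 ≠ 0) (hw2 : w2 ≠ 0) (hc : c ≠ 0)
    (B : ℕ) (Sol : Finset (ℕ × ℕ))
    (h : ∀ p ∈ Sol, 0 < p.1 ∧ 0 < p.2 ∧ w1 * (p.1 : ℤ) ^ m + w2 * (p.2 : ℤ) ^ m = c ∧
      IsCoprime (w1 * (p.1 : ℤ) ^ m) (w2 * (p.2 : ℤ) ^ m) ∧
      w1.natAbs * p.1 ^ m ≤ B ∧ w2.natAbs * p.2 ^ m ≤ B) :
    Sol.card ≤ tau c.natAbs ^ m * (Nat.log 2 B + 1) := by
  apply fiber_bound m (by omega) c.natAbs (by omega) w1 w2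
  · intro p hp
    obtain ⟨h1, h2, h3, h4, h5, h6⟩ := h p hp
    refine ⟨?_, ?_, ?_⟩
    · rw [h3]
      exact Int.natAbs_dvd.mpr dvd_rfl
    · have := coprime_sum_left h4
      rw [h3] at this
      exact isCoprime_natAbs this
    · have := coprime_sum_right h4
      rw [h3] at this
      exact isCoprime_natAbs this
  · intro F hFS hd
    apply fiber_cases m hm w1.natAbs w2.natAbs c.natAbs B (by omega) (by omega) (by omega) F _ _ hd
    · intro p hp
      obtain ⟨h1, h2, h3, h4, h5, h6⟩ := h p (hFS hp)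
      refine ⟨h1, h2, ?_, h5, h6⟩
      have h7 : IsCoprime ((p.1 : ℤ) ^ m) ((p.2 : ℤ) ^ m) :=
        IsCoprime.of_mul_left_right (IsCoprime.of_mul_right_right h4)
      have h8 : IsCoprime (p.1 : ℤ) (p.2 : ℤ) :=
        (IsCoprime.pow_iff (by omega) (by omega)).mp h7
      exact Nat.isCoprime_iff_coprime.mp h8
    · have hA : ∀ (w : ℤ) (x : ℕ), ((w.natAbs * x ^ m : ℕ) : ℤ) = w.natAbs * (x : ℤ) ^ m := by
        intro w x
        rw [Nat.cast_mul, Nat.cast_pow]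
      have hpos : ∀ (w : ℤ) (x : ℕ), w = (w.natAbs : ℤ) →
          w * (x : ℤ) ^ m = ((w.natAbs * x ^ m : ℕ) : ℤ) := by
        intro w x hw
        rw [hA, ← hw]
      have hneg : ∀ (w : ℤ) (x : ℕ), w = -(w.natAbs : ℤ) →
          w * (x : ℤ) ^ m = -((w.natAbs * x ^ m : ℕ) : ℤ) := by
        intro w x hw
        rw [hA, ← neg_mul, ← hw]
      rcases Int.natAbs_eq w1 with e1 | e1 <;> rcases Int.natAbs_eq w2 with e2 | e2 <;>
        rcases Int.natAbs_eq c with e3 | e3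
      · left
        intro p hp
        have h3 := (h p (hFS hp)).2.2.1
        rw [hpos w1 _ e1, hpos w2 _ e2, e3] at h3
        omega
      · left
        intro p hp
        have h3 := (h p (hFS hp)).2.2.1
        rw [hpos w1 _ e1, hpos w2 _ e2, e3] at h3
        omega
      · right; left
        intro p hp
        have h3 := (h p (hFS hp)).2.2.1
        rw [hpos w1 _ e1, hneg w2 _ e2, e3] at h3
        omega
      · right; right
        intro p hp
        have h3 := (h p (hFS hp)).2.2.1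
        rw [hpos w1 _ e1, hneg w2 _ e2, e3] at h3
        omega
      · right; right
        intro p hp
        have h3 := (h p (hFS hp)).2.2.1
        rw [hneg w1 _ e1, hpos w2 _ e2, e3] at h3
        omega
      · right; left
        intro p hp
        have h3 := (h p (hFS hp)).2.2.1
        rw [hneg w1 _ e1, hpos w2 _ e2, e3] at h3
        omega
      · left
        intro p hp
        have h3 := (h p (hFS hp)).2.2.1
        rw [hneg w1 _ e1, hneg w2 _ e2, e3] at h3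
        omega
      · left
        intro p hp
        have h3 := (h p (hFS hp)).2.2.1
        rw [hneg w1 _ e1, hneg w2 _ e2, e3] at h3
        omega

/-- For a large common modulus `w₃ ∣ w₁ x₁ ^ m + w₂ x₂ ^ m` there is at most one solution in each
class. -/
theorem large_modulus (m : ℕ) (hm : 0 < m) (w1 w2 w3 : ℤ) (hw1 : w1 ≠ 0) (hw2 : w2 ≠ 0)
    (hw3 : w3 ≠ 0) (B : ℕ) (hB : B ^ 2 < w3.natAbs ^ m * (w1.natAbs * w2.natAbs))
    (Sol : Finset (ℕ × ℕ))
    (h : ∀ p ∈ Sol, 0 < p.1 ∧ 0 < p.2 ∧ w3 ∣ w1 * (p.1 : ℤ) ^ m + w2 * (p.2 : ℤ) ^ m ∧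
      IsCoprime (w1 * (p.1 : ℤ) ^ m) (w2 * (p.2 : ℤ) ^ m) ∧
      w1.natAbs * p.1 ^ m ≤ B ∧ w2.natAbs * p.2 ^ m ≤ B) :
    Sol.card ≤ tau w3.natAbs ^ m := by
  have key : Sol.card ≤ tau w3.natAbs ^ m * 1 := by
    apply fiber_bound m hm w3.natAbs (by omega) w1 w2
    · intro p hp
      obtain ⟨h1, h2, h3, h4, h5, h6⟩ := h p hp
      refine ⟨Int.natAbs_dvd.mpr h3, ?_, ?_⟩
      · exact isCoprime_natAbs (IsCoprime.of_isCoprime_of_dvd_right (coprime_sum_left h4) h3)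
      · exact isCoprime_natAbs (IsCoprime.of_isCoprime_of_dvd_right (coprime_sum_right h4) h3)
    · intro F hFS hd
      apply unique_of_small w3.natAbs F _ _ hd
      · intro p hp
        obtain ⟨h1, h2, h3, h4, h5, h6⟩ := h p (hFS hp)
        refine ⟨h1, ?_⟩
        have h7 : IsCoprime ((p.1 : ℤ) ^ m) ((p.2 : ℤ) ^ m) :=
          IsCoprime.of_mul_left_right (IsCoprime.of_mul_right_right h4)
        have h8 : IsCoprime (p.1 : ℤ) (p.2 : ℤ) := (IsCoprime.pow_iff hm hm).mp h7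
        exact Nat.isCoprime_iff_coprime.mp h8
      · intro p hp q hq
        by_contra hcon
        push Not at hcon
        have h1 := (h p (hFS hp)).2.2.2.2.1
        have h2 := (h q (hFS hq)).2.2.2.2.2
        have h3 : w3.natAbs ^ m ≤ (p.1 * q.2) ^ m := Nat.pow_le_pow_left hcon m
        have h4 : w3.natAbs ^ m * (w1.natAbs * w2.natAbs) ≤ B ^ 2 := by
          calc w3.natAbs ^ m * (w1.natAbs * w2.natAbs)
              ≤ (p.1 * q.2) ^ m * (w1.natAbs * w2.natAbs) := Nat.mul_le_mul_right _ h3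
            _ = (w1.natAbs * p.1 ^ m) * (w2.natAbs * q.2 ^ m) := by rw [mul_pow]; ring
            _ ≤ B * B := Nat.mul_le_mul h1 h2
            _ = B ^ 2 := (sq B).symm
        omega
  simpa using key

end Pool.Agent.Helper87.Camp
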