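import Pool.Agent.Helper87.Camp.Count
import Pool.Agent.Helper87.Camp.Thue2

/-!
# Representations of an integer as a sum of two coprime `m`-full integers
-/

set_option autoImplicit false

namespace Pool.Agent.Helper87.Camp

open Finset Pool.Agent.Helper10

lemma tau_log_le (m : ℕ) (ε : ℝ) (hε : 0 < ε) :
    ∃ C : ℝ, 1 ≤ C ∧ ∀ N : ℕ, 1 ≤ N → ∀ c : ℕ, c ≠ 0 → c ≤ 2 * N →
      ((tau c ^ m * (Nat.log 2 N + 1) : ℕ) : ℝ) ≤ C * (N : ℝ) ^ ε := by
  set δ : ℝ := ε / (2 * (m + 1)) with hδ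
  have hm1 : (0 : ℝ) < m + 1 := by positivity
  have hδ0 : 0 < δ := by positivity
  obtain ⟨C1, hC1, hC⟩ := tau_rpow δ hδ0
  refine ⟨(C1 * 2 ^ δ) ^ m * C1, ?_, ?_⟩
  · have h1 : (1 : ℝ) ≤ 2 ^ δ := Real.one_le_rpow (by norm_num) hδ0.le
    exact one_le_mul_of_one_le_of_one_le
      (one_le_pow₀ (one_le_mul_of_one_le_of_one_le hC1 h1)) hC1
  · intro N hN c hc hcN
    have hN1 : (1 : ℝ) ≤ N := by exact_mod_cast hN
    have hN0 : (0 : ℝ) < N := by linarith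
    have h1 : (tau c : ℝ) ≤ C1 * 2 ^ δ * (N : ℝ) ^ δ := by
      calc (tau c : ℝ) ≤ C1 * (c : ℝ) ^ δ := hC c hc
        _ ≤ C1 * ((2 : ℝ) * N) ^ δ := by
            apply mul_le_mul_of_nonneg_left _ (by linarith)
            exact Real.rpow_le_rpow (by positivity) (by exact_mod_cast hcN) hδ0.le
        _ = C1 * 2 ^ δ * (N : ℝ) ^ δ := by
            rw [Real.mul_rpow (by norm_num) (by positivity)]; ring
    have h2 : ((Nat.log 2 N + 1 : ℕ) : ℝ) ≤ C1 * (N : ℝ) ^ δ := by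
      have h3 : tau (2 ^ Nat.log 2 N) = Nat.log 2 N + 1 := by
        unfold tau
        rw [Nat.divisors_prime_pow Nat.prime_two, Finset.card_map, Finset.card_range]
      rw [← h3]
      calc (tau (2 ^ Nat.log 2 N) : ℝ) ≤ C1 * ((2 ^ Nat.log 2 N : ℕ) : ℝ) ^ δ :=
            hC _ (by positivity)
        _ ≤ C1 * (N : ℝ) ^ δ := by
            apply mul_le_mul_of_nonneg_left _ (by linarith)
            apply Real.rpow_le_rpow (by positivity) _ hδ0.le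
            exact_mod_cast Nat.pow_log_le_self 2 (by omega)
    have h4 : ((tau c ^ m * (Nat.log 2 N + 1) : ℕ) : ℝ) =
        (tau c : ℝ) ^ m * ((Nat.log 2 N + 1 : ℕ) : ℝ) := by
      push_cast; ring
    rw [h4]
    have hNδ : (1 : ℝ) ≤ (N : ℝ) ^ δ := Real.one_le_rpow hN1 hδ0.le
    calc (tau c : ℝ) ^ m * ((Nat.log 2 N + 1 : ℕ) : ℝ)
        ≤ (C1 * 2 ^ δ * (N : ℝ) ^ δ) ^ m * (C1 * (N : ℝ) ^ δ) := by
          apply mul_le_mul _ h2 (by positivity) (by positivity)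
          exact pow_le_pow_left₀ (by positivity) h1 m
      _ = (C1 * 2 ^ δ) ^ m * C1 * ((N : ℝ) ^ δ) ^ (m + 1) := by
          rw [mul_pow, pow_succ]; ring
      _ ≤ (C1 * 2 ^ δ) ^ m * C1 * (N : ℝ) ^ ε := by
          apply mul_le_mul_of_nonneg_left _ (by positivity)
          rw [← Real.rpow_natCast, ← Real.rpow_mul (by positivity)]
          apply Real.rpow_le_rpow_of_exponent_le hN1
          rw [hδ]
          push_cast
          have : ε / (2 * ((m : ℝ) + 1)) * ((m : ℝ) + 1) = ε / 2 := by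
            field_simp
          rw [this]
          linarith

/-- Few `m`-full integers have a large `(m + 1)`-full part. -/
lemma card_large {S : Finset ℕ} {m : ℕ} (hm : 1 ≤ m) {W : ℤ → ℤ} {X : ℤ → ℕ}
    (h : IsDec S m W X) (N : ℕ) (Y : ℝ) (hY : 0 < Y) (F : Finset ℤ) (hF : F ⊆ Aset S m N)
    (hFY : ∀ a ∈ F, Y ≤ ((W a).natAbs : ℝ)) :
    (F.card : ℝ) ≤ Y ^ (-(1 / (m : ℝ) - 1 / ((m + 1 : ℕ) : ℝ))) *
      ((N : ℝ) ^ (1 / (m : ℝ)) * sig S (m + 1) N) := by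
  have hmpos : (0 : ℝ) < m := by exact_mod_cast hm
  have hγ : 0 ≤ 1 / (m : ℝ) - 1 / ((m + 1 : ℕ) : ℝ) := by
    rw [sub_nonneg]
    apply one_div_le_one_div_of_le hmpos
    push_cast
    linarith
  set γ := 1 / (m : ℝ) - 1 / ((m + 1 : ℕ) : ℝ) with hγdef
  calc (F.card : ℝ) = ∑ a ∈ F, (1 : ℝ) := by rw [Finset.sum_const, nsmul_eq_mul, mul_one]
    _ ≤ ∑ a ∈ F, Y ^ (-γ) * ((W a).natAbs : ℝ) ^ γ := by
        apply Finset.sum_le_sum
        intro a ha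
        have h2 : Y ^ γ ≤ ((W a).natAbs : ℝ) ^ γ := Real.rpow_le_rpow hY.le (hFY a ha) hγ
        calc (1 : ℝ) = Y ^ (-γ) * Y ^ γ := by
              rw [← Real.rpow_add hY, neg_add_cancel, Real.rpow_zero]
          _ ≤ Y ^ (-γ) * ((W a).natAbs : ℝ) ^ γ :=
              mul_le_mul_of_nonneg_left h2 (Real.rpow_nonneg hY.le _)
    _ = Y ^ (-γ) * ∑ a ∈ F, ((W a).natAbs : ℝ) ^ γ := by rw [Finset.mul_sum]
    _ ≤ Y ^ (-γ) * ∑ a ∈ Aset S m N, ((W a).natAbs : ℝ) ^ γ := by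
        apply mul_le_mul_of_nonneg_left _ (Real.rpow_nonneg hY.le _)
        exact Finset.sum_le_sum_of_subset_of_nonneg hF
          (fun _ _ _ => Real.rpow_nonneg (Nat.cast_nonneg _) _)
    _ ≤ Y ^ (-γ) * ((N : ℝ) ^ (1 / (m : ℝ)) * sig S (m + 1) N) :=
        mul_le_mul_of_nonneg_left (dec_sum hm h N) (Real.rpow_nonneg hY.le _)

/-- The solutions attached to given `(m + 1)`-full parts. -/
lemma card_fixed {S : Finset ℕ} {m : ℕ} (hm : 3 ≤ m) {W : ℤ → ℤ} {X : ℤ → ℕ}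
    (h : IsDec S m W X) (N : ℕ) (w1 w2 c : ℤ) (hc : c ≠ 0) (T : Finset (ℤ × ℤ))
    (hT : ∀ p ∈ T, p.1 ∈ Aset S m N ∧ p.2 ∈ Aset S m N ∧ p.1 + p.2 = c ∧ IsCoprime p.1 p.2 ∧
      W p.1 = w1 ∧ W p.2 = w2) :
    T.card ≤ tau c.natAbs ^ m * (Nat.log 2 N + 1) := by
  classical
  rcases T.eq_empty_or_nonempty with he | ⟨p0, hp0⟩
  · rw [he, Finset.card_empty]; exact Nat.zero_le _
  have hinj : Set.InjOn (fun p : ℤ × ℤ => (X p.1, X p.2)) (T : Set (ℤ × ℤ)) := by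
    intro p hp q hq hpq
    obtain ⟨h1, h2, h3, h4, h5, h6⟩ := hT p (Finset.mem_coe.mp hp)
    obtain ⟨k1, k2, k3, k4, k5, k6⟩ := hT q (Finset.mem_coe.mp hq)
    rw [mem_Aset] at h1 h2 k1 k2
    have e1 : X p.1 = X q.1 := congrArg Prod.fst hpq
    have e2 : X p.2 = X q.2 := congrArg Prod.snd hpq
    apply Prod.ext
    · rw [← h.eq p.1 h1.1 h1.2.2, ← h.eq q.1 k1.1 k1.2.2, h5, k5, e1]
    · rw [← h.eq p.2 h2.1 h2.2.2, ← h.eq q.2 k2.1 k2.2.2, h6, k6, e2]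
  rw [← Finset.card_image_of_injOn hinj]
  obtain ⟨h1, h2, h3, h4, h5, h6⟩ := hT p0 hp0
  rw [mem_Aset] at h1 h2
  have hw1 : w1 ≠ 0 := by rw [← h5]; exact h.ne _ h1.1 h1.2.2
  have hw2 : w2 ≠ 0 := by rw [← h6]; exact h.ne _ h2.1 h2.2.2
  apply thue m hm w1 w2 c hw1 hw2 hc N
  intro x hx
  rw [Finset.mem_image] at hx
  obtain ⟨p, hp, rfl⟩ := hx
  obtain ⟨k1, k2, k3, k4, k5, k6⟩ := hT p hp
  rw [mem_Aset] at k1 k2
  have e1 := h.eq p.1 k1.1 k1.2.2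
  have e2 := h.eq p.2 k2.1 k2.2.2
  have e3 := h.natAbs_eq k1.1 k1.2.2
  have e4 := h.natAbs_eq k2.1 k2.2.2
  rw [k5] at e1 e3
  rw [k6] at e2 e4
  refine ⟨h.pos _ k1.1 k1.2.2, h.pos _ k2.1 k2.2.2, ?_, ?_, ?_, ?_⟩
  · change w1 * (X p.1 : ℤ) ^ m + w2 * (X p.2 : ℤ) ^ m = c
    rw [e1, e2, k3]
  · change IsCoprime (w1 * (X p.1 : ℤ) ^ m) (w2 * (X p.2 : ℤ) ^ m)
    rw [e1, e2]; exact k4
  · change w1.natAbs * (X p.1) ^ m ≤ N
    rw [e3]; exact k1.2.1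
  · change w2.natAbs * (X p.2) ^ m ≤ N
    rw [e4]; exact k2.2.1

/-- The pointwise bound with a free parameter `Y`. -/
lemma pointwise_aux {S : Finset ℕ} {m : ℕ} (hm : 3 ≤ m) {W : ℤ → ℤ} {X : ℤ → ℕ}
    (h : IsDec S m W X) (N : ℕ) (Y : ℝ) (hY : 0 < Y) (c : ℤ) (hc : c ≠ 0) (T : Finset (ℤ × ℤ))
    (hT : ∀ p ∈ T, p.1 ∈ Aset S m N ∧ p.2 ∈ Aset S m N ∧ p.1 + p.2 = c ∧ IsCoprime p.1 p.2) :
    (T.card : ℝ) ≤ 2 * (Y ^ (-(1 / (m : ℝ) - 1 / ((m + 1 : ℕ) : ℝ))) *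
      ((N : ℝ) ^ (1 / (m : ℝ)) * sig S (m + 1) N)) +
      (Y ^ (1 / ((m + 1 : ℕ) : ℝ)) * sig S (m + 1) N) ^ 2 *
        ((tau c.natAbs ^ m * (Nat.log 2 N + 1) : ℕ) : ℝ) := by
  classical
  set σ := sig S (m + 1) N with hσ
  set Lg : ℝ := Y ^ (-(1 / (m : ℝ) - 1 / ((m + 1 : ℕ) : ℝ))) * ((N : ℝ) ^ (1 / (m : ℝ)) * σ)
    with hLg
  set T1 := T.filter (fun p => Y ≤ ((W p.1).natAbs : ℝ)) with hT1
  set T2 := T.filter (fun p => Y ≤ ((W p.2).natAbs : ℝ)) with hT2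
  set T3 := T.filter (fun p => ((W p.1).natAbs : ℝ) ≤ Y ∧ ((W p.2).natAbs : ℝ) ≤ Y) with hT3
  have hsub : T ⊆ (T1 ∪ T2) ∪ T3 := by
    intro p hp
    rw [Finset.mem_union, Finset.mem_union, hT1, hT2, hT3, Finset.mem_filter,
      Finset.mem_filter, Finset.mem_filter]
    rcases le_total Y ((W p.1).natAbs : ℝ) with h1 | h1
    · exact Or.inl (Or.inl ⟨hp, h1⟩)
    · rcases le_total Y ((W p.2).natAbs : ℝ) with h2 | h2
      · exact Or.inl (Or.inr ⟨hp, h2⟩)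
      · exact Or.inr ⟨hp, h1, h2⟩
  have hcard : T.card ≤ T1.card + T2.card + T3.card :=
    (Finset.card_le_card hsub).trans ((Finset.card_union_le _ _).trans
      (Nat.add_le_add_right (Finset.card_union_le _ _) _))
  have hb1 : (T1.card : ℝ) ≤ Lg := by
    have h1 : (T1.image Prod.fst).card = T1.card := by
      apply Finset.card_image_of_injOn
      intro p hp q hq hpq
      rw [Finset.mem_coe, hT1, Finset.mem_filter] at hp hq
      have e1 := (hT p hp.1).2.2.1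
      have e2 := (hT q hq.1).2.2.1
      have hpq' : p.1 = q.1 := hpq
      apply Prod.ext hpq'
      linarith
    rw [← h1]
    apply card_large (by omega) h N Y hY
    · intro a ha
      rw [Finset.mem_image] at ha
      obtain ⟨p, hp, rfl⟩ := ha
      rw [hT1, Finset.mem_filter] at hp
      exact (hT p hp.1).1
    · intro a ha
      rw [Finset.mem_image] at ha
      obtain ⟨p, hp, rfl⟩ := ha
      rw [hT1, Finset.mem_filter] at hp
      exact hp.2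
  have hb2 : (T2.card : ℝ) ≤ Lg := by
    have h1 : (T2.image Prod.snd).card = T2.card := by
      apply Finset.card_image_of_injOn
      intro p hp q hq hpq
      rw [Finset.mem_coe, hT2, Finset.mem_filter] at hp hq
      have e1 := (hT p hp.1).2.2.1
      have e2 := (hT q hq.1).2.2.1
      have hpq' : p.2 = q.2 := hpq
      refine Prod.ext ?_ hpq'
      linarith
    rw [← h1]
    apply card_large (by omega) h N Y hY
    · intro a ha
      rw [Finset.mem_image] at ha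
      obtain ⟨p, hp, rfl⟩ := ha
      rw [hT2, Finset.mem_filter] at hp
      exact (hT p hp.1).2.1
    · intro a ha
      rw [Finset.mem_image] at ha
      obtain ⟨p, hp, rfl⟩ := ha
      rw [hT2, Finset.mem_filter] at hp
      exact hp.2
  set Wy := (Aset S (m + 1) N).filter (fun w => (w.natAbs : ℝ) ≤ Y) with hWy
  have hWyc : (Wy.card : ℝ) ≤ Y ^ (1 / ((m + 1 : ℕ) : ℝ)) * σ := by
    apply card_le_sig S (m + 1) N Y hY.le Wy (Finset.filter_subset _ _)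
    intro w hw
    rw [hWy, Finset.mem_filter] at hw
    exact hw.2
  have hb3 : T3.card ≤ (tau c.natAbs ^ m * (Nat.log 2 N + 1)) * (Wy ×ˢ Wy).card := by
    apply Finset.card_le_mul_card_image_of_maps_to (f := fun p : ℤ × ℤ => (W p.1, W p.2))
    · intro p hp
      rw [hT3, Finset.mem_filter] at hp
      obtain ⟨k1, k2, k3, k4⟩ := hT p hp.1
      rw [Finset.mem_product, hWy, Finset.mem_filter, Finset.mem_filter]
      exact ⟨⟨h.mem k1, hp.2.1⟩, ⟨h.mem k2, hp.2.2⟩⟩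
    · rintro ⟨w1, w2⟩ _
      apply card_fixed hm h N w1 w2 c hc
      intro p hp
      rw [Finset.mem_filter, hT3, Finset.mem_filter] at hp
      obtain ⟨k1, k2, k3, k4⟩ := hT p hp.1.1
      exact ⟨k1, k2, k3, k4, congrArg Prod.fst hp.2, congrArg Prod.snd hp.2⟩
  have hb3' : (T3.card : ℝ) ≤ (Y ^ (1 / ((m + 1 : ℕ) : ℝ)) * σ) ^ 2 *
      ((tau c.natAbs ^ m * (Nat.log 2 N + 1) : ℕ) : ℝ) := by
    calc (T3.card : ℝ) ≤ (((tau c.natAbs ^ m * (Nat.log 2 N + 1)) * (Wy ×ˢ Wy).card : ℕ) : ℝ) := by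
          exact_mod_cast hb3
      _ = (Wy.card : ℝ) ^ 2 * ((tau c.natAbs ^ m * (Nat.log 2 N + 1) : ℕ) : ℝ) := by
          rw [Finset.card_product]
          push_cast
          ring
      _ ≤ (Y ^ (1 / ((m + 1 : ℕ) : ℝ)) * σ) ^ 2 *
          ((tau c.natAbs ^ m * (Nat.log 2 N + 1) : ℕ) : ℝ) := by
          apply mul_le_mul_of_nonneg_right _ (Nat.cast_nonneg _)
          exact pow_le_pow_left₀ (Nat.cast_nonneg _) hWyc 2
  have hcard' : (T.card : ℝ) ≤ T1.card + T2.card + T3.card := by exact_mod_cast hcard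
  linarith

/-- A nonzero integer of size `≤ 2N` has `O(N ^ (2 / (2m + 1) + ε))` representations as a sum of
two coprime `m`-full integers of size `≤ N`. -/
theorem pointwise (S : Finset ℕ) (m : ℕ) (hm : 3 ≤ m) (ε : ℝ) (hε : 0 < ε) :
    ∃ C : ℝ, 1 ≤ C ∧ ∀ N : ℕ, 1 ≤ N → ∀ c : ℤ, c ≠ 0 → ∀ T : Finset (ℤ × ℤ),
      (∀ p ∈ T, p.1 ∈ Aset S m N ∧ p.2 ∈ Aset S m N ∧ p.1 + p.2 = c ∧ IsCoprime p.1 p.2) →
      (T.card : ℝ) ≤ C * (N : ℝ) ^ (2 / (2 * (m : ℝ) + 1) + ε) := by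
  obtain ⟨W, X, h⟩ := exists_dec S (m := m) (by omega)
  obtain ⟨C1, hC1, hs⟩ := sig_le S (m + 1) (by omega) (ε / 3) (by positivity)
  obtain ⟨C2, hC2, ht⟩ := tau_log_le m (ε / 3) (by positivity)
  refine ⟨2 * C1 + C1 ^ 2 * C2, ?_, ?_⟩
  · nlinarith [sq_nonneg C1, mul_nonneg (sq_nonneg C1) (by linarith : (0 : ℝ) ≤ C2)]
  · intro N hN c hc T hT
    have hN1 : (1 : ℝ) ≤ N := by exact_mod_cast hN
    have hN0 : (0 : ℝ) < N := by linarith
    rcases T.eq_empty_or_nonempty with he | ⟨p0, hp0⟩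
    · rw [he, Finset.card_empty]
      have : (0 : ℝ) ≤ 2 * C1 + C1 ^ 2 * C2 := by positivity
      simpa using mul_nonneg this (Real.rpow_nonneg hN0.le _)
    have hc2 : c.natAbs ≤ 2 * N := by
      obtain ⟨h1, h2, h3, -⟩ := hT p0 hp0
      rw [mem_Aset] at h1 h2
      omega
    have hmpos : (0 : ℝ) < m := by
      have : 0 < m := by omega
      exact_mod_cast this
    set Y : ℝ := (N : ℝ) ^ (((m : ℝ) + 1) / (2 * m + 1)) with hY
    have hY0 : 0 < Y := Real.rpow_pos_of_pos hN0 _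
    have key := pointwise_aux hm h N Y hY0 c hc T hT
    have e1 : Y ^ (-(1 / (m : ℝ) - 1 / ((m + 1 : ℕ) : ℝ))) * (N : ℝ) ^ (1 / (m : ℝ)) =
        (N : ℝ) ^ (2 / (2 * (m : ℝ) + 1)) := by
      rw [hY, ← Real.rpow_mul hN0.le, ← Real.rpow_add hN0]
      congr 1
      push_cast
      field_simp
      ring
    have e2 : (Y ^ (1 / ((m + 1 : ℕ) : ℝ))) ^ 2 = (N : ℝ) ^ (2 / (2 * (m : ℝ) + 1)) := by
      rw [hY, ← Real.rpow_mul hN0.le, ← Real.rpow_natCast, ← Real.rpow_mul hN0.le]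
      congr 1
      push_cast
      field_simp
    set E : ℝ := (N : ℝ) ^ (2 / (2 * (m : ℝ) + 1)) with hE
    have hE0 : 0 ≤ E := Real.rpow_nonneg hN0.le _
    set n3 : ℝ := (N : ℝ) ^ (ε / 3) with hn3
    have hn31 : 1 ≤ n3 := Real.one_le_rpow hN1 (by positivity)
    have hσ0 := sig_nonneg S (m + 1) N
    have hσ := hs N hN
    have hτ := ht N hN c.natAbs (by omega) hc2
    set σ := sig S (m + 1) N with hσdef
    have key2 : (T.card : ℝ) ≤ 2 * (E * σ) + E * σ ^ 2 *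
        ((tau c.natAbs ^ m * (Nat.log 2 N + 1) : ℕ) : ℝ) := by
      have e3 : Y ^ (-(1 / (m : ℝ) - 1 / ((m + 1 : ℕ) : ℝ))) * ((N : ℝ) ^ (1 / (m : ℝ)) * σ) =
          E * σ := by rw [← mul_assoc, e1]
      rw [e3, mul_pow, e2] at key
      exact key
    have f1 : E * σ ≤ E * (C1 * n3) := mul_le_mul_of_nonneg_left hσ hE0
    have f2 : E * σ ^ 2 * ((tau c.natAbs ^ m * (Nat.log 2 N + 1) : ℕ) : ℝ) ≤
        E * (C1 * n3) ^ 2 * (C2 * n3) := by
      apply mul_le_mul _ hτ (Nat.cast_nonneg _) (by positivity)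
      exact mul_le_mul_of_nonneg_left (pow_le_pow_left₀ hσ0 hσ 2) hE0
    have f3 : n3 ≤ n3 ^ 3 := by nlinarith [sq_nonneg (n3 - 1), sq_nonneg n3]
    have f4 : (N : ℝ) ^ (2 / (2 * (m : ℝ) + 1) + ε) = E * n3 ^ 3 := by
      rw [hE, hn3, ← Real.rpow_natCast, ← Real.rpow_mul hN0.le, ← Real.rpow_add hN0]
      congr 1
      push_cast
      ring
    rw [f4]
    have hEC : 0 ≤ E * C1 := by positivity
    calc (T.card : ℝ) ≤ 2 * (E * (C1 * n3)) + E * (C1 * n3) ^ 2 * (C2 * n3) := by linarith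
      _ = 2 * (E * C1) * n3 + E * C1 ^ 2 * C2 * n3 ^ 3 := by ring
      _ ≤ 2 * (E * C1) * n3 ^ 3 + E * C1 ^ 2 * C2 * n3 ^ 3 := by
          have := mul_le_mul_of_nonneg_left f3 (by positivity : 0 ≤ 2 * (E * C1))
          linarith
      _ = (2 * C1 + C1 ^ 2 * C2) * (E * n3 ^ 3) := by ring

end Pool.Agent.Helper87.Camp
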