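import Pool.Agent.Helper87.Camp.Pointwise
import Pool.Agent.Helper87.Camp.Defs

/-!
# Power saving for `(m, m, r)` and `(m, m, m)`
-/

set_option autoImplicit false

namespace Pool.Agent.Helper87.Camp

open Finset Pool.Agent.Helper10

/-- Every prime `p ∉ S` dividing `n` divides it at least `r` times (`r = ∞` allowed). -/
def EFull (S : Finset ℕ) (r : ℕ∞) (n : ℕ) : Prop :=
  ∀ p : ℕ, p.Prime → p ∉ S → p ∣ n → r ≤ emultiplicity p n

lemma EFull.nfull {S : Finset ℕ} {r : ℕ∞} {n k : ℕ} (h : EFull S r n) (hk : (k : ℕ∞) ≤ r) :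
    NFull S k n := by
  intro p hp hS hd
  exact pow_dvd_iff_le_emultiplicity.mpr (hk.trans (h p hp hS hd))

lemma card_EFull (S : Finset ℕ) (r : ℕ∞) (hr : 1 ≤ r) (ε : ℝ) (hε : 0 < ε) :
    ∃ C : ℝ, 1 ≤ C ∧ ∀ N : ℕ, 1 ≤ N → ∀ F : Finset ℤ,
      (∀ c ∈ F, c ≠ 0 ∧ c.natAbs ≤ N ∧ EFull S r c.natAbs) →
      (F.card : ℝ) ≤ C * (N : ℝ) ^ (recip r + ε) := by
  by_cases hrt : r = ⊤
  · obtain ⟨k, hk⟩ := exists_nat_gt (2 / ε)
    have hk0 : (0 : ℝ) < k := lt_trans (by positivity) hk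
    have hk1 : 1 ≤ k := by
      have : 0 < k := by exact_mod_cast hk0
      omega
    obtain ⟨C, hC1, hC⟩ := sig_le S k hk1 (ε / 2) (by positivity)
    refine ⟨C, hC1, fun N hN F hF => ?_⟩
    have hN1 : (1 : ℝ) ≤ N := by exact_mod_cast hN
    have hN0 : (0 : ℝ) < N := by linarith
    have h1 : (F.card : ℝ) ≤ (N : ℝ) ^ (1 / (k : ℝ)) * sig S k N := by
      apply card_le_sig S k N N hN0.le F
      · intro c hc
        rw [mem_Aset]
        exact ⟨(hF c hc).1, (hF c hc).2.1, (hF c hc).2.2.nfull (by rw [hrt]; exact le_top)⟩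
      · intro c hc
        exact_mod_cast (hF c hc).2.1
    have h2 : recip r = 0 := by unfold recip; rw [if_pos hrt]
    have h3 : (N : ℝ) ^ (1 / (k : ℝ)) ≤ (N : ℝ) ^ (ε / 2) := by
      apply Real.rpow_le_rpow_of_exponent_le hN1
      rw [div_le_div_iff₀ hk0 (by norm_num)]
      rw [div_lt_iff₀ hε] at hk
      linarith
    calc (F.card : ℝ) ≤ (N : ℝ) ^ (1 / (k : ℝ)) * sig S k N := h1
      _ ≤ (N : ℝ) ^ (ε / 2) * (C * (N : ℝ) ^ (ε / 2)) :=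
          mul_le_mul h3 (hC N hN) (sig_nonneg _ _ _) (Real.rpow_nonneg hN0.le _)
      _ = C * (N : ℝ) ^ (recip r + ε) := by
          rw [h2, mul_left_comm, ← Real.rpow_add hN0]
          congr 2
          ring
  · obtain ⟨k, rfl⟩ := ENat.ne_top_iff_exists.mp hrt
    have hk1 : 1 ≤ k := by exact_mod_cast hr
    obtain ⟨C, hC1, hC⟩ := sig_le S k hk1 ε hε
    refine ⟨C, hC1, fun N hN F hF => ?_⟩
    have hN1 : (1 : ℝ) ≤ N := by exact_mod_cast hN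
    have hN0 : (0 : ℝ) < N := by linarith
    have h1 : (F.card : ℝ) ≤ (N : ℝ) ^ (1 / (k : ℝ)) * sig S k N := by
      apply card_le_sig S k N N hN0.le F
      · intro c hc
        rw [mem_Aset]
        exact ⟨(hF c hc).1, (hF c hc).2.1, (hF c hc).2.2.nfull le_rfl⟩
      · intro c hc
        exact_mod_cast (hF c hc).2.1
    have h2 : recip (k : ℕ∞) = 1 / (k : ℝ) := by
      unfold recip
      rw [if_neg hrt, ENat.toNat_natCast]
    calc (F.card : ℝ) ≤ (N : ℝ) ^ (1 / (k : ℝ)) * sig S k N := h1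
      _ ≤ (N : ℝ) ^ (1 / (k : ℝ)) * (C * (N : ℝ) ^ ε) :=
          mul_le_mul_of_nonneg_left (hC N hN) (Real.rpow_nonneg hN0.le _)
      _ = C * (N : ℝ) ^ (recip (k : ℕ∞) + ε) := by
          rw [h2, mul_left_comm, ← Real.rpow_add hN0]

lemma card_le_real {α β : Type*} [DecidableEq β] {T : Finset α} {U : Finset β} (f : α → β)
    (hmap : ∀ a ∈ T, f a ∈ U) (K : ℝ)
    (hfib : ∀ u ∈ U, ((T.filter (fun a => f a = u)).card : ℝ) ≤ K) :
    (T.card : ℝ) ≤ K * U.card := by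
  rw [Finset.card_eq_sum_card_fiberwise hmap]
  push_cast
  calc ∑ u ∈ U, ((T.filter (fun a => f a = u)).card : ℝ) ≤ ∑ u ∈ U, K := Finset.sum_le_sum hfib
    _ = K * U.card := by rw [Finset.sum_const, nsmul_eq_mul, mul_comm]

/-- Multiplicities `(m, m, r)`. -/
theorem mmr (S : Finset ℕ) (m : ℕ) (hm : 3 ≤ m) (r : ℕ∞) (hr : 1 ≤ r) (ε : ℝ) (hε : 0 < ε) :
    ∃ C : ℝ, 1 ≤ C ∧ ∀ N : ℕ, 1 ≤ N → ∀ T : Finset (ℤ × ℤ),
      (∀ p ∈ T, p.1 ∈ Aset S m N ∧ p.2 ∈ Aset S m N ∧ p.1 + p.2 ≠ 0 ∧ (p.1 + p.2).natAbs ≤ N ∧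
        EFull S r (p.1 + p.2).natAbs ∧ IsCoprime p.1 p.2) →
      (T.card : ℝ) ≤ C * (N : ℝ) ^ (recip r + 2 / (2 * (m : ℝ) + 1) + ε) := by
  classical
  obtain ⟨C1, hC1, h1⟩ := card_EFull S r hr (ε / 2) (by positivity)
  obtain ⟨C2, hC2, h2⟩ := pointwise S m hm (ε / 2) (by positivity)
  refine ⟨C2 * C1, one_le_mul_of_one_le_of_one_le hC2 hC1, fun N hN T hT => ?_⟩
  have hN1 : (1 : ℝ) ≤ N := by exact_mod_cast hN
  have hN0 : (0 : ℝ) < N := by linarith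
  have h3 : (T.card : ℝ) ≤ C2 * (N : ℝ) ^ (2 / (2 * (m : ℝ) + 1) + ε / 2) *
      (T.image (fun p => p.1 + p.2)).card := by
    apply card_le_real (fun p : ℤ × ℤ => p.1 + p.2) (fun p hp => Finset.mem_image_of_mem _ hp)
    intro c hc
    rw [Finset.mem_image] at hc
    obtain ⟨p0, hp0, rfl⟩ := hc
    apply h2 N hN _ (hT p0 hp0).2.2.1
    intro p hp
    rw [Finset.mem_filter] at hp
    obtain ⟨k1, k2, k3, k4, k5, k6⟩ := hT p hp.1
    exact ⟨k1, k2, hp.2, k6⟩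
  have h4 : ((T.image (fun p => p.1 + p.2)).card : ℝ) ≤ C1 * (N : ℝ) ^ (recip r + ε / 2) := by
    apply h1 N hN
    intro c hc
    rw [Finset.mem_image] at hc
    obtain ⟨p, hp, rfl⟩ := hc
    obtain ⟨k1, k2, k3, k4, k5, k6⟩ := hT p hp
    exact ⟨k3, k4, k5⟩
  calc (T.card : ℝ) ≤ C2 * (N : ℝ) ^ (2 / (2 * (m : ℝ) + 1) + ε / 2) *
      (T.image (fun p => p.1 + p.2)).card := h3
    _ ≤ C2 * (N : ℝ) ^ (2 / (2 * (m : ℝ) + 1) + ε / 2) * (C1 * (N : ℝ) ^ (recip r + ε / 2)) :=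
        mul_le_mul_of_nonneg_left h4 (by positivity)
    _ = C2 * C1 * ((N : ℝ) ^ (2 / (2 * (m : ℝ) + 1) + ε / 2) *
        (N : ℝ) ^ (recip r + ε / 2)) := by ring
    _ = C2 * C1 * (N : ℝ) ^ (recip r + 2 / (2 * (m : ℝ) + 1) + ε) := by
        rw [← Real.rpow_add hN0]
        congr 2
        ring

end Pool.Agent.Helper87.Camp
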