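import Pool.Agent.Helper87.Camp.Multi3

/-!
# Campana points on `(ℙⁿ, ∑ (1 - 1/μᵢ) Hᵢ)` with `n + 2` hyperplanes in general position
-/

set_option autoImplicit false

namespace Pool.Agent.Helper87.Camp

open Finset Pool.Agent.Helper10

variable {n : ℕ}

lemma rel_sum (L : Matrix (Fin (n + 2)) (Fin (n + 1)) ℤ) (j : Fin (n + 1)) :
    ∑ i, rel L i * L i j = 0 := by
  set A : Matrix (Fin (n + 2)) (Fin (n + 2)) ℤ := Matrix.of fun i => Fin.cons (L i j) (L i)
    with hA
  have h1 : A.det = 0 := by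
    apply Matrix.det_zero_of_column_eq (i := 0) (j := j.succ)
    · exact (Fin.succ_ne_zero j).symm
    · intro k
      rw [hA]
      simp
  rw [Matrix.det_succ_column_zero] at h1
  rw [← h1]
  apply Finset.sum_congr rfl
  intro i _
  have h2 : A.submatrix i.succAbove Fin.succ = L.submatrix i.succAbove id := by
    ext a b
    rw [hA]
    simp
  have h3 : A i 0 = L i j := by rw [hA]; simp
  rw [h2, h3]
  unfold rel minor
  ring

lemma rel_form_sum (L : Matrix (Fin (n + 2)) (Fin (n + 1)) ℤ) (x : Fin (n + 1) → ℤ) :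
    ∑ i, rel L i * form L i x = 0 := by
  unfold form
  have h1 : ∀ i ∈ (Finset.univ : Finset (Fin (n + 2))), rel L i * ∑ j, L i j * x j =
      ∑ j, rel L i * L i j * x j := by
    intro i _
    rw [Finset.mul_sum]
    apply Finset.sum_congr rfl
    intro j _
    ring
  rw [Finset.sum_congr rfl h1, Finset.sum_comm]
  apply Finset.sum_eq_zero
  intro j _
  rw [← Finset.sum_mul, rel_sum, zero_mul]

lemma form_injective (L : Matrix (Fin (n + 2)) (Fin (n + 1)) ℤ) (hL : ∀ i, minor L i ≠ 0)
    (x y : Fin (n + 1) → ℤ) (h : ∀ i, form L i x = form L i y) : x = y := by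
  have h0 := hL 0
  unfold minor at h0
  have h1 : (L.submatrix (Fin.succAbove 0) id).mulVec (x - y) = 0 := by
    funext i
    have h2 := h ((0 : Fin (n + 2)).succAbove i)
    unfold form at h2
    rw [Pi.zero_apply]
    change ∑ j, L ((0 : Fin (n + 2)).succAbove i) j * (x j - y j) = 0
    have h3 : ∀ j ∈ (Finset.univ : Finset (Fin (n + 1))),
        L ((0 : Fin (n + 2)).succAbove i) j * (x j - y j) =
        L ((0 : Fin (n + 2)).succAbove i) j * x j - L ((0 : Fin (n + 2)).succAbove i) j * y j := by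
      intro j _
      ring
    rw [Finset.sum_congr rfl h3, Finset.sum_sub_distrib, h2, sub_self]
  have h2 := Matrix.eq_zero_of_mulVec_eq_zero h0 h1
  exact sub_eq_zero.mp h2

/-- On the projective line the degenerate locus contains no Campana point. -/
lemma offDegenerate_of_line (S : Finset ℕ) (L : Matrix (Fin (1 + 2)) (Fin (1 + 1)) ℤ)
    (hL : ∀ i, minor L i ≠ 0) (μ : Fin (1 + 2) → ℕ∞) (I : Finset (Fin (1 + 2)))
    (x : Fin (1 + 1) → ℤ) (h : IsCampana S L μ x) : OffDegenerate L I x := by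
  have h1 := rel_form_sum L x
  rw [Fin.sum_univ_three] at h1
  have hne : ∀ i, rel L i * form L i x ≠ 0 := by
    intro i
    apply mul_ne_zero _ (h.ne_zero i)
    unfold rel
    exact mul_ne_zero (pow_ne_zero _ (by norm_num)) (hL i)
  have a0 := hne 0
  have a1 := hne 1
  have a2 := hne 2
  intro i _ j _ hij
  fin_cases i <;> fin_cases j
  · exact absurd rfl hij
  · change rel L 0 * form L 0 x + rel L 1 * form L 1 x ≠ 0
    intro h2; apply a2; linarith
  · change rel L 0 * form L 0 x + rel L 2 * form L 2 x ≠ 0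
    intro h2; apply a1; linarith
  · change rel L 1 * form L 1 x + rel L 0 * form L 0 x ≠ 0
    intro h2; apply a2; linarith
  · exact absurd rfl hij
  · change rel L 1 * form L 1 x + rel L 2 * form L 2 x ≠ 0
    intro h2; apply a0; linarith
  · change rel L 2 * form L 2 x + rel L 0 * form L 0 x ≠ 0
    intro h2; apply a1; linarith
  · change rel L 2 * form L 2 x + rel L 1 * form L 1 x ≠ 0
    intro h2; apply a0; linarith
  · exact absurd rfl hij

/-- The main bound. -/
theorem main_bound (S : Finset ℕ) (L : Matrix (Fin (n + 2)) (Fin (n + 1)) ℤ)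
    (hL : ∀ i, minor L i ≠ 0) (μ : Fin (n + 2) → ℕ∞) (hμ : ∀ i, 1 ≤ μ i) (m : ℕ) (hm : 3 ≤ m)
    (I : Finset (Fin (n + 2))) (hIμ : ∀ i ∈ I, μ i = m) (hI2 : 2 ≤ I.card)
    (hI : I.card ≤ 2 * m + 2) (ε : ℝ) (hε : 0 < ε) :
    ∃ C : ℝ, ∀ B : ℕ, 1 ≤ B →
      {x : Fin (n + 1) → ℤ | IsCampana S L μ x ∧ (I.card = 2 → OffDegenerate L I x) ∧
        ∀ j, |x j| ≤ B}.Finite ∧
      ({x : Fin (n + 1) → ℤ | IsCampana S L μ x ∧ (I.card = 2 → OffDegenerate L I x) ∧
        ∀ j, |x j| ≤ B}.ncard : ℝ) ≤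
        C * (B : ℝ) ^ ((∑ i ∈ Iᶜ, recip (μ i)) +
          2 * ((I.card : ℝ) - 1) / (2 * (m : ℝ) + 1) + ε) := by
  classical
  have hrel : ∀ i, rel L i ≠ 0 := by
    intro i
    unfold rel
    exact mul_ne_zero (pow_ne_zero _ (by norm_num)) (hL i)
  set S' : Finset ℕ := S ∪ Finset.univ.biUnion (fun i => (rel L i).natAbs.primeFactors) with hS'
  obtain ⟨C, hC1, hC⟩ := multi_all S' m hm I hI2 hI μ hμ ε hε
  set C0 : ℕ := (∑ i, (rel L i).natAbs * ∑ j, (L i j).natAbs) + 1 with hC0
  set e : ℝ := (∑ i ∈ Iᶜ, recip (μ i)) + 2 * ((I.card : ℝ) - 1) / (2 * (m : ℝ) + 1) + ε with he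
  refine ⟨C * (C0 : ℝ) ^ e, fun B hB => ?_⟩
  set P : (Fin (n + 1) → ℤ) → Prop := fun x => IsCampana S L μ x ∧
    (I.card = 2 → OffDegenerate L I x) ∧ ∀ j, |x j| ≤ B with hP
  set F : Finset (Fin (n + 1) → ℤ) :=
    (Fintype.piFinset (fun _ => Finset.Icc (-(B : ℤ)) B)).filter P with hF
  have hset : {x : Fin (n + 1) → ℤ | P x} = (F : Set (Fin (n + 1) → ℤ)) := by
    ext x
    rw [Set.mem_setOf_eq, Finset.mem_coe, hF, Finset.mem_filter, Fintype.mem_piFinset]
    constructor
    · intro h
      refine ⟨fun j => ?_, h⟩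
      rw [Finset.mem_Icc]
      exact abs_le.mp (h.2.2 j)
    · intro h
      exact h.2
  change {x : Fin (n + 1) → ℤ | P x}.Finite ∧ ({x : Fin (n + 1) → ℤ | P x}.ncard : ℝ) ≤ _
  rw [hset]
  refine ⟨F.finite_toSet, ?_⟩
  rw [Set.ncard_coe_finset]
  set f : (Fin (n + 1) → ℤ) → (Fin (n + 2) → ℤ) := fun x i => rel L i * form L i x with hf
  have hinj : Function.Injective f := by
    intro x y hxy
    apply form_injective L hL
    intro i
    have := congrFun hxy i
    exact mul_left_cancel₀ (hrel i) this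
  rw [← Finset.card_image_of_injective F hinj]
  have hN : 1 ≤ C0 * B := Nat.mul_pos (by omega) hB
  have key := hC (C0 * B) hN (F.image f) (by
    intro a ha
    rw [Finset.mem_image] at ha
    obtain ⟨x, hx, rfl⟩ := ha
    rw [hF, Finset.mem_filter] at hx
    obtain ⟨-, hx1, hx2, hx3⟩ := hx
    have hfne : ∀ i, f x i ≠ 0 := fun i => mul_ne_zero (hrel i) (hx1.ne_zero i)
    have hfull : ∀ i, EFull S' (μ i) (f x i).natAbs := by
      intro i p hp hpS hd
      rw [hS', Finset.mem_union, not_or] at hpS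
      have hd' : (p : ℤ) ∣ rel L i * form L i x := Int.natCast_dvd.mpr hd
      have hpr : ¬ (p : ℤ) ∣ rel L i := by
        intro h1
        apply hpS.2
        rw [Finset.mem_biUnion]
        refine ⟨i, Finset.mem_univ _, ?_⟩
        rw [Nat.mem_primeFactors]
        exact ⟨hp, Int.natCast_dvd.mp h1, Int.natAbs_ne_zero.mpr (hrel i)⟩
      have hp' : Prime (p : ℤ) := Nat.prime_iff_prime_int.mp hp
      have h2 : (p : ℤ) ∣ form L i x := (hp'.dvd_or_dvd hd').resolve_left hpr
      have h3 := hx1.full i p hp hpS.1 h2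
      rw [Int.emultiplicity_natAbs]
      exact h3.trans (emultiplicity_le_emultiplicity_of_dvd_right (dvd_mul_left _ _))
    have hsize : ∀ i, (f x i).natAbs ≤ C0 * B := by
      intro i
      have h1 : (form L i x).natAbs ≤ (∑ j, (L i j).natAbs) * B := by
        unfold form
        rw [Finset.sum_mul]
        refine (Int.natAbs_sum_le _ _).trans (Finset.sum_le_sum fun j _ => ?_)
        rw [Int.natAbs_mul]
        apply Nat.mul_le_mul_left
        have := abs_le.mp (hx3 j)
        omega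
      calc (f x i).natAbs = (rel L i).natAbs * (form L i x).natAbs := Int.natAbs_mul _ _
        _ ≤ (rel L i).natAbs * ((∑ j, (L i j).natAbs) * B) := Nat.mul_le_mul_left _ h1
        _ = ((rel L i).natAbs * ∑ j, (L i j).natAbs) * B := by ring
        _ ≤ C0 * B := by
            apply Nat.mul_le_mul_right
            rw [hC0]
            have := Finset.single_le_sum (f := fun i => (rel L i).natAbs * ∑ j, (L i j).natAbs)
              (fun _ _ => Nat.zero_le _) (Finset.mem_univ i)
            omega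
    refine ⟨fun i hi => ?_, fun i _ => ?_, rel_form_sum L x, hx2⟩
    · rw [mem_Aset]
      refine ⟨hfne i, hsize i, ?_⟩
      apply (hfull i).nfull
      rw [hIμ i hi]
    · rw [mem_Eset]
      exact ⟨hfne i, hsize i, hfull i⟩)
  refine key.trans (le_of_eq ?_)
  push_cast
  rw [Real.mul_rpow (by positivity) (by positivity)]
  ring

end Pool.Agent.Helper87.Camp
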