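import Pool.Agent.Helper10.DivBound

/-!
# The number of `m`-th roots modulo `M`
-/

set_option autoImplicit false

namespace Pool.Agent.Helper87.Camp

open Finset Pool.Agent.Helper10

/-- The number of elements of a group killed by `m`. -/
noncomputable def tor (G : Type*) [Group G] (m : ℕ) : ℕ := Nat.card {u : G // u ^ m = 1}

lemma tor_cyclic (G : Type*) [Group G] [Finite G] [IsCyclic G] {m : ℕ} (hm : 0 < m) :
    tor G m ≤ m := by
  classical
  have := Fintype.ofFinite G
  unfold tor
  rw [Nat.card_eq_fintype_card, Fintype.card_subtype]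
  exact IsCyclic.card_pow_eq_one_le hm

lemma tor_congr {G H : Type*} [Group G] [Group H] (e : G ≃* H) (m : ℕ) : tor G m = tor H m := by
  unfold tor
  apply Nat.card_congr
  refine e.toEquiv.subtypeEquiv (fun a => ?_)
  constructor
  · intro h
    change (e a) ^ m = 1
    rw [← map_pow, h, map_one]
  · intro h
    change (e a) ^ m = 1 at h
    rw [← map_pow] at h
    exact e.injective (by rw [h, map_one])

lemma tor_prod (G H : Type*) [Group G] [Group H] (m : ℕ) :
    tor (G × H) m = tor G m * tor H m := by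
  unfold tor
  rw [← Nat.card_prod]
  apply Nat.card_congr
  refine ⟨fun x => (⟨x.1.1, ?_⟩, ⟨x.1.2, ?_⟩), fun y => ⟨(y.1.1, y.2.1), ?_⟩, ?_, ?_⟩
  · exact congrArg Prod.fst x.2
  · exact congrArg Prod.snd x.2
  · exact Prod.ext y.1.2 y.2.2
  · intro x; rfl
  · intro y; rfl

lemma tor_index_two (G : Type*) [Group G] [Finite G] (H : Subgroup G) (hH : H.index = 2)
    [IsCyclic H] {m : ℕ} (hm : 0 < m) (hc : ∀ a b : G, a * b = b * a) : tor G m ≤ 2 * m := by
  classical
  have := Fintype.ofFinite G
  unfold tor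
  rw [Nat.card_eq_fintype_card, Fintype.card_subtype]
  set T : Finset G := Finset.univ.filter (fun u => u ^ m = 1) with hT
  have h1 : (T.filter (fun u => u ∈ H)).card ≤ m := by
    have h2 : tor H m ≤ m := tor_cyclic H hm
    refine le_trans ?_ h2
    unfold tor
    rw [Nat.card_eq_fintype_card]
    apply Finset.card_le_card_of_injOn
      (f := fun u => if h : u ∈ H ∧ u ^ m = 1 then
        (⟨⟨u, h.1⟩, Subtype.ext h.2⟩ : {u : H // u ^ m = 1}) else ⟨1, one_pow m⟩)
      (t := Finset.univ)
    · intro u _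
      exact Finset.mem_coe.mpr (Finset.mem_univ _)
    · intro u hu v hv huv
      rw [Finset.mem_coe, Finset.mem_filter, hT, Finset.mem_filter] at hu hv
      simp only [dif_pos (show u ∈ H ∧ u ^ m = 1 from ⟨hu.2, hu.1.2⟩),
        dif_pos (show v ∈ H ∧ v ^ m = 1 from ⟨hv.2, hv.1.2⟩)] at huv
      exact congrArg (fun x => x.1.1) huv
  have h3 : (T.filter (fun u => ¬ u ∈ H)).card ≤ (T.filter (fun u => u ∈ H)).card := by
    by_cases he : (T.filter (fun u => ¬ u ∈ H)).Nonempty
    · obtain ⟨u0, hu0⟩ := he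
      rw [Finset.mem_filter, hT, Finset.mem_filter] at hu0
      apply Finset.card_le_card_of_injOn (f := fun u => u * u0)
      · intro u hu
        rw [Finset.mem_coe, Finset.mem_filter, hT, Finset.mem_filter] at hu
        rw [Finset.mem_coe, Finset.mem_filter, hT, Finset.mem_filter]
        refine ⟨⟨Finset.mem_univ _, ?_⟩, ?_⟩
        · have hcomm : Commute u u0 := hc u u0
          rw [hcomm.mul_pow, hu.1.2, hu0.1.2, one_mul]
        · rw [Subgroup.mul_mem_iff_of_index_two hH]
          exact ⟨fun h => absurd h hu.2, fun h => absurd h hu0.2⟩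
      · intro u _ v _ huv
        exact mul_right_cancel huv
    · rw [Finset.not_nonempty_iff_eq_empty] at he
      rw [he, Finset.card_empty]
      exact Nat.zero_le _
  have h4 := Finset.card_filter_add_card_filter_not (s := T) (fun u => u ∈ H)
  omega

lemma tor_two_pow (n : ℕ) {m : ℕ} (hm : 0 < m) : tor (ZMod (2 ^ n))ˣ m ≤ 2 * m := by
  have : NeZero (2 ^ n) := ⟨by positivity⟩
  have hsmall : n ≤ 2 → tor (ZMod (2 ^ n))ˣ m ≤ 2 * m := by
    intro hn
    have h1 : tor (ZMod (2 ^ n))ˣ m ≤ Nat.card (ZMod (2 ^ n))ˣ := Finite.card_subtype_le _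
    rw [Nat.card_eq_fintype_card, ZMod.card_units_eq_totient] at h1
    have h2 : (2 ^ n).totient ≤ 2 := by
      interval_cases n <;> decide
    omega
  rcases Nat.lt_or_ge 2 n with hn | hn
  · obtain ⟨k, rfl⟩ : ∃ k, n = k + 2 := ⟨n - 2, by omega⟩
    have hcop : Nat.Coprime 5 (2 ^ (k + 2)) := by
      apply Nat.Coprime.pow_right
      norm_num
    set f : (ZMod (2 ^ (k + 2)))ˣ := ZMod.unitOfCoprime 5 hcop with hf
    have hord : orderOf f = 2 ^ k := by
      rw [← orderOf_units, hf, ZMod.coe_unitOfCoprime]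
      exact_mod_cast ZMod.orderOf_five k
    have hindex : (Subgroup.zpowers f).index = 2 := by
      have h1 := (Subgroup.zpowers f).card_mul_index
      rw [Nat.card_zpowers, hord, Nat.card_eq_fintype_card, ZMod.card_units_eq_totient,
        Nat.totient_prime_pow Nat.prime_two (by omega)] at h1
      have h2 : k + 2 - 1 = k + 1 := by omega
      rw [h2] at h1
      have h3 : 0 < 2 ^ k := by positivity
      have h5 : 2 ^ (k + 1) = 2 ^ k * 2 := pow_succ 2 k
      have h4 : 2 ^ k * (Subgroup.zpowers f).index = 2 ^ k * 2 := by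
        rw [h1, h5]
        norm_num
      exact Nat.eq_of_mul_eq_mul_left h3 h4
    exact tor_index_two _ (Subgroup.zpowers f) hindex hm (fun a b => mul_comm a b)
  · exact hsmall hn

lemma two_mul_le_two_pow {m : ℕ} : 2 * m ≤ 2 ^ m := by
  induction m with
  | zero => norm_num
  | succ k ih =>
    rcases Nat.eq_zero_or_pos k with h | h
    · subst h; norm_num
    · have h2 : 2 ≤ 2 ^ k := Nat.le_self_pow (by omega) 2 |>.trans le_rfl
      rw [pow_succ]; omega

/-- The number of `m`-torsion units modulo `M` is at most `τ(M) ^ m`. -/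
lemma tor_le (m : ℕ) (hm : 0 < m) (M : ℕ) (hM : M ≠ 0) : tor (ZMod M)ˣ m ≤ tau M ^ m := by
  induction M using Nat.recOnPosPrimePosCoprime with
  | zero => exact absurd rfl hM
  | one =>
    have h1 : tor (ZMod 1)ˣ m ≤ Nat.card (ZMod 1)ˣ := Finite.card_subtype_le _
    have h2 : Nat.card (ZMod 1)ˣ = 1 := Nat.card_unique
    have h3 : 1 ≤ tau 1 ^ m := Nat.one_le_pow _ _ (tau_pos 1 one_ne_zero)
    omega
  | prime_pow p n hp hn =>
    have h1 : tau (p ^ n) = n + 1 := by
      unfold tau
      rw [Nat.divisors_prime_pow hp, Finset.card_map, Finset.card_range]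
    have h2 : 2 ^ m ≤ tau (p ^ n) ^ m := Nat.pow_le_pow_left (by omega) m
    refine le_trans ?_ h2
    by_cases hp2 : p = 2
    · subst hp2
      exact (tor_two_pow n hm).trans two_mul_le_two_pow
    · have : NeZero (p ^ n) := ⟨pow_ne_zero _ hp.ne_zero⟩
      have : IsCyclic (ZMod (p ^ n))ˣ := ZMod.isCyclic_units_of_prime_pow p hp hp2 n
      exact (tor_cyclic _ hm).trans ((Nat.lt_two_pow_self).le)
  | coprime a b ha hb hab iha ihb =>
    let e := (Units.mapEquiv (ZMod.chineseRemainder hab).toMulEquiv).trans MulEquiv.prodUnits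
    rw [tor_congr e, tor_prod]
    have h1 : tau (a * b) = tau a * tau b := by
      unfold tau
      exact Nat.Coprime.card_divisors_mul hab
    rw [h1, mul_pow]
    exact Nat.mul_le_mul (iha (by omega)) (ihb (by omega))

open Classical in
/-- The number of `m`-th roots of a unit modulo `M` is at most `τ(M) ^ m`. -/
lemma roots_le (m : ℕ) (hm : 0 < m) (M : ℕ) [NeZero M] (v : (ZMod M)ˣ) :
    ((Finset.univ : Finset (ZMod M)ˣ).filter (fun u => u ^ m = v)).card ≤ tau M ^ m := by
  refine le_trans ?_ (tor_le m hm M (NeZero.ne M))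
  by_cases he : ((Finset.univ : Finset (ZMod M)ˣ).filter (fun u => u ^ m = v)).Nonempty
  · obtain ⟨u0, hu0⟩ := he
    rw [Finset.mem_filter] at hu0
    unfold tor
    rw [Nat.card_eq_fintype_card, Fintype.card_subtype]
    apply Finset.card_le_card_of_injOn (f := fun u => u * u0⁻¹)
    · intro u hu
      rw [Finset.mem_coe, Finset.mem_filter] at hu
      rw [Finset.mem_coe, Finset.mem_filter]
      refine ⟨Finset.mem_univ _, ?_⟩
      rw [mul_pow, inv_pow, hu.2, hu0.2, mul_inv_cancel]
    · intro u _ w _ huw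
      exact mul_right_cancel huw
  · rw [Finset.not_nonempty_iff_eq_empty] at he
    rw [he, Finset.card_empty]
    exact Nat.zero_le _

end Pool.Agent.Helper87.Camp
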