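import Pool.Agent.Helper87.Camp.Roots

/-!
# Diagonal Thue equations `w₁ x₁ ^ m + w₂ x₂ ^ m = c`: congruence classes and the gap principle
-/

set_option autoImplicit false

namespace Pool.Agent.Helper87.Camp

open Finset Pool.Agent.Helper10

lemma coprime_sum_left {a b : ℤ} (h : IsCoprime a b) : IsCoprime a (a + b) := by
  obtain ⟨u, v, h⟩ := h
  exact ⟨u - v, v, by linear_combination h⟩

lemma coprime_sum_right {a b : ℤ} (h : IsCoprime a b) : IsCoprime b (a + b) := by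
  obtain ⟨u, v, h⟩ := h
  exact ⟨v - u, u, by linear_combination h⟩

lemma ratio_eq {a b a' b' : ℕ} (hb : 0 < a) (h1 : Nat.Coprime a b) (h2 : Nat.Coprime a' b')
    (h : a * b' = a' * b) : a = a' ∧ b = b' := by
  have h3 : a ∣ a' := by
    apply h1.dvd_of_dvd_mul_right
    rw [← h]
    exact dvd_mul_right _ _
  have h4 : a' ∣ a := by
    apply h2.dvd_of_dvd_mul_right
    rw [h]
    exact dvd_mul_right _ _
  have h5 : a = a' := Nat.dvd_antisymm h3 h4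
  subst h5
  exact ⟨rfl, (Nat.eq_of_mul_eq_mul_left hb h).symm⟩

/-- Division of the solutions of a congruence `w₁ x₁ ^ m + w₂ x₂ ^ m ≡ 0` into classes. -/
lemma fiber_bound (m : ℕ) (hm : 0 < m) (M : ℕ) (hM : M ≠ 0) (w1 w2 : ℤ) (K : ℕ)
    (Sol : Finset (ℕ × ℕ))
    (hsol : ∀ p ∈ Sol, (M : ℤ) ∣ w1 * (p.1 : ℤ) ^ m + w2 * (p.2 : ℤ) ^ m ∧
      IsCoprime (w1 * (p.1 : ℤ) ^ m) (M : ℤ) ∧ IsCoprime (w2 * (p.2 : ℤ) ^ m) (M : ℤ))
    (hfib : ∀ F ⊆ Sol, (∀ p ∈ F, ∀ q ∈ F, (M : ℤ) ∣ (p.1 : ℤ) * q.2 - (q.1 : ℤ) * p.2) →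
      F.card ≤ K) :
    Sol.card ≤ tau M ^ m * K := by
  classical
  have : NeZero M := ⟨hM⟩
  rcases Sol.eq_empty_or_nonempty with he | ⟨p0, hp0⟩
  · rw [he, Finset.card_empty]; exact Nat.zero_le _
  obtain ⟨-, hc1, hc2⟩ := hsol p0 hp0
  have hw1 : IsUnit (w1 : ZMod M) :=
    (ZMod.coe_int_isUnit_iff_isCoprime w1 M).mpr (IsCoprime.of_mul_left_left hc1).symm
  have hw2 : IsUnit (w2 : ZMod M) :=
    (ZMod.coe_int_isUnit_iff_isCoprime w2 M).mpr (IsCoprime.of_mul_left_left hc2).symm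
  obtain ⟨U1, hU1⟩ := hw1
  obtain ⟨U2, hU2⟩ := hw2
  have hx1 : ∀ p ∈ Sol, Nat.Coprime p.1 M := by
    intro p hp
    have h1 := (hsol p hp).2.1
    have h2 : IsCoprime ((p.1 : ℤ) ^ m) (M : ℤ) := IsCoprime.of_mul_left_right h1
    have h3 : IsCoprime (p.1 : ℤ) (M : ℤ) := (IsCoprime.pow_left_iff hm).mp h2
    exact Nat.isCoprime_iff_coprime.mp h3
  have hx2 : ∀ p ∈ Sol, Nat.Coprime p.2 M := by
    intro p hp
    have h1 := (hsol p hp).2.2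
    have h2 : IsCoprime ((p.2 : ℤ) ^ m) (M : ℤ) := IsCoprime.of_mul_left_right h1
    have h3 : IsCoprime (p.2 : ℤ) (M : ℤ) := (IsCoprime.pow_left_iff hm).mp h2
    exact Nat.isCoprime_iff_coprime.mp h3
  set κ : ℕ × ℕ → (ZMod M)ˣ := fun p =>
    if h : Nat.Coprime p.1 M ∧ Nat.Coprime p.2 M then
      ZMod.unitOfCoprime p.1 h.1 * (ZMod.unitOfCoprime p.2 h.2)⁻¹ else 1 with hκ
  set R : Finset (ZMod M)ˣ := Finset.univ.filter (fun u => u ^ m = (-U2) * U1⁻¹) with hR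
  have hmap : ∀ p ∈ Sol, κ p ∈ R := by
    intro p hp
    rw [hR, Finset.mem_filter]
    refine ⟨Finset.mem_univ _, ?_⟩
    have hh : κ p = ZMod.unitOfCoprime p.1 (hx1 p hp) * (ZMod.unitOfCoprime p.2 (hx2 p hp))⁻¹ := by
      rw [hκ]
      exact dif_pos ⟨hx1 p hp, hx2 p hp⟩
    rw [hh, mul_pow, inv_pow, mul_inv_eq_iff_eq_mul, mul_assoc, mul_comm U1⁻¹, ← mul_assoc,
      eq_mul_inv_iff_mul_eq]
    apply Units.ext
    have h1 := (hsol p hp).1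
    rw [← ZMod.intCast_zmod_eq_zero_iff_dvd] at h1
    push_cast at h1
    rw [Units.val_mul, Units.val_mul, Units.val_pow_eq_pow_val, Units.val_pow_eq_pow_val,
      ZMod.coe_unitOfCoprime, ZMod.coe_unitOfCoprime, Units.val_neg, hU1, hU2]
    linear_combination h1
  have hdiv : ∀ p ∈ Sol, ∀ q ∈ Sol, κ p = κ q →
      (M : ℤ) ∣ (p.1 : ℤ) * q.2 - (q.1 : ℤ) * p.2 := by
    intro p hp q hq hpq
    have hh : ∀ p (hp : p ∈ Sol), κ p =
        ZMod.unitOfCoprime p.1 (hx1 p hp) * (ZMod.unitOfCoprime p.2 (hx2 p hp))⁻¹ := by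
      intro p hp
      rw [hκ]
      exact dif_pos ⟨hx1 p hp, hx2 p hp⟩
    rw [hh p hp, hh q hq, mul_inv_eq_iff_eq_mul, mul_assoc, mul_comm (_)⁻¹, ← mul_assoc,
      eq_mul_inv_iff_mul_eq] at hpq
    have h1 := congrArg Units.val hpq
    rw [Units.val_mul, Units.val_mul, ZMod.coe_unitOfCoprime, ZMod.coe_unitOfCoprime,
      ZMod.coe_unitOfCoprime, ZMod.coe_unitOfCoprime] at h1
    rw [← ZMod.intCast_zmod_eq_zero_iff_dvd]
    push_cast
    rw [h1, sub_self]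
  have h1 : ∀ u ∈ R, (Sol.filter (fun p => κ p = u)).card ≤ K := by
    intro u _
    apply hfib _ (Finset.filter_subset _ _)
    intro p hp q hq
    rw [Finset.mem_filter] at hp hq
    exact hdiv p hp.1 q hq.1 (hp.2.trans hq.2.symm)
  have h2 : Sol.card ≤ K * R.card := Finset.card_le_mul_card_image_of_maps_to hmap K h1
  have h3 : R.card ≤ tau M ^ m := roots_le m hm M _
  calc Sol.card ≤ K * R.card := h2
    _ ≤ K * tau M ^ m := Nat.mul_le_mul_left _ h3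
    _ = tau M ^ m * K := mul_comm _ _

/-- If the products `p₁ q₂` are smaller than the modulus, a class has at most one element. -/
lemma unique_of_small (M : ℕ) (F : Finset (ℕ × ℕ))
    (hF : ∀ p ∈ F, 0 < p.1 ∧ Nat.Coprime p.1 p.2)
    (hs : ∀ p ∈ F, ∀ q ∈ F, p.1 * q.2 < M)
    (hd : ∀ p ∈ F, ∀ q ∈ F, (M : ℤ) ∣ (p.1 : ℤ) * q.2 - (q.1 : ℤ) * p.2) : F.card ≤ 1 := by
  rw [Finset.card_le_one]
  intro p hp q hq
  have h1 := hs p hp q hq
  have h2 := hs q hq p hp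
  have h3 := hd p hp q hq
  have h4 : (p.1 : ℤ) * q.2 - (q.1 : ℤ) * p.2 = 0 := by
    apply Int.eq_zero_of_abs_lt_dvd h3
    rw [abs_lt]
    have h1' : (p.1 : ℤ) * q.2 < M := by exact_mod_cast h1
    have h2' : (q.1 : ℤ) * p.2 < M := by exact_mod_cast h2
    have h5 : (0 : ℤ) ≤ (p.1 : ℤ) * q.2 := by positivity
    have h6 : (0 : ℤ) ≤ (q.1 : ℤ) * p.2 := by positivity
    constructor <;> linarith
  have h5 : p.1 * q.2 = q.1 * p.2 := by
    have : (p.1 : ℤ) * q.2 = (q.1 : ℤ) * p.2 := by linarith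
    exact_mod_cast this
  obtain ⟨h6, h7⟩ := ratio_eq (hF p hp).1 (hF p hp).2 (hF q hq).2 h5
  exact Prod.ext h6 h7

/-- The gap principle. -/
lemma gap (m : ℕ) (hm : 3 ≤ m) (W1 W2 c x1 x2 y1 y2 : ℕ) (hW1 : 0 < W1) (hW2 : 0 < W2)
    (hc : 0 < c) (hx1 : 0 < x1) (hx2 : 0 < x2) (hx : W1 * x1 ^ m = W2 * x2 ^ m + c)
    (hy : W1 * y1 ^ m = W2 * y2 ^ m + c) (hlt : x2 < y2)
    (hd : (c : ℤ) ∣ (x1 : ℤ) * y2 - (y1 : ℤ) * x2) : (W1 * x1 ^ m) ^ 2 ≤ W1 * y1 ^ m := by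
  have hm0 : m ≠ 0 := by omega
  have e1 : W1 * (x1 * y2) ^ m + c * x2 ^ m = W1 * (y1 * x2) ^ m + c * y2 ^ m := by
    have a1 : W1 * (x1 * y2) ^ m = (W1 * x1 ^ m) * y2 ^ m := by rw [mul_pow]; ring
    have a2 : W1 * (y1 * x2) ^ m = (W1 * y1 ^ m) * x2 ^ m := by rw [mul_pow]; ring
    rw [a1, a2, hx, hy]
    ring
  have hp : x2 ^ m < y2 ^ m := Nat.pow_lt_pow_left hlt hm0
  have e2 : W1 * (y1 * x2) ^ m < W1 * (x1 * y2) ^ m := by
    have : c * x2 ^ m < c * y2 ^ m := Nat.mul_lt_mul_of_pos_left hp hc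
    omega
  have e3 : (y1 * x2) ^ m < (x1 * y2) ^ m := lt_of_mul_lt_mul_left e2 (Nat.zero_le _)
  have e4 : y1 * x2 < x1 * y2 := lt_of_pow_lt_pow_left₀ m (Nat.zero_le _) e3
  have e5 : y1 * x2 + c ≤ x1 * y2 := by
    have h1 : (0 : ℤ) < (x1 : ℤ) * y2 - (y1 : ℤ) * x2 := by
      have : ((y1 * x2 : ℕ) : ℤ) < ((x1 * y2 : ℕ) : ℤ) := by exact_mod_cast e4
      push_cast at this
      linarith
    have h2 := Int.le_of_dvd h1 hd
    have h3 : ((y1 * x2 + c : ℕ) : ℤ) ≤ ((x1 * y2 : ℕ) : ℤ) := by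
      push_cast
      linarith
    exact_mod_cast h3
  obtain ⟨k, rfl⟩ : ∃ k, m = k + 1 := ⟨m - 1, by omega⟩
  have e6 : (y1 * x2) ^ (k + 1) + c * (x1 * y2) ^ k ≤ (x1 * y2) ^ (k + 1) := by
    calc (y1 * x2) ^ (k + 1) + c * (x1 * y2) ^ k
        = (y1 * x2) ^ k * (y1 * x2) + c * (x1 * y2) ^ k := by rw [pow_succ]
      _ ≤ (x1 * y2) ^ k * (y1 * x2) + c * (x1 * y2) ^ k :=
          Nat.add_le_add_right (Nat.mul_le_mul_right _ (Nat.pow_le_pow_left e4.le k)) _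
      _ = (x1 * y2) ^ k * (y1 * x2 + c) := by ring
      _ ≤ (x1 * y2) ^ k * (x1 * y2) := Nat.mul_le_mul_left _ e5
      _ = (x1 * y2) ^ (k + 1) := (pow_succ _ _).symm
  have e7 : c * (W1 * (x1 * y2) ^ k) < c * y2 ^ (k + 1) := by
    have h1 : W1 * ((y1 * x2) ^ (k + 1) + c * (x1 * y2) ^ k) ≤ W1 * (x1 * y2) ^ (k + 1) :=
      Nat.mul_le_mul_left _ e6
    have h2 : 0 < c * x2 ^ (k + 1) := Nat.mul_pos hc (pow_pos hx2 _)
    nlinarith
  have e8 : W1 * (x1 * y2) ^ k < y2 ^ (k + 1) := lt_of_mul_lt_mul_left e7 (Nat.zero_le _)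
  have hy2 : 0 < y2 := by omega
  have e9 : W1 * x1 ^ k < y2 := by
    have h1 : y2 ^ k * (W1 * x1 ^ k) < y2 ^ k * y2 := by
      calc y2 ^ k * (W1 * x1 ^ k) = W1 * (x1 * y2) ^ k := by rw [mul_pow]; ring
        _ < y2 ^ (k + 1) := e8
        _ = y2 ^ k * y2 := pow_succ _ _
    exact lt_of_mul_lt_mul_left h1 (Nat.zero_le _)
  have hk : 2 ≤ k := by omega
  calc (W1 * x1 ^ (k + 1)) ^ 2 = W1 ^ 2 * x1 ^ (2 * (k + 1)) := by
        rw [mul_pow, ← pow_mul, mul_comm (k + 1) 2]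
    _ ≤ W1 ^ (k + 1) * x1 ^ (k * (k + 1)) := by
        apply Nat.mul_le_mul
        · exact Nat.pow_le_pow_right hW1 (by omega)
        · exact Nat.pow_le_pow_right hx1 (Nat.mul_le_mul_right _ hk)
    _ = (W1 * x1 ^ k) ^ (k + 1) := by rw [mul_pow, ← pow_mul]
    _ ≤ y2 ^ (k + 1) := Nat.pow_le_pow_left e9.le _
    _ ≤ W2 * y2 ^ (k + 1) := Nat.le_mul_of_pos_left _ hW2
    _ ≤ W1 * y1 ^ (k + 1) := by omega

/-- A class of solutions of `W₁ x₁ ^ m = W₂ x₂ ^ m + c` is logarithmically small. -/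
lemma fiber_diff (m : ℕ) (hm : 3 ≤ m) (W1 W2 c B : ℕ) (hW1 : 0 < W1) (hW2 : 0 < W2)
    (hc : 0 < c) (F : Finset (ℕ × ℕ))
    (hF : ∀ p ∈ F, 0 < p.1 ∧ 0 < p.2 ∧ W1 * p.1 ^ m = W2 * p.2 ^ m + c ∧ W1 * p.1 ^ m ≤ B)
    (hd : ∀ p ∈ F, ∀ q ∈ F, (c : ℤ) ∣ (p.1 : ℤ) * q.2 - (q.1 : ℤ) * p.2) :
    F.card ≤ Nat.log 2 B + 1 := by
  have key : ∀ p ∈ F, ∀ q ∈ F, p.2 < q.2 →
      Nat.log 2 (W1 * p.1 ^ m) < Nat.log 2 (W1 * q.1 ^ m) := by
    intro p hp q hq hlt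
    obtain ⟨hp1, hp2, hp3, hp4⟩ := hF p hp
    obtain ⟨hq1, hq2, hq3, hq4⟩ := hF q hq
    have h1 := gap m hm W1 W2 c p.1 p.2 q.1 q.2 hW1 hW2 hc hp1 hp2 hp3 hq3 hlt (hd p hp q hq)
    have h2 : 2 ≤ W1 * p.1 ^ m := by
      have : 0 < W2 * p.2 ^ m := Nat.mul_pos hW2 (pow_pos hp2 _)
      omega
    have h3 : (W1 * p.1 ^ m) * 2 ≤ W1 * q.1 ^ m := by nlinarith
    have h4 : Nat.log 2 ((W1 * p.1 ^ m) * 2) = Nat.log 2 (W1 * p.1 ^ m) + 1 :=
      Nat.log_mul_base (by norm_num) (by omega)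
    have h5 := Nat.log_mono_right (b := 2) h3
    omega
  calc F.card ≤ (Finset.range (Nat.log 2 B + 1)).card := by
        apply Finset.card_le_card_of_injOn (f := fun p => Nat.log 2 (W1 * p.1 ^ m))
        · intro p hp
          rw [Finset.mem_coe, Finset.mem_range]
          have := Nat.log_mono_right (b := 2) (hF p hp).2.2.2
          exact Nat.lt_succ_of_le this
        · intro p hp q hq hpq
          have hp' := Finset.mem_coe.mp hp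
          have hq' := Finset.mem_coe.mp hq
          rcases lt_trichotomy p.2 q.2 with h | h | h
          · exact absurd hpq (key p hp' q hq' h).ne
          · have h1 := (hF p hp').2.2.1
            have h2 := (hF q hq').2.2.1
            rw [h] at h1
            have h3 : W1 * p.1 ^ m = W1 * q.1 ^ m := by rw [h1, h2]
            have h4 : p.1 ^ m = q.1 ^ m := Nat.eq_of_mul_eq_mul_left hW1 h3
            have h5 : p.1 = q.1 := Nat.pow_left_injective (by omega) h4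
            exact Prod.ext h5 h
          · exact absurd hpq.symm (key q hq' p hp' h).ne
    _ = Nat.log 2 B + 1 := Finset.card_range _

end Pool.Agent.Helper87.Camp
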