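import Pool.Agent.Helper87.Camp.Thue2

/-!
# Diagonal Thue equations without coprimality
-/

set_option autoImplicit false

namespace Pool.Agent.Helper87.Camp

open Finset Pool.Agent.Helper10

/-- The smallest `e` with `g ∣ w e ^ m` divides every `x` with `g ∣ w x ^ m`. -/
lemma exists_min (g w m : ℕ) (hg : 0 < g) (hm : 0 < m) :
    ∃ e : ℕ, 0 < e ∧ g ∣ w * e ^ m ∧ ∀ x : ℕ, g ∣ w * x ^ m → e ∣ x := by
  classical
  have hex : ∃ e : ℕ, 0 < e ∧ g ∣ w * e ^ m :=
    ⟨g, hg, (dvd_pow_self g hm.ne').mul_left w⟩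
  refine ⟨Nat.find hex, (Nat.find_spec hex).1, (Nat.find_spec hex).2, fun x hx => ?_⟩
  set e := Nat.find hex with he
  have he0 : 0 < e := (Nat.find_spec hex).1
  have h1 : g ∣ w * (Nat.gcd e x) ^ m := by
    rw [← Nat.pow_gcd_pow, ← Nat.gcd_mul_left]
    exact Nat.dvd_gcd (Nat.find_spec hex).2 hx
  have h2 : 0 < Nat.gcd e x := Nat.gcd_pos_of_pos_left x he0
  have h3 : e ≤ Nat.gcd e x := Nat.find_min' hex ⟨h2, h1⟩
  have h4 : Nat.gcd e x = e :=
    le_antisymm (Nat.le_of_dvd he0 (Nat.gcd_dvd_left e x)) h3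
  rw [← h4]
  exact Nat.gcd_dvd_right e x

lemma tau_mono {a b : ℕ} (hb : b ≠ 0) (h : a ∣ b) : tau a ≤ tau b := by
  unfold tau
  exact Finset.card_le_card (Nat.divisors_subset_of_dvd hb h)

/-- The number of solutions of `w₁ x₁ ^ m + w₂ x₂ ^ m = c ≠ 0` of size `≤ B` is
at most `τ(|c|) ^ (m + 1) (log₂ B + 1)`. -/
theorem thue_gen (m : ℕ) (hm : 3 ≤ m) (w1 w2 c : ℤ) (hw1 : w1 ≠ 0) (hw2 : w2 ≠ 0) (hc : c ≠ 0)
    (B : ℕ) (Sol : Finset (ℕ × ℕ))
    (h : ∀ p ∈ Sol, 0 < p.1 ∧ 0 < p.2 ∧ w1 * (p.1 : ℤ) ^ m + w2 * (p.2 : ℤ) ^ m = c ∧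
      w1.natAbs * p.1 ^ m ≤ B ∧ w2.natAbs * p.2 ^ m ≤ B) :
    Sol.card ≤ tau c.natAbs ^ (m + 1) * (Nat.log 2 B + 1) := by
  classical
  set G : ℕ × ℕ → ℕ := fun p => Nat.gcd (w1.natAbs * p.1 ^ m) (w2.natAbs * p.2 ^ m) with hG
  have hc0 : c.natAbs ≠ 0 := by omega
  have hGd : ∀ p ∈ Sol, (G p : ℤ) ∣ w1 * (p.1 : ℤ) ^ m ∧ (G p : ℤ) ∣ w2 * (p.2 : ℤ) ^ m := by
    intro p _
    constructor
    · have h1 : G p ∣ (w1 * (p.1 : ℤ) ^ m).natAbs := by
        rw [Int.natAbs_mul, Int.natAbs_pow, Int.natAbs_natCast]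
        exact Nat.gcd_dvd_left _ _
      exact Int.natCast_dvd.mpr h1
    · have h1 : G p ∣ (w2 * (p.2 : ℤ) ^ m).natAbs := by
        rw [Int.natAbs_mul, Int.natAbs_pow, Int.natAbs_natCast]
        exact Nat.gcd_dvd_right _ _
      exact Int.natCast_dvd.mpr h1
  have hmap : ∀ p ∈ Sol, G p ∈ c.natAbs.divisors := by
    intro p hp
    rw [Nat.mem_divisors]
    refine ⟨?_, hc0⟩
    have h1 := dvd_add (hGd p hp).1 (hGd p hp).2
    rw [(h p hp).2.2.1] at h1
    exact Int.natCast_dvd.mp h1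
  have hfib : ∀ g ∈ c.natAbs.divisors, (Sol.filter (fun p => G p = g)).card ≤
      tau c.natAbs ^ m * (Nat.log 2 B + 1) := by
    intro g hg
    rw [Nat.mem_divisors] at hg
    have hg0 : 0 < g := Nat.pos_of_ne_zero (fun h0 => by
      rw [h0, zero_dvd_iff] at hg
      exact hc0 hg.1)
    rcases (Sol.filter (fun p => G p = g)).eq_empty_or_nonempty with he | ⟨p0, hp0⟩
    · rw [he, Finset.card_empty]; exact Nat.zero_le _
    obtain ⟨e1, he1, hge1, hmin1⟩ := exists_min g w1.natAbs m hg0 (by omega)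
    obtain ⟨e2, he2, hge2, hmin2⟩ := exists_min g w2.natAbs m hg0 (by omega)
    obtain ⟨v1, hv1⟩ : (g : ℤ) ∣ w1 * (e1 : ℤ) ^ m := by
      apply Int.natCast_dvd.mpr
      rw [Int.natAbs_mul, Int.natAbs_pow, Int.natAbs_natCast]
      exact hge1
    obtain ⟨v2, hv2⟩ : (g : ℤ) ∣ w2 * (e2 : ℤ) ^ m := by
      apply Int.natCast_dvd.mpr
      rw [Int.natAbs_mul, Int.natAbs_pow, Int.natAbs_natCast]
      exact hge2
    obtain ⟨c', hc'⟩ : (g : ℤ) ∣ c := Int.natCast_dvd.mpr hg.1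
    have hgZ : (g : ℤ) ≠ 0 := by exact_mod_cast hg0.ne'
    have hv1ne : v1 ≠ 0 := by
      rintro rfl
      rw [mul_zero] at hv1
      have : (e1 : ℤ) ^ m ≠ 0 := pow_ne_zero _ (by exact_mod_cast he1.ne')
      exact (mul_ne_zero hw1 this) hv1
    have hv2ne : v2 ≠ 0 := by
      rintro rfl
      rw [mul_zero] at hv2
      have : (e2 : ℤ) ^ m ≠ 0 := pow_ne_zero _ (by exact_mod_cast he2.ne')
      exact (mul_ne_zero hw2 this) hv2
    have hc'ne : c' ≠ 0 := by
      rintro rfl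
      rw [mul_zero] at hc'
      exact hc hc'
    have hdv : ∀ p ∈ Sol.filter (fun p => G p = g), e1 ∣ p.1 ∧ e2 ∣ p.2 := by
      intro p hp
      rw [Finset.mem_filter] at hp
      constructor
      · apply hmin1
        rw [← hp.2]
        exact Nat.gcd_dvd_left _ _
      · apply hmin2
        rw [← hp.2]
        exact Nat.gcd_dvd_right _ _
    have hinj : Set.InjOn (fun p : ℕ × ℕ => (p.1 / e1, p.2 / e2))
        (Sol.filter (fun p => G p = g) : Set (ℕ × ℕ)) := by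
      intro p hp q hq hpq
      obtain ⟨a1, a2⟩ := hdv p (Finset.mem_coe.mp hp)
      obtain ⟨b1, b2⟩ := hdv q (Finset.mem_coe.mp hq)
      have i1 : p.1 / e1 = q.1 / e1 := congrArg Prod.fst hpq
      have i2 : p.2 / e2 = q.2 / e2 := congrArg Prod.snd hpq
      apply Prod.ext
      · rw [← Nat.div_mul_cancel a1, ← Nat.div_mul_cancel b1, i1]
      · rw [← Nat.div_mul_cancel a2, ← Nat.div_mul_cancel b2, i2]
    have hkey : (Sol.filter (fun p => G p = g)).card ≤
        tau c'.natAbs ^ m * (Nat.log 2 B + 1) := by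
      rw [← Finset.card_image_of_injOn hinj]
      apply thue m hm v1 v2 c' hv1ne hv2ne hc'ne B
      intro x hx
      rw [Finset.mem_image] at hx
      obtain ⟨p, hp, rfl⟩ := hx
      obtain ⟨⟨y1, hy1⟩, ⟨y2, hy2⟩⟩ := hdv p hp
      rw [Finset.mem_filter] at hp
      obtain ⟨h1, h2, h3, h4, h5⟩ := h p hp.1
      have q1 : p.1 / e1 = y1 := by rw [hy1, Nat.mul_div_cancel_left _ he1]
      have q2 : p.2 / e2 = y2 := by rw [hy2, Nat.mul_div_cancel_left _ he2]
      have hy1pos : 0 < y1 := by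
        rcases Nat.eq_zero_or_pos y1 with h0 | h0
        · rw [h0, mul_zero] at hy1; omega
        · exact h0
      have hy2pos : 0 < y2 := by
        rcases Nat.eq_zero_or_pos y2 with h0 | h0
        · rw [h0, mul_zero] at hy2; omega
        · exact h0
      have t1 : w1 * (p.1 : ℤ) ^ m = g * (v1 * (y1 : ℤ) ^ m) := by
        rw [hy1]; push_cast; rw [mul_pow, ← mul_assoc, hv1]; ring
      have t2 : w2 * (p.2 : ℤ) ^ m = g * (v2 * (y2 : ℤ) ^ m) := by
        rw [hy2]; push_cast; rw [mul_pow, ← mul_assoc, hv2]; ring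
      have n1 : w1.natAbs * p.1 ^ m = g * (v1.natAbs * y1 ^ m) := by
        have := congrArg Int.natAbs t1
        rw [Int.natAbs_mul, Int.natAbs_pow, Int.natAbs_natCast, Int.natAbs_mul,
          Int.natAbs_natCast, Int.natAbs_mul, Int.natAbs_pow, Int.natAbs_natCast] at this
        exact this
      have n2 : w2.natAbs * p.2 ^ m = g * (v2.natAbs * y2 ^ m) := by
        have := congrArg Int.natAbs t2
        rw [Int.natAbs_mul, Int.natAbs_pow, Int.natAbs_natCast, Int.natAbs_mul,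
          Int.natAbs_natCast, Int.natAbs_mul, Int.natAbs_pow, Int.natAbs_natCast] at this
        exact this
      refine ⟨?_, ?_, ?_, ?_, ?_, ?_⟩
      · change 0 < p.1 / e1
        rw [q1]; exact hy1pos
      · change 0 < p.2 / e2
        rw [q2]; exact hy2pos
      · change v1 * ((p.1 / e1 : ℕ) : ℤ) ^ m + v2 * ((p.2 / e2 : ℕ) : ℤ) ^ m = c'
        rw [q1, q2]
        rw [t1, t2, hc', ← mul_add] at h3
        exact mul_left_cancel₀ hgZ h3
      · change IsCoprime (v1 * ((p.1 / e1 : ℕ) : ℤ) ^ m) (v2 * ((p.2 / e2 : ℕ) : ℤ) ^ m)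
        rw [q1, q2, Int.isCoprime_iff_gcd_eq_one, Int.gcd_eq_natAbs, Int.natAbs_mul,
          Int.natAbs_pow, Int.natAbs_natCast, Int.natAbs_mul, Int.natAbs_pow,
          Int.natAbs_natCast]
        have h6 : Nat.gcd (g * (v1.natAbs * y1 ^ m)) (g * (v2.natAbs * y2 ^ m)) = g := by
          rw [← n1, ← n2]
          exact hp.2
        rw [Nat.gcd_mul_left] at h6
        have h7 : g * Nat.gcd (v1.natAbs * y1 ^ m) (v2.natAbs * y2 ^ m) = g * 1 := by
          rw [h6, mul_one]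
        exact Nat.eq_of_mul_eq_mul_left hg0 h7
      · change v1.natAbs * (p.1 / e1) ^ m ≤ B
        rw [q1]
        calc v1.natAbs * y1 ^ m ≤ g * (v1.natAbs * y1 ^ m) := Nat.le_mul_of_pos_left _ hg0
          _ ≤ B := by rw [← n1]; exact h4
      · change v2.natAbs * (p.2 / e2) ^ m ≤ B
        rw [q2]
        calc v2.natAbs * y2 ^ m ≤ g * (v2.natAbs * y2 ^ m) := Nat.le_mul_of_pos_left _ hg0
          _ ≤ B := by rw [← n2]; exact h5
    refine hkey.trans (Nat.mul_le_mul_right _ (Nat.pow_le_pow_left (tau_mono hc0 ?_) m))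
    rw [hc', Int.natAbs_mul]
    exact dvd_mul_left _ _
  have h1 := Finset.card_le_mul_card_image_of_maps_to hmap _ hfib
  calc Sol.card ≤ tau c.natAbs ^ m * (Nat.log 2 B + 1) * c.natAbs.divisors.card := h1
    _ = tau c.natAbs ^ (m + 1) * (Nat.log 2 B + 1) := by
        change tau c.natAbs ^ m * (Nat.log 2 B + 1) * tau c.natAbs = _
        rw [pow_succ]; ring

end Pool.Agent.Helper87.Camp
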