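import Pool.Agent.Helper87.Camp.Triple

/-!
# Power saving for `(m, m, m)`, conclusion
-/

set_option autoImplicit false

namespace Pool.Agent.Helper87.Camp

open Finset Pool.Agent.Helper10

/-- The exponent inequality behind region III. -/
lemma exponent_ineq {m : ℕ} (hm : 3 ≤ m) (x y z n : ℝ) (hxy : x ≤ y) (hyz : y ≤ z)
    (hn : 0 ≤ n) (hb : (m : ℝ) * z + (x + y) ≤ 2 * n) :
    0 ≤ (6 / (3 * (m : ℝ) + 2) - 1 / m) * n + (-(1 / ((m : ℝ) + 1))) * x +
      (-(1 / ((m : ℝ) + 1))) * y + (1 / ((m : ℝ) * (m + 1))) * z := by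
  have hm3 : (3 : ℝ) ≤ m := by exact_mod_cast hm
  have hmpos : (0 : ℝ) < m := by linarith
  set M : ℝ := (m : ℝ) with hM
  have hm2 : (0 : ℝ) < M + 2 := by linarith
  -- multiply by `m (m + 1)`
  have key : 0 ≤ (M + 1) * (3 * M - 2) / (3 * M + 2) * n - M * (x + y) + z := by
    have h1 : M * (x + y) - z ≤ (2 * M - 1) / (M + 2) * (2 * n) := by
      have hp : x + y ≤ 2 * z := by linarith
      have e : M * (x + y) - z = (2 * M - 1) / (M + 2) * (M * z + (x + y)) +
          (M ^ 2 + 1) / (M + 2) * ((x + y) - 2 * z) := by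
        field_simp
        ring
      rw [e]
      have q1 : (2 * M - 1) / (M + 2) * (M * z + (x + y)) ≤
          (2 * M - 1) / (M + 2) * (2 * n) := by
        apply mul_le_mul_of_nonneg_left hb
        apply div_nonneg <;> linarith
      have q2 : (M ^ 2 + 1) / (M + 2) * ((x + y) - 2 * z) ≤ 0 := by
        apply mul_nonpos_of_nonneg_of_nonpos
        · positivity
        · linarith
      linarith
    have h2 : (2 * M - 1) / (M + 2) * (2 * n) ≤ (M + 1) * (3 * M - 2) / (3 * M + 2) * n := by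
      have h3 : (2 * M - 1) / (M + 2) * 2 ≤ (M + 1) * (3 * M - 2) / (3 * M + 2) := by
        rw [div_mul_eq_mul_div, div_le_div_iff₀ hm2 (by linarith)]
        nlinarith [mul_nonneg (by linarith : (0 : ℝ) ≤ M) (mul_nonneg
          (by linarith : (0 : ℝ) ≤ 3 * M + 1) (by linarith : (0 : ℝ) ≤ M - 2))]
      have := mul_le_mul_of_nonneg_right h3 hn
      linarith
    linarith
  have e : (6 / (3 * M + 2) - 1 / M) * n + (-(1 / (M + 1))) * x +
      (-(1 / (M + 1))) * y + (1 / (M * (M + 1))) * z =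
      ((M + 1) * (3 * M - 2) / (3 * M + 2) * n - M * (x + y) + z) / (M * (M + 1)) := by
    field_simp
    ring
  rw [e]
  exact div_nonneg key (by positivity)

/-- Region III: small modulus. -/
lemma region_three {S : Finset ℕ} {m : ℕ} (hm : 3 ≤ m) {W : ℤ → ℤ} {X : ℤ → ℕ}
    (h : IsDec S m W X) (N : ℕ) (hN : 1 ≤ N) (K : ℝ) (hK : 0 ≤ K)
    (hKt : ∀ c : ℕ, c ≠ 0 → c ≤ 2 * N → ((tau c ^ m * (Nat.log 2 N + 1) : ℕ) : ℝ) ≤ K)
    (T : Finset (Fin 3 → ℤ))
    (hT : ∀ a ∈ T, (∀ i, a i ∈ Aset S m N) ∧ a 0 + a 1 + a 2 = 0 ∧ IsCoprime (a 0) (a 1) ∧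
      (W (a 0)).natAbs ≤ (W (a 1)).natAbs ∧ (W (a 1)).natAbs ≤ (W (a 2)).natAbs ∧
      (W (a 2)).natAbs ^ m * ((W (a 0)).natAbs * (W (a 1)).natAbs) ≤ N ^ 2) :
    (T.card : ℝ) ≤ K * ((N : ℝ) ^ (6 / (3 * (m : ℝ) + 2)) * sig S (m + 1) N ^ 3) := by
  classical
  have hN1 : (1 : ℝ) ≤ N := by exact_mod_cast hN
  have hN0 : (0 : ℝ) < N := by linarith
  set f : (Fin 3 → ℤ) → ℤ × ℤ × ℤ := fun a => (W (a 0), W (a 1), a 2) with hf
  have h1 : (T.card : ℝ) ≤ K * (T.image f).card := by
    apply card_le_real f (fun a ha => Finset.mem_image_of_mem _ ha)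
    rintro ⟨w1, w2, b⟩ hw
    rw [Finset.mem_image] at hw
    obtain ⟨a0, ha0, hfa0⟩ := hw
    obtain ⟨k1, -⟩ := hT a0 ha0
    have e3 : a0 2 = b := congrArg (fun x => x.2.2) hfa0
    have g2 := mem_Aset.mp (k1 2)
    rw [e3] at g2
    have h2 := hKt (-b).natAbs (by omega) (by omega)
    have hinj : Set.InjOn (fun a : Fin 3 → ℤ => (a 0, a 1))
        (T.filter (fun a => f a = (w1, w2, b)) : Set (Fin 3 → ℤ)) := by
      intro a ha c hc hac
      rw [Finset.mem_coe, Finset.mem_filter] at ha hc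
      have i1 : a 0 = c 0 := congrArg Prod.fst hac
      have i2 : a 1 = c 1 := congrArg Prod.snd hac
      have u1 : a 2 = b := congrArg (fun x => x.2.2) ha.2
      have u2 : c 2 = b := congrArg (fun x => x.2.2) hc.2
      funext i
      fin_cases i
      · exact i1
      · exact i2
      · change a 2 = c 2
        rw [u1, u2]
    have h3 : (T.filter (fun a => f a = (w1, w2, b))).card ≤
        tau (-b).natAbs ^ m * (Nat.log 2 N + 1) := by
      rw [← Finset.card_image_of_injOn hinj]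
      apply card_fixed hm h N w1 w2 (-b) (by omega)
      intro x hx
      rw [Finset.mem_image] at hx
      obtain ⟨a, ha, rfl⟩ := hx
      rw [Finset.mem_filter] at ha
      obtain ⟨a1, a2, a3, -⟩ := hT a ha.1
      have u1 : W (a 0) = w1 := congrArg Prod.fst ha.2
      have u2 : W (a 1) = w2 := congrArg (fun x => x.2.1) ha.2
      have u3 : a 2 = b := congrArg (fun x => x.2.2) ha.2
      refine ⟨a1 0, a1 1, ?_, a3, u1, u2⟩
      change a 0 + a 1 = -b
      rw [← u3]; linarith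
    calc ((T.filter (fun a => f a = (w1, w2, b))).card : ℝ)
        ≤ ((tau (-b).natAbs ^ m * (Nat.log 2 N + 1) : ℕ) : ℝ) := by exact_mod_cast h3
      _ ≤ K := h2
  set α : ℝ := 1 / ((m + 1 : ℕ) : ℝ) with hα
  set γ : ℝ := 1 / (m : ℝ) - 1 / ((m + 1 : ℕ) : ℝ) with hγ
  set κ : ℝ := 6 / (3 * (m : ℝ) + 2) - 1 / m with hκ
  set A := Aset S (m + 1) N with hA
  have hsig : sig S (m + 1) N = ∑ w ∈ A, (w.natAbs : ℝ) ^ (-α) := rfl
  have h2 : ((T.image f).card : ℝ) ≤ (N : ℝ) ^ (6 / (3 * (m : ℝ) + 2)) * sig S (m + 1) N ^ 3 := by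
    calc ((T.image f).card : ℝ) = ∑ p ∈ T.image f, (1 : ℝ) := by
          rw [Finset.sum_const, nsmul_eq_mul, mul_one]
      _ ≤ ∑ u ∈ T.image f, (N : ℝ) ^ κ * ((u.1.natAbs : ℝ) ^ (-α) *
          ((u.2.1.natAbs : ℝ) ^ (-α) * ((W u.2.2).natAbs : ℝ) ^ γ)) := by
          apply Finset.sum_le_sum
          intro u hu
          rw [Finset.mem_image] at hu
          obtain ⟨a, ha, rfl⟩ := hu
          obtain ⟨a1, a2, a3, a4, a5, a6⟩ := hT a ha
          have k1 := natAbs_pos_of_mem (h.mem (a1 0))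
          have k2 := natAbs_pos_of_mem (h.mem (a1 1))
          have k3 := natAbs_pos_of_mem (h.mem (a1 2))
          have h4' : ((W (a 0)).natAbs : ℝ) ≤ (W (a 1)).natAbs := by exact_mod_cast a4
          have h5' : ((W (a 1)).natAbs : ℝ) ≤ (W (a 2)).natAbs := by exact_mod_cast a5
          have h6' : ((W (a 2)).natAbs : ℝ) ^ m *
              (((W (a 0)).natAbs : ℝ) * ((W (a 1)).natAbs : ℝ)) ≤ (N : ℝ) ^ 2 := by
            exact_mod_cast a6
          change (1 : ℝ) ≤ (N : ℝ) ^ κ * (((W (a 0)).natAbs : ℝ) ^ (-α) *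
            (((W (a 1)).natAbs : ℝ) ^ (-α) * ((W (a 2)).natAbs : ℝ) ^ γ))
          set x : ℝ := ((W (a 0)).natAbs : ℝ)
          set y : ℝ := ((W (a 1)).natAbs : ℝ)
          set z : ℝ := ((W (a 2)).natAbs : ℝ)
          have hx0 : 0 < x := by linarith
          have hy0 : 0 < y := by linarith
          have hz0 : 0 < z := by linarith
          rw [Real.rpow_def_of_pos hN0, Real.rpow_def_of_pos hx0, Real.rpow_def_of_pos hy0,
            Real.rpow_def_of_pos hz0, ← Real.exp_add, ← Real.exp_add, ← Real.exp_add]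
          apply Real.one_le_exp
          have l1 : Real.log x ≤ Real.log y := Real.log_le_log hx0 h4'
          have l2 : Real.log y ≤ Real.log z := Real.log_le_log hy0 h5'
          have l3 : (m : ℝ) * Real.log z + (Real.log x + Real.log y) ≤ 2 * Real.log N := by
            have := Real.log_le_log (by positivity) h6'
            rw [Real.log_mul (by positivity) (by positivity), Real.log_pow,
              Real.log_mul hx0.ne' hy0.ne', Real.log_pow] at this
            push_cast at this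
            exact this
          have l4 := exponent_ineq hm _ _ _ _ l1 l2 (Real.log_nonneg hN1) l3
          have eγ : γ = 1 / ((m : ℝ) * (m + 1)) := alpha_sub hm
          have eα : α = 1 / ((m : ℝ) + 1) := by rw [hα]; push_cast; rfl
          rw [eγ, eα, hκ]
          linarith
      _ ≤ ∑ u ∈ A ×ˢ A ×ˢ Aset S m N, (N : ℝ) ^ κ * ((u.1.natAbs : ℝ) ^ (-α) *
          ((u.2.1.natAbs : ℝ) ^ (-α) * ((W u.2.2).natAbs : ℝ) ^ γ)) := by
          apply Finset.sum_le_sum_of_subset_of_nonneg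
          · intro u hu
            rw [Finset.mem_image] at hu
            obtain ⟨a, ha, rfl⟩ := hu
            obtain ⟨a1, a2, a3, a4, a5, a6⟩ := hT a ha
            rw [Finset.mem_product, Finset.mem_product]
            exact ⟨h.mem (a1 0), h.mem (a1 1), a1 2⟩
          · intro u _ _
            positivity
      _ = (N : ℝ) ^ κ * (sig S (m + 1) N * (sig S (m + 1) N *
          ∑ a ∈ Aset S m N, ((W a).natAbs : ℝ) ^ γ)) := by
          rw [← Finset.mul_sum, Finset.sum_product]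
          congr 1
          have e1 : ∀ x ∈ A, ∑ y ∈ A ×ˢ Aset S m N, (x.natAbs : ℝ) ^ (-α) *
              ((y.1.natAbs : ℝ) ^ (-α) * ((W y.2).natAbs : ℝ) ^ γ) =
              (x.natAbs : ℝ) ^ (-α) * (sig S (m + 1) N *
                ∑ a ∈ Aset S m N, ((W a).natAbs : ℝ) ^ γ) := by
            intro x _
            rw [← Finset.mul_sum, hsig, Finset.sum_mul_sum, ← Finset.sum_product']
          rw [Finset.sum_congr rfl e1, ← Finset.sum_mul, ← hsig]
      _ ≤ (N : ℝ) ^ κ * (sig S (m + 1) N * (sig S (m + 1) N *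
          ((N : ℝ) ^ (1 / (m : ℝ)) * sig S (m + 1) N))) := by
          have hs := sig_nonneg S (m + 1) N
          have hE := dec_sum (by omega) h N
          apply mul_le_mul_of_nonneg_left _ (Real.rpow_nonneg hN0.le _)
          apply mul_le_mul_of_nonneg_left _ hs
          exact mul_le_mul_of_nonneg_left hE hs
      _ = ((N : ℝ) ^ κ * (N : ℝ) ^ (1 / (m : ℝ))) * sig S (m + 1) N ^ 3 := by ring
      _ = (N : ℝ) ^ (6 / (3 * (m : ℝ) + 2)) * sig S (m + 1) N ^ 3 := by
          rw [← Real.rpow_add hN0]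
          congr 2
          rw [hκ]
          ring
  calc (T.card : ℝ) ≤ K * (T.image f).card := h1
    _ ≤ K * ((N : ℝ) ^ (6 / (3 * (m : ℝ) + 2)) * sig S (m + 1) N ^ 3) :=
        mul_le_mul_of_nonneg_left h2 hK

end Pool.Agent.Helper87.Camp
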