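import Pool.Agent.Helper87.Camp.Triple2

/-!
# Power saving for `(m, m, m)`: assembly
-/

set_option autoImplicit false

namespace Pool.Agent.Helper87.Camp

open Finset Pool.Agent.Helper10

lemma ordered_bound {S : Finset ℕ} {m : ℕ} (hm : 3 ≤ m) {W : ℤ → ℤ} {X : ℤ → ℕ}
    (h : IsDec S m W X) (N : ℕ) (hN : 1 ≤ N) (K : ℝ) (hK : 0 ≤ K)
    (hKt : ∀ c : ℕ, c ≠ 0 → c ≤ 2 * N → ((tau c ^ m * (Nat.log 2 N + 1) : ℕ) : ℝ) ≤ K)
    (T : Finset (Fin 3 → ℤ))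
    (hT : ∀ a ∈ T, (∀ i, a i ∈ Aset S m N) ∧ a 0 + a 1 + a 2 = 0 ∧ IsCoprime (a 0) (a 1) ∧
      (W (a 0)).natAbs ≤ (W (a 1)).natAbs ∧ (W (a 1)).natAbs ≤ (W (a 2)).natAbs) :
    (T.card : ℝ) ≤ (N : ℝ) ^ (6 / (3 * (m : ℝ) + 2)) *
      (sig S (m + 1) N ^ 2 + 2 * K * sig S (m + 1) N ^ 3) := by
  classical
  have hN1 : (1 : ℝ) ≤ N := by exact_mod_cast hN
  have hN0 : (0 : ℝ) < N := by linarith
  have hmpos : (0 : ℝ) < m := by
    have : 0 < m := by omega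
    exact_mod_cast this
  set Z : ℝ := (N : ℝ) ^ (4 * ((m : ℝ) + 1) / (3 * m + 2)) with hZ
  have hZ0 : 0 < Z := Real.rpow_pos_of_pos hN0 _
  set σ := sig S (m + 1) N with hσ
  set T1 := T.filter (fun a => Z ≤ ((W (a 1)).natAbs : ℝ) * ((W (a 2)).natAbs : ℝ)) with hT1
  set T2 := T.filter (fun a => ((W (a 1)).natAbs : ℝ) * ((W (a 2)).natAbs : ℝ) ≤ Z ∧
    N ^ 2 < (W (a 2)).natAbs ^ m * ((W (a 0)).natAbs * (W (a 1)).natAbs)) with hT2
  set T3 := T.filter (fun a => (W (a 2)).natAbs ^ m *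
    ((W (a 0)).natAbs * (W (a 1)).natAbs) ≤ N ^ 2) with hT3
  have hsub : T ⊆ (T1 ∪ T2) ∪ T3 := by
    intro a ha
    rw [Finset.mem_union, Finset.mem_union, hT1, hT2, hT3, Finset.mem_filter,
      Finset.mem_filter, Finset.mem_filter]
    rcases le_total Z (((W (a 1)).natAbs : ℝ) * ((W (a 2)).natAbs : ℝ)) with h1 | h1
    · exact Or.inl (Or.inl ⟨ha, h1⟩)
    · rcases Nat.lt_or_ge (N ^ 2)
        ((W (a 2)).natAbs ^ m * ((W (a 0)).natAbs * (W (a 1)).natAbs)) with h2 | h2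
      · exact Or.inl (Or.inr ⟨ha, h1, h2⟩)
      · exact Or.inr ⟨ha, h2⟩
  have hcard : T.card ≤ T1.card + T2.card + T3.card :=
    (Finset.card_le_card hsub).trans ((Finset.card_union_le _ _).trans
      (Nat.add_le_add_right (Finset.card_union_le _ _) _))
  have hcard' : (T.card : ℝ) ≤ T1.card + T2.card + T3.card := by exact_mod_cast hcard
  have b1 := region_one hm h N Z hZ0 T1 (by
    intro a ha
    rw [hT1, Finset.mem_filter] at ha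
    obtain ⟨a1, a2, a3, a4, a5⟩ := hT a ha.1
    exact ⟨a1, a2, ha.2⟩)
  have b2 := region_two hm h N Z hZ0 K hK hKt T2 (by
    intro a ha
    rw [hT2, Finset.mem_filter] at ha
    obtain ⟨a1, a2, a3, a4, a5⟩ := hT a ha.1
    exact ⟨a1, a2, a3, a4, a5, ha.2.1, ha.2.2⟩)
  have b3 := region_three hm h N hN K hK hKt T3 (by
    intro a ha
    rw [hT3, Finset.mem_filter] at ha
    obtain ⟨a1, a2, a3, a4, a5⟩ := hT a ha.1
    exact ⟨a1, a2, a3, a4, a5, ha.2⟩)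
  have e1 : Z ^ (-(1 / (m : ℝ) - 1 / ((m + 1 : ℕ) : ℝ))) * ((N : ℝ) ^ (1 / (m : ℝ)) * σ) ^ 2 =
      (N : ℝ) ^ (6 / (3 * (m : ℝ) + 2)) * σ ^ 2 := by
    rw [mul_pow, ← mul_assoc]
    congr 1
    rw [alpha_sub hm, hZ, ← Real.rpow_mul hN0.le, ← Real.rpow_natCast ((N : ℝ) ^ (1 / (m : ℝ))),
      ← Real.rpow_mul hN0.le, ← Real.rpow_add hN0]
    congr 1
    push_cast
    field_simp
    ring
  have e2 : Z ^ (3 / 2 * (1 / ((m + 1 : ℕ) : ℝ))) = (N : ℝ) ^ (6 / (3 * (m : ℝ) + 2)) := by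
    rw [hZ, ← Real.rpow_mul hN0.le]
    congr 1
    push_cast
    field_simp
    ring
  rw [e1] at b1
  rw [e2] at b2
  calc (T.card : ℝ) ≤ T1.card + T2.card + T3.card := hcard'
    _ ≤ (N : ℝ) ^ (6 / (3 * (m : ℝ) + 2)) * σ ^ 2 +
        K * ((N : ℝ) ^ (6 / (3 * (m : ℝ) + 2)) * σ ^ 3) +
        K * ((N : ℝ) ^ (6 / (3 * (m : ℝ) + 2)) * σ ^ 3) := by linarith
    _ = (N : ℝ) ^ (6 / (3 * (m : ℝ) + 2)) * (σ ^ 2 + 2 * K * σ ^ 3) := by ring

/-- Multiplicities `(m, m, m)`. -/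
theorem mmm (S : Finset ℕ) (m : ℕ) (hm : 3 ≤ m) (ε : ℝ) (hε : 0 < ε) :
    ∃ C : ℝ, 1 ≤ C ∧ ∀ N : ℕ, 1 ≤ N → ∀ T : Finset (Fin 3 → ℤ),
      (∀ a ∈ T, (∀ i, a i ∈ Aset S m N) ∧ a 0 + a 1 + a 2 = 0 ∧
        ∀ i j, i ≠ j → IsCoprime (a i) (a j)) →
      (T.card : ℝ) ≤ C * (N : ℝ) ^ (6 / (3 * (m : ℝ) + 2) + ε) := by
  classical
  obtain ⟨W, X, h⟩ := exists_dec S (m := m) (by omega)
  obtain ⟨C1, hC1, hs⟩ := sig_le S (m + 1) (by omega) (ε / 4) (by positivity)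
  obtain ⟨C2, hC2, ht⟩ := tau_log_le m (ε / 4) (by positivity)
  refine ⟨6 * (C1 ^ 2 + 2 * C2 * C1 ^ 3), ?_, ?_⟩
  · have h1 : (1 : ℝ) ≤ C1 ^ 2 := one_le_pow₀ hC1
    have h2 : (0 : ℝ) ≤ 2 * C2 * C1 ^ 3 := by positivity
    linarith
  · intro N hN T hT
    have hN1 : (1 : ℝ) ≤ N := by exact_mod_cast hN
    have hN0 : (0 : ℝ) < N := by linarith
    set n4 : ℝ := (N : ℝ) ^ (ε / 4) with hn4
    have hn41 : 1 ≤ n4 := Real.one_le_rpow hN1 (by positivity)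
    have hn40 : 0 < n4 := by linarith
    set K : ℝ := C2 * n4 with hK
    have hK0 : 0 ≤ K := by positivity
    have hKt := ht N hN
    set E : ℝ := (N : ℝ) ^ (6 / (3 * (m : ℝ) + 2)) with hE
    have hE0 : 0 ≤ E := Real.rpow_nonneg hN0.le _
    set σ := sig S (m + 1) N with hσ
    have hσ0 : 0 ≤ σ := sig_nonneg _ _ _
    have hσ1 : σ ≤ C1 * n4 := hs N hN
    set Q : ℝ := E * (σ ^ 2 + 2 * K * σ ^ 3) with hQ
    set srt : (Fin 3 → ℤ) → Equiv.Perm (Fin 3) := fun a => Tuple.sort (fun i => (W (a i)).natAbs)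
      with hsrt
    have h1 : (T.card : ℝ) ≤ Q * ((Finset.univ : Finset (Equiv.Perm (Fin 3))).card : ℝ) := by
      apply card_le_real srt (fun _ _ => Finset.mem_univ _)
      intro π _
      have hinj : Set.InjOn (fun a : Fin 3 → ℤ => a ∘ π)
          (T.filter (fun a => srt a = π) : Set (Fin 3 → ℤ)) := by
        intro a _ b _ hab
        exact (Function.Surjective.injective_comp_right π.surjective) hab
      rw [← Finset.card_image_of_injOn hinj]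
      apply ordered_bound hm h N hN K hK0 hKt
      intro b hb
      rw [Finset.mem_image] at hb
      obtain ⟨a, ha, rfl⟩ := hb
      rw [Finset.mem_filter] at ha
      obtain ⟨a1, a2, a3⟩ := hT a ha.1
      have hmono : Monotone ((fun i => (W (a i)).natAbs) ∘ π) := by
        rw [← ha.2]
        exact Tuple.monotone_sort _
      refine ⟨fun i => a1 (π i), ?_, a3 _ _ (by simp), ?_, ?_⟩
      · have h2 : ∑ i, a (π i) = ∑ i, a i := Equiv.sum_comp π a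
        rw [Fin.sum_univ_three, Fin.sum_univ_three, a2] at h2
        exact h2
      · exact hmono (by decide : (0 : Fin 3) ≤ 1)
      · exact hmono (by decide : (1 : Fin 3) ≤ 2)
    have h2 : ((Finset.univ : Finset (Equiv.Perm (Fin 3))).card : ℝ) = 6 := by
      rw [Finset.card_univ, Fintype.card_perm, Fintype.card_fin]
      norm_num [Nat.factorial]
    rw [h2] at h1
    have h3 : σ ^ 2 + 2 * K * σ ^ 3 ≤ (C1 ^ 2 + 2 * C2 * C1 ^ 3) * n4 ^ 4 := by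
      have g1 : σ ^ 2 ≤ (C1 * n4) ^ 2 := pow_le_pow_left₀ hσ0 hσ1 2
      have g2 : σ ^ 3 ≤ (C1 * n4) ^ 3 := pow_le_pow_left₀ hσ0 hσ1 3
      have g3 : n4 ^ 2 ≤ n4 ^ 4 := pow_le_pow_right₀ hn41 (by norm_num)
      have g4 : 2 * K * σ ^ 3 ≤ 2 * K * (C1 * n4) ^ 3 :=
        mul_le_mul_of_nonneg_left g2 (by positivity)
      have g5 : 2 * K * (C1 * n4) ^ 3 = 2 * C2 * C1 ^ 3 * n4 ^ 4 := by rw [hK]; ring
      have g6 : C1 ^ 2 * n4 ^ 2 ≤ C1 ^ 2 * n4 ^ 4 := mul_le_mul_of_nonneg_left g3 (by positivity)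
      nlinarith
    have h4 : (N : ℝ) ^ (6 / (3 * (m : ℝ) + 2) + ε) = E * n4 ^ 4 := by
      rw [hE, hn4, ← Real.rpow_natCast, ← Real.rpow_mul hN0.le, ← Real.rpow_add hN0]
      congr 1
      push_cast
      ring
    rw [h4]
    calc (T.card : ℝ) ≤ Q * 6 := h1
      _ = 6 * E * (σ ^ 2 + 2 * K * σ ^ 3) := by rw [hQ]; ring
      _ ≤ 6 * E * ((C1 ^ 2 + 2 * C2 * C1 ^ 3) * n4 ^ 4) :=
          mul_le_mul_of_nonneg_left h3 (by positivity)
      _ = 6 * (C1 ^ 2 + 2 * C2 * C1 ^ 3) * (E * n4 ^ 4) := by ring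

end Pool.Agent.Helper87.Camp
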